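import Pool.Agent.Q98.RB.HtCont
import Pool.Agent.Q98.RB.Base

/-!
# Nuclear perturbations on reflexive spaces: the Cauchy transforms

`IsK Ψ w x K`: `K` is the Cauchy transform `∫ d(w E x) / (z - ·)` of the measure `h ↦ w (h(N) x)`. It is
characterised by its integrals against bounded functions, is linear in `w`, satisfies
`K (w ∘ N) = z K w - w x`, and is in `L^p` on discs for `1 < p < 2`, with norm at most `C ‖w‖ ‖x‖`.
-/

set_option autoImplicit false

namespace Pool.Agent.Q98.NR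

open MeasureTheory Set Metric Filter Topology
open scoped ENNReal NNReal ComplexConjugate ContDiff
open Pool.Agent.Y283.NK (ct)
open Pool.Agent.Y271.RO (db ht Bd hHT hCTG)
open Pool.Agent.Q98.RB

/-- area integrals of powers of the Cauchy kernel -/
theorem area_p {p : ℝ} (h1 : 1 < p) (h2 : p < 2) (R : ℝ) :
    ∃ C : ℝ≥0, ∀ w : ℂ, ∫⁻ z in ball (0:ℂ) R, (‖z - w‖ₑ⁻¹) ^ p ≤ C := by
  have hunit : ∫⁻ z in ball (0:ℂ) 1, (‖z‖ₑ⁻¹) ^ p ≠ ⊤ := by
    have h := integrableOn_ball_of_norm_le_rpow (E := ℂ) (F := ℝ) (μ := volume)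
      (f := fun z => ‖z‖ ^ (-p)) (C := 1) (α := p) (r := 1)
      (by rw [Complex.finrank_real_complex]; norm_num)
      (by rw [Complex.finrank_real_complex]; exact_mod_cast h2) (Eventually.of_forall fun z => by
        rw [Real.norm_of_nonneg (by positivity), one_mul])
      (by
        apply Measurable.aestronglyMeasurable
        fun_prop)
    have h3 := h.2
    unfold HasFiniteIntegral at h3
    refine ne_top_of_le_ne_top h3.ne (le_of_eq ?_)
    refine lintegral_congr_ae ?_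
    have h0 : ∀ᵐ z : ℂ ∂(volume.restrict (ball (0:ℂ) 1)), z ≠ 0 := by
      apply ae_restrict_of_ae
      have : (volume : Measure ℂ) {0} = 0 := measure_singleton 0
      exact compl_mem_ae_iff.2 this
    filter_upwards [h0] with z hz
    have hz0 : 0 < ‖z‖ := norm_pos_iff.2 hz
    rw [Real.enorm_eq_ofReal (by positivity), ← ofReal_norm, ← ENNReal.ofReal_inv_of_pos hz0,
      ENNReal.ofReal_rpow_of_pos (by positivity), Real.inv_rpow hz0.le, Real.rpow_neg hz0.le]
  have hV : (volume : Measure ℂ) (ball (0:ℂ) R) ≠ ⊤ := measure_ball_lt_top.ne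
  refine ⟨((∫⁻ z in ball (0:ℂ) 1, (‖z‖ₑ⁻¹) ^ p) + volume (ball (0:ℂ) R)).toNNReal, fun w => ?_⟩
  rw [ENNReal.coe_toNNReal (ENNReal.add_ne_top.2 ⟨hunit, hV⟩)]
  have hb : ∀ z : ℂ, (‖z - w‖ₑ⁻¹) ^ p ≤
      (ball (0:ℂ) 1).indicator (fun z => (‖z‖ₑ⁻¹) ^ p) (z - w) + 1 := by
    intro z
    by_cases hz : z - w ∈ ball (0:ℂ) 1
    · rw [indicator_of_mem hz]
      exact le_self_add
    · rw [indicator_of_notMem hz, zero_add]
      rw [mem_ball_zero_iff, not_lt] at hz
      refine ENNReal.rpow_le_one ?_ (by linarith)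
      rw [ENNReal.inv_le_one, ← ofReal_norm]
      exact ENNReal.one_le_ofReal.2 hz
  calc ∫⁻ z in ball (0:ℂ) R, (‖z - w‖ₑ⁻¹) ^ p
      ≤ ∫⁻ z in ball (0:ℂ) R, ((ball (0:ℂ) 1).indicator (fun z => (‖z‖ₑ⁻¹) ^ p) (z - w) + 1) :=
        lintegral_mono fun z => hb z
    _ = (∫⁻ z in ball (0:ℂ) R, (ball (0:ℂ) 1).indicator (fun z => (‖z‖ₑ⁻¹) ^ p) (z - w)) +
          volume (ball (0:ℂ) R) := by
        rw [lintegral_add_right _ measurable_const, setLIntegral_const, one_mul]
    _ ≤ (∫⁻ z : ℂ, (ball (0:ℂ) 1).indicator (fun z => (‖z‖ₑ⁻¹) ^ p) (z - w)) +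
          volume (ball (0:ℂ) R) := by
        exact add_le_add_left (setLIntegral_le_lintegral _ _) _
    _ = _ := by
        rw [lintegral_sub_right_eq_self (fun z : ℂ => (ball (0:ℂ) 1).indicator
          (fun z => (‖z‖ₑ⁻¹) ^ p) z) w, lintegral_indicator measurableSet_ball]

variable {X : Type} [NormedAddCommGroup X] [NormedSpace ℂ X]
variable {N : X →L[ℂ] X} {R : ℝ} {Ψ : C(DD R, ℂ) →ₐ[ℂ] (X →L[ℂ] X)}

/-- `K` is the Cauchy transform of the measure `h ↦ w (h(N) x)` -/
structure IsK (Ψ : C(DD R, ℂ) →ₐ[ℂ] (X →L[ℂ] X)) (w : X →L[ℂ] ℂ) (x : X) (K : ℂ → ℂ) : Prop where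
  meas : Measurable K
  int : ∀ (c : ℂ) (r M : ℝ) (g : ℂ → ℂ), Bd g c r M → Integrable (fun z => g z * K z) ∧
    ∫ z, g z * K z = w (op Ψ (ht g) x)

theorem exists_K (hΨ : Cal N R Ψ) (w : X →L[ℂ] ℂ) (x : X) : ∃ K, IsK Ψ w x K := by
  obtain ⟨μ, hμ, w', x', hrep, -⟩ := exists_rep hΨ w x
  obtain ⟨hm, -, h2⟩ := hCTG (DD R) μ (ι R) (ι_meas R) w' x'
  refine ⟨ct (ι R) w' x', hm, fun c r M g hg => ?_⟩
  obtain ⟨h3, h4⟩ := h2 c r M g hg
  refine ⟨h3, ?_⟩
  rw [← h4]
  by_cases hr : 0 < r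
  · exact (hrep _ (ht_cont hr hg)).symm
  · have hg0 : g = 0 := by
      funext z
      exact hg.supp z (by rw [ball_eq_empty.2 (not_lt.1 hr)]; exact notMem_empty z)
    have : ht g = fun _ => 0 := by
      funext l
      rw [hg0]
      simp [ht]
    rw [this]
    exact (hrep _ continuous_const).symm

theorem bd_indicator {s : Set ℂ} (hs : MeasurableSet s) {r : ℝ} (h : s ⊆ ball 0 r) :
    Bd (s.indicator fun _ => (1:ℂ)) 0 r 1 := by
  refine ⟨measurable_const.indicator hs, zero_le_one, fun z => ?_, fun z hz => ?_⟩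
  · by_cases hz : z ∈ s
    · rw [indicator_of_mem hz, norm_one]
    · rw [indicator_of_notMem hz, norm_zero]
      exact zero_le_one
  · exact indicator_of_notMem (fun hzs => hz (h hzs)) _

theorem IsK.integrableOn {w : X →L[ℂ] ℂ} {x : X} {K : ℂ → ℂ} (h : IsK Ψ w x K) {s : Set ℂ}
    (hs : MeasurableSet s) {r : ℝ} (hsr : s ⊆ ball 0 r) : IntegrableOn K s := by
  have h1 := (h.int 0 r 1 _ (bd_indicator hs hsr)).1
  rw [← integrable_indicator_iff hs]
  refine h1.congr (Eventually.of_forall fun z => ?_)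
  by_cases hz : z ∈ s
  · simp only [indicator_of_mem hz, one_mul]
  · simp only [indicator_of_notMem hz, zero_mul]

theorem IsK.setIntegral {w : X →L[ℂ] ℂ} {x : X} {K : ℂ → ℂ} (h : IsK Ψ w x K) {s : Set ℂ}
    (hs : MeasurableSet s) {r : ℝ} (hsr : s ⊆ ball 0 r) :
    ∫ z in s, K z = w (op Ψ (ht (s.indicator fun _ => 1)) x) := by
  rw [← (h.int 0 r 1 _ (bd_indicator hs hsr)).2, ← integral_indicator hs]
  refine integral_congr_ae (Eventually.of_forall fun z => ?_)
  by_cases hz : z ∈ s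
  · simp only [indicator_of_mem hz, one_mul]
  · simp only [indicator_of_notMem hz, zero_mul]

theorem IsK.locallyIntegrable {w : X →L[ℂ] ℂ} {x : X} {K : ℂ → ℂ} (h : IsK Ψ w x K) :
    LocallyIntegrable K := by
  rw [locallyIntegrable_iff]
  intro k hk
  obtain ⟨r, hr⟩ := hk.isBounded.subset_ball (0:ℂ)
  exact h.integrableOn hk.measurableSet hr

theorem IsK.unique {w : X →L[ℂ] ℂ} {x : X} {K K' : ℂ → ℂ} (h : IsK Ψ w x K) (h' : IsK Ψ w x K') :
    K =ᵐ[volume] K' := by
  have h1 : LocallyIntegrable (fun z => K z - K' z) :=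
    h.locallyIntegrable.sub h'.locallyIntegrable
  have h2 : (fun z => K z - K' z) =ᵐ[volume] 0 := by
    refine ae_eq_zero_of_forall_setIntegral_isCompact_eq_zero' h1 fun s hs => ?_
    obtain ⟨r, hr⟩ := hs.isBounded.subset_ball (0:ℂ)
    rw [integral_sub (h.integrableOn hs.measurableSet hr) (h'.integrableOn hs.measurableSet hr),
      h.setIntegral hs.measurableSet hr, h'.setIntegral hs.measurableSet hr, sub_self]
  filter_upwards [h2] with z hz
  exact sub_eq_zero.1 hz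

theorem IsK.add {w w' : X →L[ℂ] ℂ} {x : X} {K K' : ℂ → ℂ} (h : IsK Ψ w x K)
    (h' : IsK Ψ w' x K') : IsK Ψ (w + w') x (fun z => K z + K' z) := by
  refine ⟨h.meas.add h'.meas, fun c r M g hg => ?_⟩
  obtain ⟨h1, h2⟩ := h.int c r M g hg
  obtain ⟨h3, h4⟩ := h'.int c r M g hg
  simp only [mul_add]
  exact ⟨h1.add h3, by rw [integral_add h1 h3, h2, h4]; rfl⟩

theorem IsK.smul {w : X →L[ℂ] ℂ} {x : X} {K : ℂ → ℂ} (h : IsK Ψ w x K) (c : ℂ) :
    IsK Ψ (c • w) x (fun z => c * K z) := by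
  refine ⟨h.meas.const_mul c, fun b r M g hg => ?_⟩
  obtain ⟨h1, h2⟩ := h.int b r M g hg
  have e : (fun z => g z * (c * K z)) = fun z => c * (g z * K z) := by
    funext z
    ring
  rw [e]
  exact ⟨h1.const_mul c, by rw [integral_const_mul, h2]; rfl⟩

theorem IsK.zero (x : X) : IsK Ψ (0 : X →L[ℂ] ℂ) x (fun _ => 0) := by
  refine ⟨measurable_const, fun c r M g hg => ?_⟩
  simp

theorem IsK.sum {κ : Type} (F : Finset κ) {w : κ → (X →L[ℂ] ℂ)} {x : X} {K : κ → ℂ → ℂ}
    (h : ∀ k ∈ F, IsK Ψ (w k) x (K k)) : IsK Ψ (∑ k ∈ F, w k) x (fun z => ∑ k ∈ F, K k z) := by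
  classical
  induction F using Finset.induction_on with
  | empty => simpa using IsK.zero x
  | insert a s ha ih =>
    simp only [Finset.sum_insert ha]
    exact (h a (Finset.mem_insert_self a s)).add
      (ih fun k hk => h k (Finset.mem_insert_of_mem hk))

/-- `K (w ∘ N) = z K w - w x` -/
theorem IsK.shift (hΨ : Cal N R Ψ) {w : X →L[ℂ] ℂ} {x : X} {K : ℂ → ℂ} (h : IsK Ψ w x K) :
    IsK Ψ (w.comp N) x (fun z => z * K z - w x) := by
  refine ⟨(measurable_id.mul h.meas).sub_const _, fun c r M g hg => ?_⟩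
  by_cases hr : 0 < r
  swap
  · have hg0 : g = 0 := by
      funext z
      exact hg.supp z (by rw [ball_eq_empty.2 (not_lt.1 hr)]; exact notMem_empty z)
    have : ht g = fun _ => 0 := by
      funext l
      rw [hg0]
      simp [ht]
    rw [this, hg0, op_zero]
    simp
  obtain ⟨K₀, -, hK⟩ := hHT r hr
  obtain ⟨hgi, -, -, -, hs⟩ := hK c M g hg
  have hzg : Bd (fun z => (z - 0) * g z) c r ((‖c‖ + r) * M) := by
    refine ⟨(measurable_id.sub_const 0).mul hg.meas, by have := hg.nonneg; positivity, fun z => ?_,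
      fun z hz => ?_⟩
    · by_cases hz : z ∈ ball c r
      · rw [norm_mul, sub_zero]
        refine mul_le_mul ?_ (hg.bd z) (norm_nonneg _) (by positivity)
        rw [mem_ball, dist_eq_norm] at hz
        calc ‖z‖ = ‖(z - c) + c‖ := by rw [sub_add_cancel]
          _ ≤ ‖z - c‖ + ‖c‖ := norm_add_le _ _
          _ ≤ ‖c‖ + r := by linarith
      · rw [hg.supp z hz, mul_zero, norm_zero]
        have := hg.nonneg
        positivity
    · simp only [hg.supp z hz, mul_zero]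
  obtain ⟨h1, h2⟩ := h.int c r _ _ hzg
  have e : (fun z => g z * (z * K z - w x)) = fun z => ((z - 0) * g z) * K z - w x * g z := by
    funext z
    ring
  rw [e]
  refine ⟨h1.sub (hgi.const_mul _), ?_⟩
  rw [integral_sub h1 (hgi.const_mul _), h2, integral_const_mul]
  have hgc := ht_cont hr hg
  have e2 : ht (fun z => (z - 0) * g z) = fun l => l * ht g l + ∫ z, g z := by
    funext l
    rw [hs 0 l, sub_zero]
  rw [e2, op_add (h := fun l => l * ht g l) (continuous_id.mul hgc) continuous_const, op_const,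
    add_apply, map_add, op_mul_apply (h := fun l => l) continuous_id' hgc, op_id hΨ]
  simp only [ContinuousLinearMap.comp_apply, FunLike.coe_smul, Pi.smul_apply,
    one_apply_eq_self, map_smul, smul_eq_mul]
  ring

/-- `J ≤ A J ^ (1 / q)` implies `J ≤ A ^ p` -/
theorem absorb {p q : ℝ} (hpq : p.HolderConjugate q) {J A : ℝ≥0∞} (hJ : J ≠ ⊤)
    (h : J ≤ A * J ^ (1 / q)) : J ≤ A ^ p := by
  have hp := hpq.pos
  have hq := hpq.symm.pos
  by_cases h0 : J = 0
  · rw [h0]
    exact zero_le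
  have h1 : J = J ^ (1 / p) * J ^ (1 / q) := by
    rw [← ENNReal.rpow_add _ _ h0 hJ]
    have : 1 / p + 1 / q = 1 := by
      have := hpq.inv_add_inv_eq_one
      rw [one_div, one_div]
      exact this
    rw [this, ENNReal.rpow_one]
  have h2 : J ^ (1 / p) ≤ A := by
    have h3 : J ^ (1 / p) * J ^ (1 / q) ≤ A * J ^ (1 / q) := by
      rw [← h1]
      exact h
    refine (ENNReal.mul_le_mul_iff_left ?_ ?_).1 h3
    · exact (ENNReal.rpow_pos (pos_iff_ne_zero.2 h0) hJ).ne'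
    · exact ENNReal.rpow_ne_top_of_nonneg (by positivity) hJ
  calc J = (J ^ (1 / p)) ^ p := by
        rw [← ENNReal.rpow_mul, one_div_mul_cancel hp.ne', ENNReal.rpow_one]
    _ ≤ A ^ p := ENNReal.rpow_le_rpow h2 hp.le

/-- the `L^p` bound -/
theorem K_lp (hΨ : Cal N R Ψ) {p : ℝ} (h1 : 1 < p) (h2 : p < 2) {ρ : ℝ} (hρ : 0 < ρ) :
    ∃ C : ℝ≥0, ∀ (w : X →L[ℂ] ℂ) (x : X) (K : ℂ → ℂ), IsK Ψ w x K →
      ∫⁻ z in ball (0:ℂ) ρ, ‖K z‖ₑ ^ p ≤ (C * ‖w‖ₑ * ‖x‖ₑ) ^ p := by
  obtain ⟨κ, hκ⟩ := area_p h1 h2 ρ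
  obtain ⟨C₀, hC₀, hop⟩ := op_bound hΨ
  set q : ℝ := p / (p - 1) with hq
  have hpq : p.HolderConjugate q := Real.HolderConjugate.conjExponent h1
  have hq0 : 0 < q := hpq.symm.pos
  refine ⟨(C₀.toNNReal) * κ ^ (1 / p), fun w x K hK => ?_⟩
  set S : ℕ → Set ℂ := fun n => {z | z ∈ ball (0:ℂ) ρ ∧ ‖K z‖ ≤ n} with hS
  have hSm : ∀ n, MeasurableSet (S n) := fun n =>
    measurableSet_ball.inter (measurableSet_le hK.meas.norm measurable_const)
  have hSU : ⋃ n, S n = ball (0:ℂ) ρ := by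
    ext z
    simp only [hS, mem_iUnion]
    constructor
    · rintro ⟨n, h, -⟩
      exact h
    · intro h
      obtain ⟨n, hn⟩ := exists_nat_ge ‖K z‖
      exact ⟨n, h, hn⟩
  have hSmono : Monotone S := by
    intro n m hnm z hz
    exact ⟨hz.1, hz.2.trans (by exact_mod_cast hnm)⟩
  rw [← hSU, setLIntegral_iUnion_of_directed _ hSmono.directed_le]
  refine iSup_le fun n => ?_
  -- the test function
  set g : ℂ → ℂ := (S n).indicator fun z => conj (K z) * ((‖K z‖ ^ (p - 2) : ℝ) : ℂ) with hg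
  have hgn : ∀ z ∈ S n, ‖g z‖ = ‖K z‖ ^ (p - 1) := by
    intro z hz
    rw [hg, indicator_of_mem hz, norm_mul, RCLike.norm_conj, Complex.norm_real,
      Real.norm_of_nonneg (by positivity)]
    rcases eq_or_lt_of_le (norm_nonneg (K z)) with h | h
    · rw [← h, zero_mul, Real.zero_rpow (by linarith)]
    · conv_lhs => rw [← Real.rpow_one ‖K z‖]
      rw [Real.rpow_one, mul_comm]
      conv_lhs =>
        arg 2
        rw [← Real.rpow_one ‖K z‖]
      rw [← Real.rpow_add h]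
      congr 1
      ring
  have hg0 : ∀ z, z ∉ S n → g z = 0 := fun z hz => indicator_of_notMem hz _
  have hgB : Bd g 0 ρ ((n:ℝ) ^ (p - 1)) := by
    refine ⟨?_, by positivity, fun z => ?_, fun z hz => hg0 z fun h => hz h.1⟩
    · refine Measurable.indicator ?_ (hSm n)
      have h3 : Measurable fun z => ((‖K z‖ ^ (p - 2) : ℝ) : ℂ) :=
        Complex.measurable_ofReal.comp (hK.meas.norm.pow_const _)
      exact (Complex.continuous_conj.measurable.comp hK.meas).mul h3
    · by_cases hz : z ∈ S n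
      · rw [hgn z hz]
        exact Real.rpow_le_rpow (norm_nonneg _) hz.2 (by linarith)
      · rw [hg0 z hz, norm_zero]
        positivity
  obtain ⟨h3, h4⟩ := hK.int 0 ρ _ g hgB
  -- the left side
  set J : ℝ≥0∞ := ∫⁻ z in S n, ‖K z‖ₑ ^ p with hJ
  have hJt : J ≠ ⊤ := by
    refine ne_top_of_le_ne_top (b := ∫⁻ _ in ball (0:ℂ) ρ, ENNReal.ofReal ((n:ℝ) ^ p)) ?_ ?_
    · rw [setLIntegral_const]
      exact ENNReal.mul_ne_top ENNReal.ofReal_ne_top measure_ball_lt_top.ne
    · refine (setLIntegral_mono' (hSm n) fun z hz => ?_).trans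
        (lintegral_mono_set fun z hz => hz.1)
      rw [← ofReal_norm, ENNReal.ofReal_rpow_of_nonneg (norm_nonneg _) (by linarith)]
      exact ENNReal.ofReal_le_ofReal (Real.rpow_le_rpow (norm_nonneg _) hz.2 (by linarith))
  have hgK : ∀ z, ‖g z * K z‖ₑ = (S n).indicator (fun z => ‖K z‖ₑ ^ p) z := by
    intro z
    by_cases hz : z ∈ S n
    · rw [indicator_of_mem hz, ← ofReal_norm, ← ofReal_norm, norm_mul, hgn z hz,
        ENNReal.ofReal_rpow_of_nonneg (norm_nonneg _) (by linarith)]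
      congr 1
      rcases eq_or_lt_of_le (norm_nonneg (K z)) with h | h
      · rw [← h, mul_zero, Real.zero_rpow (by linarith)]
      · conv_lhs =>
          arg 2
          rw [← Real.rpow_one ‖K z‖]
        rw [← Real.rpow_add h]
        congr 1
        ring
    · rw [hg0 z hz, zero_mul, indicator_of_notMem hz, enorm_zero]
  have hreal : ∀ z, g z * K z = ((‖g z * K z‖ : ℝ) : ℂ) := by
    intro z
    by_cases hz : z ∈ S n
    · rw [hg, indicator_of_mem hz]
      have e : conj (K z) * ((‖K z‖ ^ (p - 2) : ℝ) : ℂ) * K z =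
          ((‖K z‖ ^ 2 * ‖K z‖ ^ (p - 2) : ℝ) : ℂ) := by
        rw [mul_right_comm, mul_comm (conj (K z)), Complex.mul_conj, Complex.normSq_eq_norm_sq]
        push_cast
        ring
      rw [e, Complex.norm_real, Real.norm_of_nonneg (by positivity)]
    · rw [hg0 z hz, zero_mul, norm_zero, Complex.ofReal_zero]
  have hJe : J = ‖∫ z, g z * K z‖ₑ := by
    have e1 : ∫ z, g z * K z = ((∫ z, ‖g z * K z‖ : ℝ) : ℂ) := by
      rw [← integral_complex_ofReal]
      exact integral_congr_ae (Eventually.of_forall hreal)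
    rw [e1, ← ofReal_norm, Complex.norm_real, Real.norm_of_nonneg
      (integral_nonneg fun z => norm_nonneg _), ofReal_integral_norm_eq_lintegral_enorm h3, hJ,
      ← lintegral_indicator (hSm n)]
    exact lintegral_congr fun z => (hgK z).symm
  -- the right side
  have hgq : (∫⁻ z, ‖g z‖ₑ ^ q) = J := by
    rw [hJ, ← lintegral_indicator (hSm n)]
    refine lintegral_congr fun z => ?_
    by_cases hz : z ∈ S n
    · rw [indicator_of_mem hz, ← ofReal_norm, ← ofReal_norm, hgn z hz,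
        ENNReal.ofReal_rpow_of_nonneg (by positivity) hq0.le,
        ENNReal.ofReal_rpow_of_nonneg (norm_nonneg _) (by linarith), ← Real.rpow_mul (norm_nonneg _)]
      congr 2
      rw [hq]
      have : p - 1 ≠ 0 := by linarith
      field_simp
    · rw [hg0 z hz, indicator_of_notMem hz, enorm_zero, ENNReal.zero_rpow_of_pos hq0]
  have hht : ∀ l : ℂ, ‖ht g l‖ₑ ≤ κ ^ (1 / p) * J ^ (1 / q) := by
    intro l
    calc ‖ht g l‖ₑ ≤ ∫⁻ z, ‖g z * (z - l)⁻¹‖ₑ := enorm_integral_le_lintegral_enorm _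
      _ ≤ ∫⁻ z, (‖g z‖ₑ * (ball (0:ℂ) ρ).indicator (fun z => ‖z - l‖ₑ⁻¹) z) := by
          refine lintegral_mono fun z => ?_
          by_cases hz : z ∈ ball (0:ℂ) ρ
          · rw [indicator_of_mem hz, enorm_mul]
            gcongr
            by_cases h0 : z - l = 0
            · rw [h0]
              simp
            · rw [enorm_inv h0]
          · rw [hgB.supp z hz, zero_mul, enorm_zero]
            exact zero_le
      _ ≤ (∫⁻ z, ‖g z‖ₑ ^ q) ^ (1 / q) *
          (∫⁻ z, ((ball (0:ℂ) ρ).indicator (fun z => ‖z - l‖ₑ⁻¹) z) ^ p) ^ (1 / p) := by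
          refine ENNReal.lintegral_mul_le_Lp_mul_Lq _ hpq.symm hgB.meas.enorm.aemeasurable ?_
          exact (Measurable.indicator (by fun_prop) measurableSet_ball).aemeasurable
      _ ≤ J ^ (1 / q) * (κ : ℝ≥0∞) ^ (1 / p) := by
          rw [hgq]
          gcongr
          have e : (fun z => ((ball (0:ℂ) ρ).indicator (fun z => ‖z - l‖ₑ⁻¹) z) ^ p) =
              (ball (0:ℂ) ρ).indicator (fun z => (‖z - l‖ₑ⁻¹) ^ p) := by
            funext z
            by_cases hz : z ∈ ball (0:ℂ) ρ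
            · rw [indicator_of_mem hz, indicator_of_mem hz]
            · rw [indicator_of_notMem hz, indicator_of_notMem hz,
                ENNReal.zero_rpow_of_pos (by linarith)]
          rw [e, lintegral_indicator measurableSet_ball]
          exact hκ l
      _ = _ := mul_comm _ _
  have hBt : (κ : ℝ≥0∞) ^ (1 / p) * J ^ (1 / q) ≠ ⊤ :=
    ENNReal.mul_ne_top (ENNReal.rpow_ne_top_of_nonneg (by positivity) ENNReal.coe_ne_top)
      (ENNReal.rpow_ne_top_of_nonneg (by positivity) hJt)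
  have hopb : ‖op Ψ (ht g)‖ₑ ≤ C₀.toNNReal * (κ ^ (1 / p) * J ^ (1 / q)) := by
    have h5 := hop (ht g) ((κ : ℝ≥0∞) ^ (1 / p) * J ^ (1 / q)).toReal (ht_cont hρ hgB)
      ENNReal.toReal_nonneg (fun l _ => by
        rw [← toReal_enorm]
        exact ENNReal.toReal_mono hBt (hht l))
    rw [← ofReal_norm]
    refine (ENNReal.ofReal_le_ofReal h5).trans (le_of_eq ?_)
    rw [ENNReal.ofReal_mul hC₀, ENNReal.ofReal_toReal hBt]
    rfl
  refine absorb hpq hJt ?_
  rw [h4] at hJe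
  calc J = ‖w (op Ψ (ht g) x)‖ₑ := hJe
    _ ≤ ‖w‖ₑ * (‖op Ψ (ht g)‖ₑ * ‖x‖ₑ) :=
        (w.le_opNorm_enorm _).trans (by gcongr; exact (op Ψ (ht g)).le_opNorm_enorm x)
    _ ≤ ‖w‖ₑ * ((C₀.toNNReal * (κ ^ (1 / p) * J ^ (1 / q))) * ‖x‖ₑ) := by gcongr
    _ = _ := by
        push_cast
        rw [ENNReal.coe_rpow_of_nonneg _ (by positivity)]
        ring

end Pool.Agent.Q98.NR
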