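import Pool.Agent.Q98.NR.Yz

/-!
# Nuclear perturbations on reflexive spaces: the operator is bounded below if there are no chains
-/

set_option autoImplicit false

namespace Pool.Agent.Q98.NR

open MeasureTheory Set Metric Filter Topology Matrix
open scoped ENNReal NNReal ComplexConjugate ContDiff
open Pool.Agent.Y283.NK (lm)
open Pool.Agent.Q98.RB

variable {X : Type} [NormedAddCommGroup X] [NormedSpace ℂ X]
variable {N : X →L[ℂ] X} {R : ℝ} {Ψ : C(DD R, ℂ) →ₐ[ℂ] (X →L[ℂ] X)}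

theorem res_cont (a : ℂ) (y : StrongDual ℂ X) (Y : ℕ → StrongDual ℂ X) (k : ℕ) :
    Continuous fun T : X →L[ℂ] X => res T a y Y k := by
  cases k with
  | zero =>
    unfold res
    have : Continuous fun T : X →L[ℂ] X => (Y 0).comp T := continuous_const.clm_comp continuous_id
    fun_prop
  | succ k =>
    unfold res
    have : Continuous fun T : X →L[ℂ] X => (Y (k + 1)).comp T :=
      continuous_const.clm_comp continuous_id
    fun_prop

/-- pointwise bounds by functionals give a lower bound -/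
theorem ubp (T : X →L[ℂ] X) (h : ∀ y : StrongDual ℂ X, ∃ Λ : ℝ, 0 < Λ ∧ ∀ x, ‖y x‖ ≤ Λ * ‖T x‖) :
    ∃ c : ℝ, 0 < c ∧ ∀ x, ‖x‖ ≤ c * ‖T x‖ := by
  have h1 : ∀ y : StrongDual ℂ X, ∃ C, ∀ i : {x : X // ‖T x‖ ≤ 1},
      ‖NormedSpace.inclusionInDoubleDual ℂ X i.1 y‖ ≤ C := by
    intro y
    obtain ⟨Λ, hΛ, hy⟩ := h y
    refine ⟨Λ, fun i => ?_⟩
    calc _ = ‖y i.1‖ := by rw [NormedSpace.dual_def]
      _ ≤ Λ * ‖T i.1‖ := hy _
      _ ≤ Λ * 1 := mul_le_mul_of_nonneg_left i.2 hΛ.le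
      _ = Λ := mul_one _
  obtain ⟨C, hC⟩ := banach_steinhaus h1
  have h2 : ∀ x : X, ‖T x‖ ≤ 1 → ‖x‖ ≤ max C 1 := by
    intro x hx
    have h3 := hC ⟨x, hx⟩
    have h4 : ‖NormedSpace.inclusionInDoubleDual ℂ X x‖ = ‖x‖ :=
      (NormedSpace.inclusionInDoubleDualLi ℂ (E := X)).norm_map x
    rw [← h4]
    exact h3.trans (le_max_left _ _)
  have hC0 : 0 < max C 1 := lt_max_of_lt_right one_pos
  refine ⟨max C 1, hC0, fun x => ?_⟩
  by_cases hx : ‖T x‖ = 0
  · have h3 : ∀ k : ℕ, (k : ℝ) * ‖x‖ ≤ max C 1 := by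
      intro k
      have h4 := h2 ((k : ℂ) • x) (by
        rw [map_smul, norm_smul, hx, mul_zero]
        exact zero_le_one)
      rwa [norm_smul, Complex.norm_natCast] at h4
    rw [hx, mul_zero]
    by_contra hcon
    push Not at hcon
    obtain ⟨k, hk⟩ := exists_nat_gt (max C 1 / ‖x‖)
    rw [div_lt_iff₀ hcon] at hk
    exact absurd (h3 k) (not_le.2 hk)
  · have hx0 : 0 < ‖T x‖ := lt_of_le_of_ne (norm_nonneg _) (Ne.symm hx)
    have h4 := h2 ((‖T x‖⁻¹ : ℂ) • x) (by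
      rw [map_smul, norm_smul, norm_inv, Complex.norm_real, norm_norm, inv_mul_cancel₀ hx])
    rw [norm_smul, norm_inv, Complex.norm_real, norm_norm, inv_mul_le_iff₀ hx0] at h4
    linarith

theorem below (hX : Refl X) (hΨ : Cal N R Ψ) {p : ℝ} (h1 : 1 < p) (h2 : p < 2) {ρ : ℝ} {C : ℝ≥0}
    (hC : CB Ψ p ρ C) {u : ℕ → X} {v : ℕ → (X →L[ℂ] ℂ)} {S : ℝ≥0} (hW : Wt p u v S) {t : ℂ}
    {B : ℝ≥0} {a : ℂ} {r : ℝ} (hr : 0 < r) (hD : closedBall a r ⊆ ball 0 ρ)
    {K : X →L[ℂ] X} (hK : Tendsto (Ks u v) atTop (𝓝 K))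
    (hG : ∃ᶠ n in atTop, Gd hΨ u v t ρ B n) (hno : ¬ HasCh (N + t • K) a r) :
    ∃ c : ℝ, 0 < c ∧ ∀ x, ‖x‖ ≤ c * ‖(N + t • K) x - a • x‖ := by
  have h3 := ubp ((N + t • K) - a • (1 : X →L[ℂ] X)) (fun y => by
    obtain ⟨Λ, hΛ, h0⟩ := y0 hΨ h1 h2 hC hW t B hr hD y
    refine ⟨Λ, hΛ, fun x => ?_⟩
    show ‖y x‖ ≤ Λ * ‖(N + t • K) x - a • x‖
    refine le_of_forall_pos_le_add fun ε hε => ?_
    obtain ⟨δ, hδ⟩ : ∃ δ : ℝ, δ = min 1 (ε / (‖x‖ + 1)) := ⟨_, rfl⟩
    have hδ0 : 0 < δ := by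
      rw [hδ]
      positivity
    obtain ⟨m, Y, hY, hE⟩ := dual_alt hX (N + t • K) a hr hno y hδ0
    have hlim : Tendsto (fun n => ∑ k ∈ Finset.range (m + 1),
        r ^ k * ‖res (N + t • Ks u v n) a y Y k‖) atTop
        (𝓝 (∑ k ∈ Finset.range (m + 1), r ^ k * ‖res (N + t • K) a y Y k‖)) := by
      refine tendsto_finsetSum _ fun k _ => Tendsto.const_mul _ (Tendsto.norm ?_)
      exact ((res_cont a y Y k).tendsto (N + t • K)).comp
        (tendsto_const_nhds.add (hK.const_smul t))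
    have hev : ∀ᶠ n in atTop, ∑ k ∈ Finset.range (m + 1),
        r ^ k * ‖res (N + t • Ks u v n) a y Y k‖ ≤ 1 :=
      (hlim.eventually_lt_const (hE.trans_le (by rw [hδ]; exact min_le_left _ _))).mono
        fun n hn => hn.le
    obtain ⟨n, hn1, hn2⟩ := (hG.and_eventually hev).exists
    have hb := h0 n hn1 m Y hY hn2 (a • x - (N + t • K) x)
    have h4 : ‖res (N + t • K) a y Y 0‖ ≤ δ := by
      have h5 : r ^ 0 * ‖res (N + t • K) a y Y 0‖ ≤
          ∑ k ∈ Finset.range (m + 1), r ^ k * ‖res (N + t • K) a y Y k‖ :=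
        Finset.single_le_sum (f := fun k => r ^ k * ‖res (N + t • K) a y Y k‖)
          (fun k _ => by positivity) (Finset.mem_range.2 (Nat.succ_pos m))
      rw [pow_zero, one_mul] at h5
      exact h5.trans hE.le
    have e : y x = Y 0 (a • x - (N + t • K) x) - res (N + t • K) a y Y 0 x := by
      show y x = Y 0 (a • x - (N + t • K) x) - (a • Y 0 x - Y 0 ((N + t • K) x) - y x)
      rw [map_sub, map_smul]
      ring
    have h6 : δ * ‖x‖ ≤ ε := by
      have h7 : δ ≤ ε / (‖x‖ + 1) := by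
        rw [hδ]
        exact min_le_right _ _
      calc δ * ‖x‖ ≤ δ * (‖x‖ + 1) := by
            refine mul_le_mul_of_nonneg_left ?_ hδ0.le
            linarith
        _ ≤ ε / (‖x‖ + 1) * (‖x‖ + 1) := mul_le_mul_of_nonneg_right h7 (by positivity)
        _ = ε := by
            have := norm_nonneg x
            field_simp
    calc ‖y x‖ ≤ ‖Y 0 (a • x - (N + t • K) x)‖ + ‖res (N + t • K) a y Y 0 x‖ := by
          rw [e]
          exact norm_sub_le _ _
      _ ≤ Λ * ‖a • x - (N + t • K) x‖ + δ * ‖x‖ :=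
          add_le_add hb ((ContinuousLinearMap.le_opNorm _ _).trans
            (mul_le_mul_of_nonneg_right h4 (norm_nonneg _)))
      _ ≤ _ := by
          rw [norm_sub_rev]
          linarith)
  exact h3

end Pool.Agent.Q98.NR
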