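import Pool.Agent.Q98.RB.Lim

/-!
# Nuclear perturbations on reflexive spaces: duality

If an operator `T` on a reflexive space has no nonzero vector `x` with `‖(T - a)^k x‖ ≤ C r^k`, then for
every functional `y` there are polynomials `h` with values in the dual space for which `(z - T') h(z)` is
as close as one likes to the constant `y`, in the norm of absolutely convergent power series of radius `r`
about `a` (theorem of Hahn and Banach).
-/

set_option autoImplicit false

namespace Pool.Agent.Q98.NR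

open Set Metric Filter Topology
open scoped ENNReal NNReal
open Pool.Agent.Q98.RB

variable {X : Type} [NormedAddCommGroup X] [NormedSpace ℂ X]

/-- the coefficients of `(z - T') h(z) - y`, `h(z) = ∑ (z - a)^k Y k` -/
noncomputable def res (T : X →L[ℂ] X) (a : ℂ) (y : StrongDual ℂ X) (Y : ℕ → StrongDual ℂ X) :
    ℕ → StrongDual ℂ X
  | 0 => a • Y 0 - (Y 0).comp T - y
  | (k + 1) => Y k + (a • Y (k + 1) - (Y (k + 1)).comp T)

/-- sequences in the dual space -/
abbrev Sq (X : Type) [NormedAddCommGroup X] [NormedSpace ℂ X] : Type :=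
  lp (fun _ : ℕ => StrongDual ℂ X) 1

/-- the sequence `r^k w` at `k` -/
noncomputable def del (r : ℝ) (k : ℕ) : StrongDual ℂ X →ₗ[ℂ] Sq X :=
  ((r : ℂ) ^ k) • (lp.lsingle (𝕜 := ℂ) (E := fun _ : ℕ => StrongDual ℂ X) 1 k)

theorem del_apply (r : ℝ) (k : ℕ) (w : StrongDual ℂ X) :
    del r k w = lp.single 1 k (((r : ℂ) ^ k) • w) := by
  unfold del
  rw [LinearMap.smul_apply, lp.lsingle_apply, lp.single_smul]

theorem del_norm {r : ℝ} (hr : 0 ≤ r) (k : ℕ) (w : StrongDual ℂ X) :
    ‖(del r k w : Sq X)‖ = r ^ k * ‖w‖ := by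
  rw [del_apply, lp.norm_single (by norm_num), norm_smul, norm_pow, Complex.norm_real,
    Real.norm_of_nonneg hr]

theorem del_sum_norm {r : ℝ} (hr : 0 ≤ r) (s : Finset ℕ) (E : ℕ → StrongDual ℂ X) :
    ‖∑ k ∈ s, (del r k (E k) : Sq X)‖ = ∑ k ∈ s, r ^ k * ‖E k‖ := by
  have h1 := lp.norm_sum_single (p := 1) (E := fun _ : ℕ => StrongDual ℂ X) (by simp)
    (fun k => ((r : ℂ) ^ k) • E k) s
  simp only [ENNReal.toReal_one, Real.rpow_one] at h1
  have h2 : ∑ k ∈ s, (del r k (E k) : Sq X) =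
      ∑ k ∈ s, lp.single 1 k (((r : ℂ) ^ k) • E k) :=
    Finset.sum_congr rfl fun k _ => del_apply r k (E k)
  rw [h2, h1]
  refine Finset.sum_congr rfl fun k _ => ?_
  rw [norm_smul, norm_pow, Complex.norm_real, Real.norm_of_nonneg hr]

/-- the coefficients of `(z - T') ((z - a)^k w)` -/
noncomputable def stp (T : X →L[ℂ] X) (a : ℂ) (r : ℝ) (k : ℕ) : StrongDual ℂ X →ₗ[ℂ] Sq X where
  toFun w := del r (k + 1) w + del r k (a • w - w.comp T)
  map_add' w w' := by
    have : a • (w + w') - (w + w').comp T = (a • w - w.comp T) + (a • w' - w'.comp T) := by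
      rw [smul_add, ContinuousLinearMap.add_comp]
      abel
    rw [this, map_add, map_add]
    abel
  map_smul' c w := by
    have : a • (c • w) - (c • w).comp T = c • (a • w - w.comp T) := by
      rw [smul_sub, smul_comm, ContinuousLinearMap.smul_comp]
    rw [this, map_smul, map_smul, RingHom.id_apply, smul_add]

theorem stp_apply (T : X →L[ℂ] X) (a : ℂ) (r : ℝ) (k : ℕ) (w : StrongDual ℂ X) :
    stp T a r k w = del r (k + 1) w + del r k (a • w - w.comp T) := rfl

/-- all the coefficients -/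
noncomputable def tot (T : X →L[ℂ] X) (a : ℂ) (r : ℝ) : (ℕ →₀ StrongDual ℂ X) →ₗ[ℂ] Sq X :=
  Finsupp.lsum ℂ (stp T a r)

theorem tot_apply (T : X →L[ℂ] X) (a : ℂ) (r : ℝ) (y : StrongDual ℂ X) (f : ℕ →₀ StrongDual ℂ X)
    (m : ℕ) (hm : ∀ k, m ≤ k → f k = 0) :
    tot T a r f - del r 0 y = ∑ k ∈ Finset.range (m + 1), del r k (res T a y f k) := by
  have h1 : tot T a r f = ∑ k ∈ Finset.range (m + 1), stp T a r k (f k) := by
    unfold tot
    rw [Finsupp.lsum_apply]
    refine Finsupp.sum_of_support_subset f (fun k hk => ?_) _ (fun k _ => map_zero _)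
    rw [Finset.mem_range]
    by_contra hcon
    exact Finsupp.mem_support_iff.1 hk (hm k (by omega))
  have h2 : ∑ k ∈ Finset.range (m + 1), stp T a r k (f k) =
      (∑ k ∈ Finset.range (m + 1), del r (k + 1) (f k)) +
        ∑ k ∈ Finset.range (m + 1), del r k (a • f k - (f k).comp T) := by
    rw [← Finset.sum_add_distrib]
    exact Finset.sum_congr rfl fun k _ => stp_apply T a r k (f k)
  rw [h1, h2, Finset.sum_range_succ (fun k => del r (k + 1) (f k)), hm m le_rfl, map_zero,
    add_zero, Finset.sum_range_succ' (fun k => del r k (a • f k - (f k).comp T)),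
    Finset.sum_range_succ' (fun k => del r k (res T a y f k))]
  have h3 : ∀ k ∈ Finset.range m, del r (k + 1) (res T a y f (k + 1)) =
      del r (k + 1) (f k) + del r (k + 1) (a • f (k + 1) - (f (k + 1)).comp T) := by
    intro k _
    rw [← map_add]
    rfl
  rw [Finset.sum_congr rfl h3, Finset.sum_add_distrib]
  have h4 : del r 0 (res T a y f 0) = del r 0 (a • f 0 - (f 0).comp T) - del r 0 y := by
    rw [← map_sub]
    rfl
  rw [h4]
  abel

/-- the alternative -/
theorem dual_alt (hX : Refl X) (T : X →L[ℂ] X) (a : ℂ) {r : ℝ} (hr : 0 < r) (hno : ¬ HasCh T a r)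
    (y : StrongDual ℂ X) {ε : ℝ} (hε : 0 < ε) : ∃ (m : ℕ) (Y : ℕ → StrongDual ℂ X),
    (∀ k, m ≤ k → Y k = 0) ∧
    ∑ k ∈ Finset.range (m + 1), r ^ k * ‖res T a y Y k‖ < ε := by
  set S : Submodule ℂ (Sq X) := (LinearMap.range (tot T a r)).topologicalClosure with hS
  by_cases hy : del r 0 y ∈ S
  · have h1 : del r 0 y ∈ closure (LinearMap.range (tot T a r) : Set (Sq X)) := hy
    obtain ⟨_, ⟨f, rfl⟩, hf⟩ := Metric.mem_closure_iff.1 h1 ε hε
    obtain ⟨m, hm⟩ : ∃ m : ℕ, ∀ k, m ≤ k → f k = 0 := by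
      obtain ⟨m, hm⟩ := f.support.exists_nat_subset_range
      refine ⟨m, fun k hk => ?_⟩
      by_contra h0
      have := Finset.mem_range.1 (hm (Finsupp.mem_support_iff.2 h0))
      omega
    refine ⟨m, f, hm, ?_⟩
    rw [← del_sum_norm hr.le, ← tot_apply T a r y f m hm, ← dist_eq_norm, dist_comm]
    exact hf
  · exfalso
    apply hno
    have hScl : IsClosed (S : Set (Sq X)) := Submodule.isClosed_topologicalClosure _
    have hne : (Submodule.Quotient.mk (del r 0 y) : Sq X ⧸ S) ≠ 0 := by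
      intro h0
      apply hy
      rwa [Submodule.Quotient.mk_eq_zero] at h0
    obtain ⟨φ₀, hφ₀⟩ := SeparatingDual.exists_ne_zero (R := ℂ) hne
    obtain ⟨φ, hφ⟩ : ∃ φ : StrongDual ℂ (Sq X), ∀ e, φ e = φ₀ (Submodule.Quotient.mk e) :=
      ⟨φ₀.comp S.mkQL, fun e => rfl⟩
    have hφS : ∀ e ∈ S, φ e = 0 := by
      intro e he
      rw [hφ, (Submodule.Quotient.mk_eq_zero S).2 he, map_zero]
    have hφy : φ (del r 0 y) ≠ 0 := by
      rw [hφ]
      exact hφ₀
    -- the vectors
    have hF : ∀ k : ℕ, ∃ F : StrongDual ℂ (StrongDual ℂ X), (∀ w, F w = φ (del r k w)) ∧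
        ‖F‖ ≤ ‖φ‖ * r ^ k := by
      intro k
      refine ⟨LinearMap.mkContinuous (φ.toLinearMap.comp (del r k)) (‖φ‖ * r ^ k) fun w => ?_,
        fun w => rfl, LinearMap.mkContinuous_norm_le _ (by positivity) _⟩
      calc ‖φ (del r k w)‖ ≤ ‖φ‖ * ‖(del r k w : Sq X)‖ := φ.le_opNorm _
        _ = _ := by rw [del_norm hr.le]; ring
    choose F hF1 hF2 using hF
    choose x hx using fun k => hX (F k)
    have hw : ∀ k (w : StrongDual ℂ X), w (x k) = φ (del r k w) := by
      intro k w
      rw [← hF1, ← hx]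
      rfl
    refine ⟨x, ⟨fun k => ?_, ‖φ‖, fun k => ?_⟩, ?_⟩
    · refine sub_eq_zero.1 (SeparatingDual.eq_zero_of_forall_dual_eq_zero (R := ℂ) fun w => ?_)
      have h1 : stp T a r k w ∈ S := by
        refine Submodule.le_topologicalClosure _ ?_
        refine ⟨Finsupp.single k w, ?_⟩
        unfold tot
        rw [Finsupp.lsum_single]
      have h2 := hφS _ h1
      rw [stp_apply, map_add, ← hw, ← hw] at h2
      have h3 : (a • w - w.comp T) (x k) = a * w (x k) - w (T (x k)) := rfl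
      rw [h3] at h2
      rw [map_sub, map_sub, map_smul, smul_eq_mul]
      linear_combination -h2
    · have h1 : ‖x k‖ = ‖F k‖ := by
        rw [← hx k]
        exact (NormedSpace.inclusionInDoubleDualLi ℂ |>.norm_map (x k)).symm
      rw [h1]
      exact hF2 k
    · intro h0
      apply hφy
      rw [← hw, h0, map_zero]

end Pool.Agent.Q98.NR
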