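import Pool.Agent.Q98.NR.Est2

/-!
# Nuclear perturbations on reflexive spaces: the polynomials of the duality are bounded
-/

set_option autoImplicit false

namespace Pool.Agent.Q98.NR

open MeasureTheory Set Metric Filter Topology Matrix
open scoped ENNReal NNReal ComplexConjugate ContDiff
open Pool.Agent.Y283.NK (lm)
open Pool.Agent.Q98.RB

variable {X : Type} [NormedAddCommGroup X] [NormedSpace ℂ X]
variable {N : X →L[ℂ] X} {R : ℝ} {Ψ : C(DD R, ℂ) →ₐ[ℂ] (X →L[ℂ] X)}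

/-- Cauchy-Schwarz -/
theorem cs {κ : Type} (s : Finset κ) (c l : κ → ℂ) :
    ‖∑ i ∈ s, c i * l i‖ ≤ Real.sqrt (∑ i ∈ s, ‖c i‖ ^ 2) * Real.sqrt (∑ i ∈ s, ‖l i‖ ^ 2) := by
  calc _ ≤ ∑ i ∈ s, ‖c i * l i‖ := norm_sum_le _ _
    _ = ∑ i ∈ s, ‖c i‖ * ‖l i‖ := Finset.sum_congr rfl fun i _ => norm_mul _ _
    _ ≤ _ := Real.sum_mul_le_sqrt_mul_sqrt _ _ _

/-- the norm by combinations -/
theorem cs_sup {n : ℕ} (l : Fin n → ℂ) {Λ : ℝ} (hΛ : 0 ≤ Λ)
    (h : ∀ c : Fin n → ℂ, ∑ i, ‖c i‖ ^ 2 ≤ 1 → ‖∑ i, c i * l i‖ ≤ Λ) :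
    Real.sqrt (∑ i, ‖l i‖ ^ 2) ≤ Λ := by
  set s := Real.sqrt (∑ i, ‖l i‖ ^ 2) with hs
  have hs2 : s ^ 2 = ∑ i, ‖l i‖ ^ 2 := Real.sq_sqrt (Finset.sum_nonneg fun i _ => by positivity)
  rcases (Real.sqrt_nonneg (∑ i, ‖l i‖ ^ 2)).eq_or_lt with h0 | h0
  · rw [hs, ← h0]
    exact hΛ
  · have hs0 : 0 < s := h0
    have h1 := h (fun i => conj (l i) / s) (by
      have e : ∀ i, ‖conj (l i) / (s : ℂ)‖ ^ 2 = ‖l i‖ ^ 2 / s ^ 2 := by
        intro i
        rw [norm_div, Complex.norm_real, RCLike.norm_conj, div_pow, Real.norm_of_nonneg hs0.le]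
      simp only [e]
      rw [← Finset.sum_div, ← hs2, div_self (by positivity)])
    have e2 : ∑ i, conj (l i) / (s : ℂ) * l i = (s : ℂ) := by
      have e : ∀ i, conj (l i) / (s : ℂ) * l i = ((‖l i‖ ^ 2 : ℝ) : ℂ) / s := by
        intro i
        rw [div_mul_eq_mul_div, Complex.conj_mul']
        push_cast
        rfl
      simp only [e]
      rw [← Finset.sum_div, ← Complex.ofReal_sum, ← hs2]
      have : (s : ℂ) ≠ 0 := by exact_mod_cast hs0.ne'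
      push_cast
      field_simp
    rw [e2, Complex.norm_real, Real.norm_of_nonneg hs0.le] at h1
    exact h1

theorem ell (hΨ : Cal N R Ψ) {p : ℝ} (h1 : 1 < p) (h2 : p < 2) {ρ : ℝ} {C : ℝ≥0}
    (hC : CB Ψ p ρ C) {u : ℕ → X} {v : ℕ → (X →L[ℂ] ℂ)} {S : ℝ≥0} (hW : Wt p u v S) (t : ℂ)
    (B : ℝ≥0) {a : ℂ} {r : ℝ} (hr : 0 < r) (hD : closedBall a r ⊆ ball 0 ρ)
    (y : StrongDual ℂ X) :
    ∃ Λ : ℝ, 0 < Λ ∧ ∀ n, Gd hΨ u v t ρ B n → ∀ (m : ℕ) (Y : ℕ → StrongDual ℂ X),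
      (∀ k, m ≤ k → Y k = 0) →
      ∑ k ∈ Finset.range (m + 1), r ^ k * ‖res (N + t • Ks u v n) a y Y k‖ ≤ 1 →
      ∀ w ∈ closedBall a (r / 2), Real.sqrt (∑ i : Fin n, ‖hp Y a m (u i) w‖ ^ 2) ≤ Λ := by
  have hp0 : (0:ℝ) ≤ p := by linarith
  obtain ⟨A₀, hA₀⟩ : ∃ A₀ : ℝ≥0∞, A₀ = B + (C * (‖y‖ₑ + 1)) ^ p * S +
    (volume (ball (0:ℂ) ρ) + ‖t‖ₑ * C * S + (‖t‖ₑ * C) ^ p * S * S) := ⟨_, rfl⟩
  have hA₀t : A₀ ≠ ⊤ := by
    have hV : volume (ball (0:ℂ) ρ) ≠ ⊤ := measure_ball_lt_top.ne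
    have hy : ‖y‖ₑ ≠ ⊤ := enorm_ne_top
    have ht : ‖t‖ₑ ≠ ⊤ := enorm_ne_top
    have g1 : (C * (‖y‖ₑ + 1) : ℝ≥0∞) ^ p ≠ ⊤ := ENNReal.rpow_ne_top_of_nonneg hp0
      (ENNReal.mul_ne_top ENNReal.coe_ne_top (ENNReal.add_ne_top.2 ⟨hy, ENNReal.one_ne_top⟩))
    have g2 : (‖t‖ₑ * C : ℝ≥0∞) ^ p ≠ ⊤ := ENNReal.rpow_ne_top_of_nonneg hp0
      (ENNReal.mul_ne_top ht ENNReal.coe_ne_top)
    rw [hA₀]
    refine ENNReal.add_ne_top.2 ⟨ENNReal.add_ne_top.2 ⟨ENNReal.coe_ne_top,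
      ENNReal.mul_ne_top g1 ENNReal.coe_ne_top⟩, ENNReal.add_ne_top.2 ⟨ENNReal.add_ne_top.2
      ⟨hV, ENNReal.mul_ne_top (ENNReal.mul_ne_top ht ENNReal.coe_ne_top) ENNReal.coe_ne_top⟩,
      ENNReal.mul_ne_top (ENNReal.mul_ne_top g2 ENNReal.coe_ne_top) ENNReal.coe_ne_top⟩⟩
  have hA : A₀ ≤ ENNReal.ofReal (A₀.toReal + 1) := by
    calc A₀ = ENNReal.ofReal A₀.toReal := (ENNReal.ofReal_toReal hA₀t).symm
      _ ≤ _ := ENNReal.ofReal_le_ofReal (by linarith)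
  have hA0 : 0 < A₀.toReal + 1 := by positivity
  refine ⟨Real.exp ((A₀.toReal + 1) / (r / 2) ^ 2), Real.exp_pos _, ?_⟩
  intro n hG m Y hY hE w hw
  refine cs_sup _ (Real.exp_pos _).le fun c hc => ?_
  set E := res (N + t • Ks u v n) a y Y with hEdef
  have hbm : ∀ k : Fin n, Measurable (bb hΨ a y E m (u k)) := fun k => bb_meas hΨ a y E m (u k)
  have hI := gg_int hΨ h1 hC hW hG hD (fun k => bb hΨ a y E m (u k)) hbm (C * (‖y‖ₑ + 1))
    (fun k => bb_lp hΨ h1 hC hr.le hD y E m hE (u k))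
  rw [← hA₀] at hI
  -- the equation
  have hkey : ∀ᵐ z, ∀ k : Fin n, hp Y a m (u k) z = bb hΨ a y E m (u k) z +
      t * ∑ i ∈ Finset.range n, hp Y a m (u i) z * Kf hΨ (v i) (u k) z :=
    ae_all_iff.2 fun k => key hΨ u v t a n y Y m hY (u k)
  have m1 : Measurable fun z => lm ‖((1 : Matrix (Fin n) (Fin n) ℂ) - t • FF hΨ u v n z).det‖ := by
    refine Pool.Agent.Y604.NK.meas_lm.comp (Measurable.norm ?_)
    exact (FF_meas hΨ u v n).comp (measurable_id.prodMk measurable_const)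
  have hlm : ∀ᵐ z ∂(volume.restrict (closedBall a r)),
      lm ‖((1 : Matrix (Fin n) (Fin n) ℂ) - t • FF hΨ u v n z).det‖ ≠ ⊤ := by
    have h3 : ∫⁻ z in closedBall a r,
        lm ‖((1 : Matrix (Fin n) (Fin n) ℂ) - t • FF hΨ u v n z).det‖ ≠ ⊤ :=
      ne_top_of_le_ne_top ENNReal.coe_ne_top ((lintegral_mono_set hD).trans hG)
    filter_upwards [ae_lt_top m1 h3] with z hz using hz.ne
  have hbound : ∀ᵐ z ∂(volume.restrict (closedBall a r)),
      ‖∑ i, c i * hp Y a m (u i) z‖ ≤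
        Real.exp (gg p (t • FF hΨ u v n z) (fun k => bb hΨ a y E m (u k) z)).toReal := by
    filter_upwards [hlm, ae_restrict_of_ae hkey] with z hz hk
    have h3 : (fun i : Fin n => hp Y a m (u i) z) ᵥ*
        ((1 : Matrix (Fin n) (Fin n) ℂ) - t • FF hΨ u v n z) =
        fun k : Fin n => bb hΨ a y E m (u k) z := by
      funext k
      rw [Matrix.vecMul_sub, Matrix.vecMul_one, Matrix.vecMul_smul]
      simp only [Pi.sub_apply, Pi.smul_apply, smul_eq_mul, Matrix.vecMul, dotProduct, FF]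
      rw [hk k, Finset.sum_range fun i => hp Y a m (u i) z * Kf hΨ (v i) (u k) z]
      ring
    have h4 := solve_exp _ p h1.le h2.le _ _ h3 hz
    rw [← gg_toReal p hp0 _ _ hz] at h4
    calc _ ≤ Real.sqrt (∑ i, ‖c i‖ ^ 2) * Real.sqrt (∑ i : Fin n, ‖hp Y a m (u i) z‖ ^ 2) :=
          cs Finset.univ c fun i => hp Y a m (u i) z
      _ ≤ 1 * Real.sqrt (∑ i : Fin n, ‖hp Y a m (u i) z‖ ^ 2) := by
          refine mul_le_mul_of_nonneg_right ?_ (Real.sqrt_nonneg _)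
          rw [Real.sqrt_le_left zero_le_one, one_pow]
          exact hc
      _ ≤ _ := by
          rw [one_mul]
          exact h4
  have hsub : closedBall w (r / 2) ⊆ closedBall a r := by
    refine closedBall_subset_closedBall' ?_
    rw [mem_closedBall] at hw
    linarith
  have hgm : Measurable fun z => gg p (t • FF hΨ u v n z) (fun k => bb hΨ a y E m (u k) z) := by
    have hKm : ∀ (w : StrongDual ℂ X) (x : X), Measurable (Kf hΨ w x) := fun w x =>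
      (Kf_spec hΨ w x).meas
    have m2 : Measurable fun z => ∑ k : Fin n, ‖bb hΨ a y E m (u k) z‖ₑ ^ p :=
      Finset.measurable_sum _ fun k _ => ((hbm k).enorm.pow_const p)
    have m3 : ∀ i : Fin n, Measurable fun z => ‖(t • FF hΨ u v n z) i i‖ₑ := fun i =>
      ((hKm (v i) (u i)).const_mul t).enorm
    have m4 : ∀ i k : Fin n, Measurable fun z => ‖(t • FF hΨ u v n z) i k‖ₑ ^ p := fun i k =>
      ((hKm (v i) (u k)).const_mul t).enorm.pow_const p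
    unfold gg
    exact (m1.add m2).add ((measurable_const.add (Finset.measurable_sum _ fun i _ => m3 i)).add
      (Finset.measurable_sum _ fun i _ => Finset.measurable_sum _ fun k _ => m4 i k))
  refine submean (f := fun z => ∑ i, c i * hp Y a m (u i) z) ?_ w (s := r / 2) (by positivity) hA0
    (fun z => gg p (t • FF hΨ u v n z) (fun k => bb hΨ a y E m (u k) z)) hgm ?_ ?_
  · exact Differentiable.fun_sum fun i _ => (hp_diff Y a m (u i)).const_mul (c i)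
  · exact (lintegral_mono_set hsub).trans (hI.trans hA)
  · exact ae_restrict_of_ae_restrict_of_subset hsub hbound

end Pool.Agent.Q98.NR
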