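import Pool.Agent.Q98.NR.Bel
import Pool.Agent.Q98.RB.Main

/-!
# Nuclear perturbations on reflexive spaces: chains at the essential points
-/

set_option autoImplicit false

namespace Pool.Agent.Q98.NR

open MeasureTheory Set Metric Filter Topology Matrix
open scoped ENNReal NNReal ComplexConjugate ContDiff
open Pool.Agent.Y283.NK (lm)
open Pool.Agent.Q98.RB

variable {X : Type} [NormedAddCommGroup X] [NormedSpace ℂ X]
variable {N : X →L[ℂ] X} {R : ℝ} {Ψ : C(DD R, ℂ) →ₐ[ℂ] (X →L[ℂ] X)}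

theorem exists_ker {P : X →L[ℂ] X} (hP : ¬ FR P) (v : ℕ → (X →L[ℂ] ℂ)) (n : ℕ) :
    ∃ x, P x ≠ 0 ∧ ∀ i < n, v i (P x) = 0 := by
  by_contra hcon
  push Not at hcon
  apply hP
  unfold FR
  let F : LinearMap.range (P : X →ₗ[ℂ] X) →ₗ[ℂ] (Fin n → ℂ) :=
    LinearMap.pi fun i => (v i : X →ₗ[ℂ] ℂ) ∘ₗ (LinearMap.range (P : X →ₗ[ℂ] X)).subtype
  refine FiniteDimensional.of_injective F ?_
  rw [← LinearMap.ker_eq_bot, LinearMap.ker_eq_bot']
  rintro ⟨_, x, rfl⟩ hx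
  by_contra hne
  have h1 : P x ≠ 0 := by
    intro h0
    apply hne
    exact Subtype.ext h0
  obtain ⟨i, hi, h2⟩ := hcon x h1
  apply h2
  have h3 := congrFun hx ⟨i, hi⟩
  exact h3

theorem not_below (hΨ : Cal N R Ψ) {u : ℕ → X} {v : ℕ → (X →L[ℂ] ℂ)} {K : X →L[ℂ] X}
    (hK : Tendsto (Ks u v) atTop (𝓝 K)) (t a : ℂ) (hE : Ess Ψ a) :
    ¬ ∃ c : ℝ, 0 < c ∧ ∀ x, ‖x‖ ≤ c * ‖(N + t • K) x - a • x‖ := by
  rintro ⟨c, hc, h⟩
  obtain ⟨C₀, hC₀, hop⟩ := op_bound hΨ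
  -- the section
  obtain ⟨n, hn⟩ : ∃ n, ‖t‖ * ‖K - Ks u v n‖ * c ≤ 1 / 4 := by
    have h1 : Tendsto (fun n => ‖t‖ * ‖K - Ks u v n‖ * c) atTop (𝓝 (‖t‖ * ‖K - K‖ * c)) :=
      (((tendsto_const_nhds.sub hK).norm).const_mul _).mul_const _
    rw [sub_self, norm_zero, mul_zero, zero_mul] at h1
    exact ((h1.eventually_lt_const (by norm_num : (0:ℝ) < 1 / 4)).mono fun n hn => hn.le).exists
  -- the radius
  obtain ⟨s, hs⟩ : ∃ s : ℝ, s = 1 / (16 * (c * C₀ + 1)) := ⟨_, rfl⟩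
  have hs0 : 0 < s := by rw [hs]; positivity
  obtain ⟨x₀, hx₀, hv⟩ := exists_ker (hE s hs0) v n
  obtain ⟨x, hx⟩ : ∃ x, x = op Ψ (cf a s) x₀ := ⟨_, rfl⟩
  rw [← hx] at hx₀ hv
  have hxx : op Ψ (cf a (2 * s)) x = x := by
    rw [hx, ← op_mul_apply (cf_cont _ _) (cf_cont _ _)]
    congr 2
    funext z
    rcases le_or_gt (2 * s) ‖z - a‖ with h | h
    · rw [cf_zero hs0 h, mul_zero]
    · rw [cf_one (t := 2 * s) (by positivity) h.le, one_mul]
  have hcc : Continuous fun z => (z - a) * cf a (2 * s) z := by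
    have := cf_cont a (2 * s)
    fun_prop
  have hNx : N x - a • x = op Ψ (fun z => (z - a) * cf a (2 * s) z) x := by
    have h1 := op_mul_apply (Ψ := Ψ) (show Continuous fun z : ℂ => z - a by fun_prop)
      (cf_cont a (2 * s)) x
    have h2 : op Ψ (fun z : ℂ => z - a) x = N x - a • x := by
      rw [op_sub continuous_id' continuous_const, op_id hΨ, op_const]
      rfl
    rw [h1, hxx, h2]
  have hbd : ‖op Ψ (fun z => (z - a) * cf a (2 * s) z)‖ ≤ C₀ * (4 * s) := by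
    refine hop _ _ hcc (by positivity) fun z _ => ?_
    rcases le_or_gt (4 * s) ‖z - a‖ with h | h
    · rw [cf_zero (t := 2 * s) (by positivity) (by linarith), mul_zero, norm_zero]
      positivity
    · rw [norm_mul]
      calc ‖z - a‖ * ‖cf a (2 * s) z‖ ≤ 4 * s * 1 :=
            mul_le_mul h.le (cf_norm _ _ _) (norm_nonneg _) (by positivity)
        _ = _ := mul_one _
  have hKx : Ks u v n x = 0 := by
    rw [Ks_apply]
    exact Finset.sum_eq_zero fun i hi => by rw [hv i (Finset.mem_range.1 hi), zero_smul]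
  have hT : (N + t • K) x - a • x = (N x - a • x) + t • (K - Ks u v n) x := by
    show N x + t • K x - a • x = (N x - a • x) + t • (K x - Ks u v n x)
    rw [hKx, sub_zero]
    abel
  have hx1 := h x
  have h5 : ‖(N + t • K) x - a • x‖ ≤ (C₀ * (4 * s) + ‖t‖ * ‖K - Ks u v n‖) * ‖x‖ := by
    rw [hT]
    calc _ ≤ ‖N x - a • x‖ + ‖t • (K - Ks u v n) x‖ := norm_add_le _ _
      _ ≤ C₀ * (4 * s) * ‖x‖ + ‖t‖ * (‖K - Ks u v n‖ * ‖x‖) := by
          refine add_le_add ?_ ?_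
          · rw [hNx]
            exact (ContinuousLinearMap.le_opNorm _ _).trans
              (mul_le_mul_of_nonneg_right hbd (norm_nonneg _))
          · rw [norm_smul]
            exact mul_le_mul_of_nonneg_left (ContinuousLinearMap.le_opNorm _ _) (norm_nonneg _)
      _ = _ := by ring
  have hsmall : c * (C₀ * (4 * s)) ≤ 1 / 4 := by
    have h1 : 0 ≤ c * C₀ := by positivity
    rw [hs]
    have h2 : c * (C₀ * (4 * (1 / (16 * (c * C₀ + 1))))) = (c * C₀) / (4 * (c * C₀ + 1)) := by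
      field_simp
      ring
    rw [h2, div_le_div_iff₀ (by positivity) (by norm_num)]
    linarith
  have hpos : 0 < ‖x‖ := norm_pos_iff.2 hx₀
  have h6 : ‖x‖ ≤ (c * (C₀ * (4 * s)) + ‖t‖ * ‖K - Ks u v n‖ * c) * ‖x‖ := by
    calc ‖x‖ ≤ c * ‖(N + t • K) x - a • x‖ := hx1
      _ ≤ c * ((C₀ * (4 * s) + ‖t‖ * ‖K - Ks u v n‖) * ‖x‖) :=
          mul_le_mul_of_nonneg_left h5 hc.le
      _ = _ := by ring
  nlinarith

/-- chains at the essential points -/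
theorem chains (hX : Refl X) (hΨ : Cal N R Ψ) {p : ℝ} (h1 : 1 < p) (h2 : p < 2)
    {u : ℕ → X} {v : ℕ → (X →L[ℂ] ℂ)} {S : ℝ≥0} (hW : Wt p u v S)
    {K : X →L[ℂ] X} (hK : Tendsto (Ks u v) atTop (𝓝 K)) {t : ℂ}
    (hG : ∀ ρ : ℕ, ∃ B : ℝ≥0, ∃ᶠ n in atTop, Gd hΨ u v t ρ B n) {a : ℂ} (hE : Ess Ψ a) {r : ℝ}
    (hr : 0 < r) : HasCh (N + t • K) a r := by
  by_contra hno
  obtain ⟨ρ, hρ⟩ := exists_nat_gt (‖a‖ + r)
  have hρ0 : (0:ℝ) < ρ := by
    have := norm_nonneg a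
    linarith
  obtain ⟨C, hC⟩ := exists_CB hΨ h1 h2 hρ0
  obtain ⟨B, hB⟩ := hG ρ
  refine not_below hΨ hK t a hE (below hX hΨ h1 h2 hC hW hr (ρ := ρ) ?_ hK hB hno)
  intro z hz
  rw [mem_closedBall, dist_eq_norm] at hz
  rw [mem_ball_zero_iff]
  calc ‖z‖ = ‖(z - a) + a‖ := by rw [sub_add_cancel]
    _ ≤ ‖z - a‖ + ‖a‖ := norm_add_le _ _
    _ < ρ := by linarith

end Pool.Agent.Q98.NR
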