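import Pool.Agent.Q98.NR.Loc
import Pool.Agent.Y604.NK.MEAS

/-!
# Nuclear perturbations on reflexive spaces: bounds for the polynomials
-/

set_option autoImplicit false

namespace Pool.Agent.Q98.NR

open MeasureTheory Set Metric Filter Topology Matrix
open scoped ENNReal NNReal ComplexConjugate ContDiff
open Pool.Agent.Y283.NK (lm)
open Pool.Agent.Q98.RB

theorem lm_exp {x : ℝ} (h : lm x ≠ ⊤) (hx : 0 ≤ x) : 1 ≤ x * Real.exp (lm x).toReal := by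
  have h0 : x ≠ 0 := by
    rintro rfl
    apply h
    unfold lm
    simp
  have hp : 0 < x := lt_of_le_of_ne hx h0.symm
  have h1 : (lm x).toReal = Real.posLog x⁻¹ := by
    unfold lm
    rw [if_neg h0, ENNReal.toReal_ofReal Real.posLog_nonneg]
  rw [h1]
  have h2 : x⁻¹ ≤ Real.exp (Real.posLog x⁻¹) := by
    calc x⁻¹ = Real.exp (Real.log x⁻¹) := (Real.exp_log (by positivity)).symm
      _ ≤ _ := Real.exp_le_exp.2 (le_max_right _ _)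
  calc 1 = x * x⁻¹ := (mul_inv_cancel₀ h0).symm
    _ ≤ _ := mul_le_mul_of_nonneg_left h2 hx

theorem sqrt_le_exp {κ : Type} (s : Finset κ) (x : κ → ℝ) (p : ℝ) (hx : ∀ k, 0 ≤ x k)
    (h1 : 1 ≤ p) (h2 : p ≤ 2) :
    Real.sqrt (∑ k ∈ s, x k ^ 2) ≤ Real.exp (∑ k ∈ s, x k ^ p) := by
  rw [Real.sqrt_le_left (Real.exp_pos _).le, ← Real.exp_nat_mul]
  have := one_add_sum_le s x p hx h1 h2
  push_cast
  linarith

theorem solve_exp {n : ℕ} (A : Matrix (Fin n) (Fin n) ℂ) (p : ℝ) (h1 : 1 ≤ p) (h2 : p ≤ 2)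
    (l b : Fin n → ℂ) (h : l ᵥ* (1 - A) = b)
    (hd : lm ‖((1 : Matrix (Fin n) (Fin n) ℂ) - A).det‖ ≠ ⊤) :
    Real.sqrt (∑ i, ‖l i‖ ^ 2) ≤
      Real.exp ((lm ‖((1 : Matrix (Fin n) (Fin n) ℂ) - A).det‖).toReal + (∑ i, ‖b i‖ ^ p) +
        (1 / 2 + (∑ i, ‖A i i‖) + ∑ i, ∑ k, ‖A i k‖ ^ p)) := by
  have h3 := solve_bd A p h1 h2 l b h
  have h4 := sqrt_le_exp Finset.univ (fun i => ‖b i‖) p (fun _ => norm_nonneg _) h1 h2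
  have h5 := lm_exp hd (norm_nonneg _)
  rw [Real.exp_add, Real.exp_add]
  set s := Real.sqrt (∑ i, ‖l i‖ ^ 2)
  set d := ‖((1 : Matrix (Fin n) (Fin n) ℂ) - A).det‖
  set L := Real.exp (lm d).toReal
  have hs : 0 ≤ s := Real.sqrt_nonneg _
  have hL : 0 < L := Real.exp_pos _
  calc s = s * 1 := (mul_one s).symm
    _ ≤ s * (d * L) := mul_le_mul_of_nonneg_left h5 hs
    _ = L * (s * d) := by ring
    _ ≤ L * (Real.sqrt (∑ i, ‖b i‖ ^ 2) *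
        Real.exp (1 / 2 + (∑ i, ‖A i i‖) + ∑ i, ∑ k, ‖A i k‖ ^ p)) :=
        mul_le_mul_of_nonneg_left h3 hL.le
    _ ≤ L * (Real.exp (∑ i, ‖b i‖ ^ p) *
        Real.exp (1 / 2 + (∑ i, ‖A i i‖) + ∑ i, ∑ k, ‖A i k‖ ^ p)) := by
        refine mul_le_mul_of_nonneg_left (mul_le_mul_of_nonneg_right h4 (Real.exp_pos _).le) hL.le
    _ = _ := by ring

/-- the majorant -/
noncomputable def gg (p : ℝ) {n : ℕ} (A : Matrix (Fin n) (Fin n) ℂ) (b : Fin n → ℂ) : ℝ≥0∞ :=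
  lm ‖((1 : Matrix (Fin n) (Fin n) ℂ) - A).det‖ + ∑ i, ‖b i‖ₑ ^ p +
    (ENNReal.ofReal (1 / 2) + ∑ i, ‖A i i‖ₑ + ∑ i, ∑ k, ‖A i k‖ₑ ^ p)

theorem rpow_top {p : ℝ} (hp : 0 ≤ p) (z : ℂ) : ‖z‖ₑ ^ p ≠ ⊤ :=
  ENNReal.rpow_ne_top_of_nonneg hp enorm_ne_top

theorem rpow_toReal (p : ℝ) (z : ℂ) : (‖z‖ₑ ^ p).toReal = ‖z‖ ^ p := by
  rw [← ENNReal.toReal_rpow, toReal_enorm]

theorem gg_toReal (p : ℝ) (hp : 0 ≤ p) {n : ℕ} (A : Matrix (Fin n) (Fin n) ℂ) (b : Fin n → ℂ)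
    (hd : lm ‖((1 : Matrix (Fin n) (Fin n) ℂ) - A).det‖ ≠ ⊤) :
    (gg p A b).toReal = (lm ‖((1 : Matrix (Fin n) (Fin n) ℂ) - A).det‖).toReal +
      (∑ i, ‖b i‖ ^ p) + (1 / 2 + (∑ i, ‖A i i‖) + ∑ i, ∑ k, ‖A i k‖ ^ p) := by
  have hA : ∑ i, ‖A i i‖ₑ ≠ ⊤ := ENNReal.sum_ne_top.2 fun i _ => enorm_ne_top
  have hb : ∑ i, ‖b i‖ₑ ^ p ≠ ⊤ := ENNReal.sum_ne_top.2 fun i _ => rpow_top hp _
  have hA1 : ∀ i, ∑ k, ‖A i k‖ₑ ^ p ≠ ⊤ := fun i =>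
    ENNReal.sum_ne_top.2 fun k _ => rpow_top hp _
  have hA2 : ∑ i, ∑ k, ‖A i k‖ₑ ^ p ≠ ⊤ := ENNReal.sum_ne_top.2 fun i _ => hA1 i
  unfold gg
  rw [ENNReal.toReal_add (ENNReal.add_ne_top.2 ⟨hd, hb⟩)
      (ENNReal.add_ne_top.2 ⟨ENNReal.add_ne_top.2 ⟨ENNReal.ofReal_ne_top, hA⟩, hA2⟩),
    ENNReal.toReal_add hd hb,
    ENNReal.toReal_add (ENNReal.add_ne_top.2 ⟨ENNReal.ofReal_ne_top, hA⟩) hA2,
    ENNReal.toReal_add ENNReal.ofReal_ne_top hA, ENNReal.toReal_ofReal (by norm_num),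
    ENNReal.toReal_sum (fun i _ => rpow_top hp _), ENNReal.toReal_sum (fun i _ => enorm_ne_top),
    ENNReal.toReal_sum (fun i _ => hA1 i)]
  congr 1
  · congr 1
    exact Finset.sum_congr rfl fun i _ => rpow_toReal p _
  · congr 1
    refine Finset.sum_congr rfl fun i _ => ?_
    rw [ENNReal.toReal_sum (fun k _ => rpow_top hp _)]
    exact Finset.sum_congr rfl fun k _ => rpow_toReal p _

variable {X : Type} [NormedAddCommGroup X] [NormedSpace ℂ X]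
variable {N : X →L[ℂ] X} {R : ℝ} {Ψ : C(DD R, ℂ) →ₐ[ℂ] (X →L[ℂ] X)}

/-- the matrix of the transforms -/
noncomputable def FF (hΨ : Cal N R Ψ) (u : ℕ → X) (v : ℕ → (X →L[ℂ] ℂ)) (n : ℕ) (z : ℂ) :
    Matrix (Fin n) (Fin n) ℂ := fun i k => Kf hΨ (v i) (u k) z

theorem FF_meas (hΨ : Cal N R Ψ) (u : ℕ → X) (v : ℕ → (X →L[ℂ] ℂ)) (n : ℕ) :
    Measurable (fun p : ℂ × ℂ =>
      ((1 : Matrix (Fin n) (Fin n) ℂ) - p.2 • FF hΨ u v n p.1).det) := by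
  simp only [Matrix.det_apply']
  refine Finset.measurable_sum _ fun σ _ => ?_
  refine Measurable.const_mul ?_ _
  refine Finset.measurable_prod _ fun i _ => ?_
  have h1 : (fun p : ℂ × ℂ => ((1 : Matrix (Fin n) (Fin n) ℂ) - p.2 • FF hΨ u v n p.1) (σ i) i) =
      fun p : ℂ × ℂ => (1 : Matrix (Fin n) (Fin n) ℂ) (σ i) i -
        p.2 * Kf hΨ (v (σ i)) (u i) p.1 := by
    funext p
    simp [FF, Matrix.sub_apply]
  rw [h1]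
  exact measurable_const.sub
    (measurable_snd.mul ((Kf_spec hΨ (v (σ i)) (u i)).meas.comp measurable_fst))

/-- the transforms are locally integrable with a bound -/
theorem K_l1 (hΨ : Cal N R Ψ) {p : ℝ} (h1 : 1 < p) (h2 : p < 2) {ρ : ℝ} (hρ : 0 < ρ) :
    ∃ C : ℝ≥0, ∀ (w : X →L[ℂ] ℂ) (x : X) (K : ℂ → ℂ), IsK Ψ w x K →
      ∫⁻ z in ball (0:ℂ) ρ, ‖K z‖ₑ ≤ C * ‖w‖ₑ * ‖x‖ₑ := by
  obtain ⟨C, hC⟩ := K_lp hΨ h1 h2 hρ
  set V := volume (ball (0:ℂ) ρ) with hV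
  have hVt : V ≠ ⊤ := measure_ball_lt_top.ne
  have hp0 : (0:ℝ) < p := by linarith
  have hq : 0 ≤ 1 - 1 / p := by
    rw [sub_nonneg, div_le_one hp0]
    exact h1.le
  have hVq : V ^ (1 - 1 / p) ≠ ⊤ := ENNReal.rpow_ne_top_of_nonneg hq hVt
  refine ⟨C * (V ^ (1 - 1 / p)).toNNReal, fun w x K hK => ?_⟩
  have h3 := eLpNorm_le_eLpNorm_mul_rpow_measure_univ (p := 1) (q := ENNReal.ofReal p)
    (μ := volume.restrict (ball (0:ℂ) ρ)) (f := K)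
    (by rw [ENNReal.one_le_ofReal]; exact h1.le) hK.meas.aestronglyMeasurable
  have hp1 : ENNReal.ofReal p ≠ 0 := by simpa using hp0
  rw [eLpNorm_one_eq_lintegral_enorm, eLpNorm_eq_lintegral_rpow_enorm_toReal hp1
    ENNReal.ofReal_ne_top, ENNReal.toReal_ofReal hp0.le, Measure.restrict_apply_univ,
    ENNReal.toReal_one, one_div_one] at h3
  refine h3.trans ?_
  have h4 : (∫⁻ z in ball (0:ℂ) ρ, ‖K z‖ₑ ^ p) ^ (1 / p) ≤ C * ‖w‖ₑ * ‖x‖ₑ := by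
    calc _ ≤ ((C * ‖w‖ₑ * ‖x‖ₑ) ^ p) ^ (1 / p) :=
          ENNReal.rpow_le_rpow (hC w x K hK) (by positivity)
      _ = _ := by
          rw [← ENNReal.rpow_mul, mul_one_div_cancel hp0.ne', ENNReal.rpow_one]
  calc _ ≤ C * ‖w‖ₑ * ‖x‖ₑ * V ^ (1 - 1 / p) := mul_le_mul' h4 le_rfl
    _ = _ := by
        rw [ENNReal.coe_mul, ENNReal.coe_toNNReal hVq]
        ring

end Pool.Agent.Q98.NR
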