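import Pool.Agent.Q98.NR.Est

/-!
# Nuclear perturbations on reflexive spaces: bounds for the polynomials, II
-/

set_option autoImplicit false

namespace Pool.Agent.Q98.NR

open MeasureTheory Set Metric Filter Topology Matrix
open scoped ENNReal NNReal ComplexConjugate ContDiff
open Pool.Agent.Y283.NK (lm)
open Pool.Agent.Q98.RB

variable {X : Type} [NormedAddCommGroup X] [NormedSpace ℂ X]
variable {N : X →L[ℂ] X} {R : ℝ} {Ψ : C(DD R, ℂ) →ₐ[ℂ] (X →L[ℂ] X)}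

theorem bb_meas (hΨ : Cal N R Ψ) (a : ℂ) (y : StrongDual ℂ X) (E : ℕ → StrongDual ℂ X)
    (m : ℕ) (x : X) : Measurable (bb hΨ a y E m x) := by
  unfold bb
  refine (Kf_spec hΨ y x).meas.add (Finset.measurable_sum _ fun k _ => ?_)
  exact ((measurable_id.sub_const a).pow_const k).mul (Kf_spec hΨ (E k) x).meas

/-- the bound for the transforms -/
def CB (Ψ : C(DD R, ℂ) →ₐ[ℂ] (X →L[ℂ] X)) (p ρ : ℝ) (C : ℝ≥0) : Prop :=
  ∀ (w : X →L[ℂ] ℂ) (x : X) (K : ℂ → ℂ), IsK Ψ w x K →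
    ∫⁻ z in ball (0:ℂ) ρ, ‖K z‖ₑ ≤ C * ‖w‖ₑ * ‖x‖ₑ ∧
    ∫⁻ z in ball (0:ℂ) ρ, ‖K z‖ₑ ^ p ≤ (C * ‖w‖ₑ * ‖x‖ₑ) ^ p

theorem exists_CB (hΨ : Cal N R Ψ) {p : ℝ} (h1 : 1 < p) (h2 : p < 2) {ρ : ℝ} (hρ : 0 < ρ) :
    ∃ C : ℝ≥0, CB Ψ p ρ C := by
  obtain ⟨C, hC⟩ := K_lp hΨ h1 h2 hρ
  obtain ⟨C', hC'⟩ := K_l1 hΨ h1 h2 hρ
  refine ⟨max C C', fun w x K hK => ⟨(hC' w x K hK).trans ?_, (hC w x K hK).trans ?_⟩⟩
  · gcongr
    exact le_max_right _ _
  · refine ENNReal.rpow_le_rpow ?_ (by linarith)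
    gcongr
    exact le_max_left _ _

theorem bb_lp (hΨ : Cal N R Ψ) {p : ℝ} (h1 : 1 < p) {ρ : ℝ} {C : ℝ≥0}
    (hC : CB Ψ p ρ C) {a : ℂ} {r : ℝ} (hr : 0 ≤ r) (hD : closedBall a r ⊆ ball 0 ρ)
    (y : StrongDual ℂ X) (E : ℕ → StrongDual ℂ X) (m : ℕ)
    (hE : ∑ k ∈ Finset.range (m + 1), r ^ k * ‖E k‖ ≤ 1) (x : X) :
    ∫⁻ z in closedBall a r, ‖bb hΨ a y E m x z‖ₑ ^ p ≤ (C * (‖y‖ₑ + 1) * ‖x‖ₑ) ^ p := by
  have hp0 : (0:ℝ) < p := by linarith
  have hp1 : ENNReal.ofReal p ≠ 0 := by simpa using hp0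
  set μ := volume.restrict (closedBall a r) with hμ
  have hK : ∀ w : StrongDual ℂ X, eLpNorm (Kf hΨ w x) (ENNReal.ofReal p) μ ≤ C * ‖w‖ₑ * ‖x‖ₑ := by
    intro w
    rw [eLpNorm_eq_lintegral_rpow_enorm_toReal hp1 ENNReal.ofReal_ne_top,
      ENNReal.toReal_ofReal hp0.le]
    calc _ ≤ ((C * ‖w‖ₑ * ‖x‖ₑ) ^ p) ^ (1 / p) := by
          refine ENNReal.rpow_le_rpow ?_ (by positivity)
          exact (lintegral_mono_set hD).trans (hC w x _ (Kf_spec hΨ w x)).2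
      _ = _ := by
          rw [← ENNReal.rpow_mul, mul_one_div_cancel hp0.ne', ENNReal.rpow_one]
  have hk : ∀ k, eLpNorm (fun z => (z - a) ^ k * Kf hΨ (E k) x z) (ENNReal.ofReal p) μ ≤
      ENNReal.ofReal (r ^ k) * (C * ‖E k‖ₑ * ‖x‖ₑ) := by
    intro k
    refine (eLpNorm_le_mul_eLpNorm_of_ae_le_mul (c := r ^ k) (g := Kf hΨ (E k) x) ?_ _).trans ?_
    · filter_upwards [ae_restrict_mem measurableSet_closedBall] with z hz
      rw [norm_mul, norm_pow]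
      rw [mem_closedBall, dist_eq_norm] at hz
      gcongr
    · exact mul_le_mul' le_rfl (hK (E k))
  have hsum : eLpNorm (bb hΨ a y E m x) (ENNReal.ofReal p) μ ≤ C * (‖y‖ₑ + 1) * ‖x‖ₑ := by
    have e : bb hΨ a y E m x = Kf hΨ y x +
        ∑ k ∈ Finset.range (m + 1), fun z => (z - a) ^ k * Kf hΨ (E k) x z := by
      funext z
      simp [bb, Finset.sum_apply]
    have h3 : 1 ≤ ENNReal.ofReal p := by
      rw [ENNReal.one_le_ofReal]
      exact h1.le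
    have hm : ∀ k, AEStronglyMeasurable (fun z => (z - a) ^ k * Kf hΨ (E k) x z) μ := fun k =>
      (((measurable_id.sub_const a).pow_const k).mul
        (Kf_spec hΨ (E k) x).meas).aestronglyMeasurable
    rw [e]
    refine (eLpNorm_add_le (Kf_spec hΨ y x).meas.aestronglyMeasurable
      (Finset.aestronglyMeasurable_sum _ fun k _ => hm k) h3).trans ?_
    refine (add_le_add (hK y) ((eLpNorm_sum_le (fun k _ => hm k) h3).trans
      (Finset.sum_le_sum fun k _ => hk k))).trans ?_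
    have h4 : ∑ k ∈ Finset.range (m + 1), ENNReal.ofReal (r ^ k) * (C * ‖E k‖ₑ * ‖x‖ₑ) ≤
        C * ‖x‖ₑ := by
      calc _ = C * ‖x‖ₑ * ∑ k ∈ Finset.range (m + 1), ENNReal.ofReal (r ^ k * ‖E k‖) := by
            rw [Finset.mul_sum]
            refine Finset.sum_congr rfl fun k _ => ?_
            rw [ENNReal.ofReal_mul (by positivity), ofReal_norm]
            ring
        _ = C * ‖x‖ₑ * ENNReal.ofReal (∑ k ∈ Finset.range (m + 1), r ^ k * ‖E k‖) := by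
            rw [ENNReal.ofReal_sum_of_nonneg fun k _ => by positivity]
        _ ≤ C * ‖x‖ₑ * 1 := by
            refine mul_le_mul' le_rfl ?_
            rw [← ENNReal.ofReal_one]
            exact ENNReal.ofReal_le_ofReal hE
        _ = _ := mul_one _
    calc _ ≤ C * ‖y‖ₑ * ‖x‖ₑ + C * ‖x‖ₑ := add_le_add le_rfl h4
      _ = _ := by ring
  have h5 := ENNReal.rpow_le_rpow hsum hp0.le
  rw [eLpNorm_eq_lintegral_rpow_enorm_toReal hp1 ENNReal.ofReal_ne_top,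
    ENNReal.toReal_ofReal hp0.le, ← ENNReal.rpow_mul, one_div_mul_cancel hp0.ne',
    ENNReal.rpow_one] at h5
  exact h5

/-- the weights -/
structure Wt (p : ℝ) (u : ℕ → X) (v : ℕ → (X →L[ℂ] ℂ)) (S : ℝ≥0) : Prop where
  hu : ∀ n, ∑ i ∈ Finset.range n, ‖u i‖ₑ ^ p ≤ S
  hv : ∀ n, ∑ i ∈ Finset.range n, ‖v i‖ₑ ^ p ≤ S
  huv : ∀ n, ∑ i ∈ Finset.range n, ‖v i‖ₑ * ‖u i‖ₑ ≤ S

/-- the determinants are good for infinitely many `n` -/
def Gd (hΨ : Cal N R Ψ) (u : ℕ → X) (v : ℕ → (X →L[ℂ] ℂ)) (t : ℂ) (ρ : ℝ) (B : ℝ≥0) (n : ℕ) :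
    Prop :=
  ∫⁻ z in ball (0:ℂ) ρ, lm ‖((1 : Matrix (Fin n) (Fin n) ℂ) - t • FF hΨ u v n z).det‖ ≤ B

/-- the integral of the majorant -/
theorem gg_int (hΨ : Cal N R Ψ) {p : ℝ} (h1 : 1 < p) {ρ : ℝ} {C : ℝ≥0}
    (hC : CB Ψ p ρ C) {u : ℕ → X} {v : ℕ → (X →L[ℂ] ℂ)} {S : ℝ≥0} (hW : Wt p u v S) {t : ℂ}
    {B : ℝ≥0} {n : ℕ} (hG : Gd hΨ u v t ρ B n) {a : ℂ} {r : ℝ} (hD : closedBall a r ⊆ ball 0 ρ)
    (b : Fin n → ℂ → ℂ) (hbm : ∀ k, Measurable (b k)) (L : ℝ≥0∞)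
    (hb : ∀ k, ∫⁻ z in closedBall a r, ‖b k z‖ₑ ^ p ≤ (L * ‖u k‖ₑ) ^ p) :
    ∫⁻ z in closedBall a r, gg p (t • FF hΨ u v n z) (fun k => b k z) ≤
      B + L ^ p * S + (volume (ball (0:ℂ) ρ) + ‖t‖ₑ * C * S + (‖t‖ₑ * C) ^ p * S * S) := by
  have hp0 : (0:ℝ) ≤ p := by linarith
  have hKm : ∀ (w : StrongDual ℂ X) (x : X), Measurable (Kf hΨ w x) := fun w x =>
    (Kf_spec hΨ w x).meas
  have hent : ∀ (i k : Fin n) (z : ℂ), (t • FF hΨ u v n z) i k = t * Kf hΨ (v i) (u k) z :=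
    fun i k z => rfl
  have m1 : Measurable fun z => lm ‖((1 : Matrix (Fin n) (Fin n) ℂ) - t • FF hΨ u v n z).det‖ := by
    refine Pool.Agent.Y604.NK.meas_lm.comp (Measurable.norm ?_)
    exact (FF_meas hΨ u v n).comp (measurable_id.prodMk measurable_const)
  have m2 : Measurable fun z => ∑ k, ‖b k z‖ₑ ^ p :=
    Finset.measurable_sum _ fun k _ => ((hbm k).enorm.pow_const p)
  have m3 : ∀ i : Fin n, Measurable fun z => ‖(t • FF hΨ u v n z) i i‖ₑ := fun i =>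
    ((hKm (v i) (u i)).const_mul t).enorm
  have m4 : ∀ i k : Fin n, Measurable fun z => ‖(t • FF hΨ u v n z) i k‖ₑ ^ p := fun i k =>
    ((hKm (v i) (u k)).const_mul t).enorm.pow_const p
  have m5 : ∀ i : Fin n, Measurable fun z => ∑ k, ‖(t • FF hΨ u v n z) i k‖ₑ ^ p := fun i =>
    Finset.measurable_sum _ fun k _ => m4 i k
  have m6 : Measurable fun z => ∑ i, ∑ k, ‖(t • FF hΨ u v n z) i k‖ₑ ^ p :=
    Finset.measurable_sum _ fun i _ => m5 i
  have m12 : Measurable fun z => lm ‖((1 : Matrix (Fin n) (Fin n) ℂ) - t • FF hΨ u v n z).det‖ +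
      ∑ k, ‖b k z‖ₑ ^ p := m1.add m2
  unfold gg
  rw [lintegral_add_left m12, lintegral_add_left m1, lintegral_add_right _ m6,
    lintegral_add_left measurable_const, lintegral_const,
    lintegral_finsetSum _ (fun k _ => ((hbm k).enorm.pow_const p)),
    lintegral_finsetSum _ (fun i _ => m3 i),
    lintegral_finsetSum _ (fun i _ => m5 i)]
  refine add_le_add (add_le_add ?_ ?_) (add_le_add (add_le_add ?_ ?_) ?_)
  · exact (lintegral_mono_set hD).trans hG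
  · calc _ ≤ ∑ k : Fin n, (L * ‖u k‖ₑ) ^ p := Finset.sum_le_sum fun k _ => hb k
      _ = L ^ p * ∑ k : Fin n, ‖u k‖ₑ ^ p := by
          rw [Finset.mul_sum]
          exact Finset.sum_congr rfl fun k _ => ENNReal.mul_rpow_of_nonneg _ _ hp0
      _ ≤ L ^ p * S := by
          refine mul_le_mul' le_rfl ?_
          rw [← Finset.sum_range fun k => ‖u k‖ₑ ^ p]
          exact hW.hu n
  · rw [Measure.restrict_apply_univ]
    calc _ ≤ 1 * volume (ball (0:ℂ) ρ) := by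
          refine mul_le_mul' ?_ (measure_mono hD)
          rw [← ENNReal.ofReal_one]
          exact ENNReal.ofReal_le_ofReal (by norm_num)
      _ = _ := one_mul _
  · calc _ ≤ ∑ i : Fin n, ‖t‖ₑ * C * (‖v i‖ₑ * ‖u i‖ₑ) := by
          refine Finset.sum_le_sum fun i _ => ?_
          simp only [hent, enorm_mul]
          rw [lintegral_const_mul _ (hKm _ _).enorm]
          calc _ ≤ ‖t‖ₑ * (C * ‖v i‖ₑ * ‖u i‖ₑ) := by
                refine mul_le_mul' le_rfl ?_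
                exact (lintegral_mono_set hD).trans (hC _ _ _ (Kf_spec hΨ (v i) (u i))).1
            _ = _ := by ring
      _ = ‖t‖ₑ * C * ∑ i : Fin n, ‖v i‖ₑ * ‖u i‖ₑ := by rw [Finset.mul_sum]
      _ ≤ _ := by
          refine mul_le_mul' le_rfl ?_
          rw [← Finset.sum_range fun k => ‖v k‖ₑ * ‖u k‖ₑ]
          exact hW.huv n
  · calc _ ≤ ∑ i : Fin n, ∑ k : Fin n, (‖t‖ₑ * C) ^ p * ((‖v i‖ₑ) ^ p * (‖u k‖ₑ) ^ p) := by
          refine Finset.sum_le_sum fun i _ => ?_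
          rw [lintegral_finsetSum _ (fun k _ => m4 i k)]
          refine Finset.sum_le_sum fun k _ => ?_
          simp only [hent, enorm_mul]
          calc ∫⁻ z in closedBall a r, (‖t‖ₑ * ‖Kf hΨ (v i) (u k) z‖ₑ) ^ p
              = ‖t‖ₑ ^ p * ∫⁻ z in closedBall a r, ‖Kf hΨ (v i) (u k) z‖ₑ ^ p := by
                rw [← lintegral_const_mul _ ((hKm _ _).enorm.pow_const p)]
                refine lintegral_congr fun z => ?_
                rw [ENNReal.mul_rpow_of_nonneg _ _ hp0]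
            _ ≤ ‖t‖ₑ ^ p * (C * ‖v i‖ₑ * ‖u k‖ₑ) ^ p := by
                refine mul_le_mul' le_rfl ?_
                exact (lintegral_mono_set hD).trans (hC _ _ _ (Kf_spec hΨ (v i) (u k))).2
            _ = _ := by
                rw [ENNReal.mul_rpow_of_nonneg _ _ hp0, ENNReal.mul_rpow_of_nonneg _ _ hp0,
                  ENNReal.mul_rpow_of_nonneg _ _ hp0]
                ring
      _ = (‖t‖ₑ * C) ^ p * (∑ i : Fin n, ‖v i‖ₑ ^ p) * (∑ k : Fin n, ‖u k‖ₑ ^ p) := by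
          rw [mul_assoc, Finset.sum_mul_sum, Finset.mul_sum]
          refine Finset.sum_congr rfl fun i _ => ?_
          rw [Finset.mul_sum]
      _ ≤ _ := by
          refine mul_le_mul' (mul_le_mul' le_rfl ?_) ?_
          · rw [← Finset.sum_range fun k => ‖v k‖ₑ ^ p]
            exact hW.hv n
          · rw [← Finset.sum_range fun k => ‖u k‖ₑ ^ p]
            exact hW.hu n

end Pool.Agent.Q98.NR
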