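import Pool.Agent.Q98.NR.Est2
import Pool.Agent.Y978.NK.DET
import Pool.Agent.Y487.NK.SEL

/-!
# Nuclear perturbations on reflexive spaces: almost every coupling constant is good
-/

set_option autoImplicit false

namespace Pool.Agent.Q98.NR

open MeasureTheory Set Metric Filter Topology Matrix
open scoped ENNReal NNReal ComplexConjugate ContDiff
open Pool.Agent.Y283.NK (lm LogBd)
open Pool.Agent.Q98.RB

variable {X : Type} [NormedAddCommGroup X] [NormedSpace ℂ X]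
variable {N : X →L[ℂ] X} {R : ℝ} {Ψ : C(DD R, ℂ) →ₐ[ℂ] (X →L[ℂ] X)}

/-- the potential of the determinant of a matrix -/
theorem pot_mat (m : Measure ℂ) (hm : LogBd m) {p : ℝ} (h1 : 1 < p) (h2 : p < 2) {r : ℝ}
    (hr : 0 < r) : ∃ C : ℝ≥0, ∀ (n : ℕ) (A : Matrix (Fin n) (Fin n) ℂ),
      ∫⁻ t in ball (0:ℂ) r, lm ‖((1 : Matrix (Fin n) (Fin n) ℂ) - t • A).det‖ ∂m ≤
        C * (∑ i, ‖A i i‖ₑ + ∑ i, ∑ k, ‖A i k‖ₑ ^ p + 1) := by
  have hp0 : (0:ℝ) ≤ p := by linarith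
  obtain ⟨C, hC⟩ := pot m hm hr
  obtain ⟨L, hL⟩ : ∃ L : ℝ≥0, (L : ℝ) = (1 + 4 * r) ^ 2 := ⟨⟨(1 + 4 * r) ^ 2, by positivity⟩, rfl⟩
  have hL1 : 1 ≤ (L : ℝ) := by
    rw [hL]
    nlinarith
  refine ⟨C * L, fun n A => ?_⟩
  obtain ⟨U, -, hdet⟩ := Pool.Agent.Y978.NK.schur_det n A
  obtain ⟨s, hs⟩ : ∃ s : ℝ, s = (∑ i, ‖A i i‖) + ∑ i, ∑ k, ‖A i k‖ ^ p := ⟨_, rfl⟩
  have hs0 : 0 ≤ s := by
    rw [hs]
    exact add_nonneg (Finset.sum_nonneg fun i _ => norm_nonneg _)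
      (Finset.sum_nonneg fun i _ => Finset.sum_nonneg fun k _ => by positivity)
  have hM : 0 < L * (s + 1) := by positivity
  have h3 := hC (Fin n) Finset.univ (fun k => (star U * A * U) k k) (L * (s + 1)) hM (by
    intro t ht
    rw [← hdet t]
    refine (det_bd (t • A) p h1.le h2.le).trans (Real.exp_le_exp.2 ?_)
    have ht1 : ‖t‖ ≤ L := by
      rw [hL]
      nlinarith [norm_nonneg t]
    have ht2 : ‖t‖ ^ p ≤ L := by
      calc ‖t‖ ^ p ≤ (1 + 4 * r) ^ p :=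
            Real.rpow_le_rpow (norm_nonneg _) (by linarith) hp0
        _ ≤ (1 + 4 * r) ^ (2:ℝ) :=
            Real.rpow_le_rpow_of_exponent_le (by linarith) h2.le
        _ = L := by rw [hL, Real.rpow_two]
    calc (∑ i, ‖(t • A) i i‖) + ∑ i, ∑ k, ‖(t • A) i k‖ ^ p
        = ‖t‖ * (∑ i, ‖A i i‖) + ‖t‖ ^ p * ∑ i, ∑ k, ‖A i k‖ ^ p := by
          simp only [Matrix.smul_apply, smul_eq_mul, norm_mul, Finset.mul_sum]
          congr 1
          refine Finset.sum_congr rfl fun i _ => Finset.sum_congr rfl fun k _ => ?_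
          rw [Real.mul_rpow (norm_nonneg _) (norm_nonneg _)]
      _ ≤ L * (∑ i, ‖A i i‖) + L * ∑ i, ∑ k, ‖A i k‖ ^ p := by
          refine add_le_add (mul_le_mul_of_nonneg_right ht1 ?_)
            (mul_le_mul_of_nonneg_right ht2 ?_)
          · exact Finset.sum_nonneg fun i _ => norm_nonneg _
          · exact Finset.sum_nonneg fun i _ => Finset.sum_nonneg fun k _ => by positivity
      _ = L * s := by rw [hs]; ring
      _ ≤ L * (s + 1) := by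
          refine mul_le_mul_of_nonneg_left (by linarith) (by linarith))
  have e : ENNReal.ofReal (L * (s + 1)) = L * (∑ i, ‖A i i‖ₑ + ∑ i, ∑ k, ‖A i k‖ₑ ^ p + 1) := by
    rw [ENNReal.ofReal_mul (NNReal.coe_nonneg L), ENNReal.ofReal_coe_nnreal, ENNReal.ofReal_add hs0 zero_le_one,
      ENNReal.ofReal_one, hs, ENNReal.ofReal_add (Finset.sum_nonneg fun i _ => norm_nonneg _)
      (Finset.sum_nonneg fun i _ => Finset.sum_nonneg fun k _ => by positivity),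
      ENNReal.ofReal_sum_of_nonneg fun i _ => norm_nonneg _,
      ENNReal.ofReal_sum_of_nonneg fun i _ => Finset.sum_nonneg fun k _ => by positivity]
    congr 2
    congr 1
    · exact Finset.sum_congr rfl fun i _ => ofReal_norm _
    · refine Finset.sum_congr rfl fun i _ => ?_
      rw [ENNReal.ofReal_sum_of_nonneg fun k _ => by positivity]
      refine Finset.sum_congr rfl fun k _ => ?_
      rw [← ENNReal.ofReal_rpow_of_nonneg (norm_nonneg _) hp0, ofReal_norm]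
  calc _ = ∫⁻ t in ball (0:ℂ) r, lm ‖∏ k, (1 - t * (star U * A * U) k k)‖ ∂m := by
        refine lintegral_congr fun t => ?_
        rw [hdet t]
    _ ≤ C * ENNReal.ofReal (L * (s + 1)) := h3
    _ = _ := by
        rw [e, ENNReal.coe_mul]
        ring

theorem sel_ball (hΨ : Cal N R Ψ) {p : ℝ} (h1 : 1 < p) (h2 : p < 2) {u : ℕ → X}
    {v : ℕ → (X →L[ℂ] ℂ)} {S : ℝ≥0} (hW : Wt p u v S) (m : Measure ℂ) [SFinite m] (hm : LogBd m)
    {r ρ : ℝ} (hr : 0 < r) (hρ : 0 < ρ) :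
    ∀ᵐ t ∂(m.restrict (ball (0:ℂ) r)), ∃ B : ℝ≥0, ∃ᶠ n in atTop, Gd hΨ u v t ρ B n := by
  have hp0 : (0:ℝ) ≤ p := by linarith
  obtain ⟨C, hC⟩ := pot_mat m hm h1 h2 hr
  obtain ⟨D, hD⟩ := exists_CB hΨ h1 h2 hρ
  have hKm : ∀ (w : StrongDual ℂ X) (x : X), Measurable (Kf hΨ w x) := fun w x =>
    (Kf_spec hΨ w x).meas
  have hV : volume (ball (0:ℂ) ρ) ≠ ⊤ := measure_ball_lt_top.ne
  have hDp : (D : ℝ≥0∞) ^ p ≠ ⊤ := ENNReal.rpow_ne_top_of_nonneg hp0 ENNReal.coe_ne_top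
  have hfin : (C : ℝ≥0∞) * (D * S + D ^ p * S * S + volume (ball (0:ℂ) ρ)) ≠ ⊤ := by
    refine ENNReal.mul_ne_top ENNReal.coe_ne_top (ENNReal.add_ne_top.2 ⟨ENNReal.add_ne_top.2
      ⟨ENNReal.mul_ne_top ENNReal.coe_ne_top ENNReal.coe_ne_top, ?_⟩, hV⟩)
    exact ENNReal.mul_ne_top (ENNReal.mul_ne_top hDp ENNReal.coe_ne_top) ENNReal.coe_ne_top
  obtain ⟨C', hC'⟩ : ∃ C' : ℝ≥0, (C' : ℝ≥0∞) = _ := ⟨_, ENNReal.coe_toNNReal hfin⟩
  have hsel := Pool.Agent.Y487.NK.main_sel m r ρ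
    (fun n z t => lm ‖((1 : Matrix (Fin n) (Fin n) ℂ) - t • FF hΨ u v n z).det‖) C'
    (fun n => Pool.Agent.Y604.NK.meas_lm.comp (FF_meas hΨ u v n).norm) (fun n => ?_)
  · filter_upwards [hsel] with t ht
    obtain ⟨I, B, hI, h⟩ := ht
    refine ⟨B, ?_⟩
    exact (Nat.frequently_atTop_iff_infinite.2 hI).mono h
  rw [hC']
  have m3 : ∀ i : Fin n, Measurable fun z => ‖FF hΨ u v n z i i‖ₑ := fun i =>
    (hKm (v i) (u i)).enorm
  have m4 : ∀ i k : Fin n, Measurable fun z => ‖FF hΨ u v n z i k‖ₑ ^ p := fun i k =>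
    (hKm (v i) (u k)).enorm.pow_const p
  have m5 : ∀ i : Fin n, Measurable fun z => ∑ k, ‖FF hΨ u v n z i k‖ₑ ^ p := fun i =>
    Finset.measurable_sum _ fun k _ => m4 i k
  have m6 : Measurable fun z => ∑ i, ‖FF hΨ u v n z i i‖ₑ :=
    Finset.measurable_sum _ fun i _ => m3 i
  have m7 : Measurable fun z => ∑ i, ∑ k, ‖FF hΨ u v n z i k‖ₑ ^ p :=
    Finset.measurable_sum _ fun i _ => m5 i
  have m8 : Measurable fun z => ∑ i, ‖FF hΨ u v n z i i‖ₑ + ∑ i, ∑ k, ‖FF hΨ u v n z i k‖ₑ ^ p :=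
    m6.add m7
  have m9 : Measurable fun z => ∑ i, ‖FF hΨ u v n z i i‖ₑ +
      ∑ i, ∑ k, ‖FF hΨ u v n z i k‖ₑ ^ p + 1 := m8.add measurable_const
  calc ∫⁻ z in ball (0:ℂ) ρ, ∫⁻ t in ball (0:ℂ) r,
        lm ‖((1 : Matrix (Fin n) (Fin n) ℂ) - t • FF hΨ u v n z).det‖ ∂m
      ≤ ∫⁻ z in ball (0:ℂ) ρ, C * (∑ i, ‖FF hΨ u v n z i i‖ₑ +
        ∑ i, ∑ k, ‖FF hΨ u v n z i k‖ₑ ^ p + 1) := lintegral_mono fun z => hC n _
    _ = C * ((∑ i, ∫⁻ z in ball (0:ℂ) ρ, ‖FF hΨ u v n z i i‖ₑ) +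
        (∑ i, ∑ k, ∫⁻ z in ball (0:ℂ) ρ, ‖FF hΨ u v n z i k‖ₑ ^ p) +
        volume (ball (0:ℂ) ρ)) := by
        rw [lintegral_const_mul _ m9, lintegral_add_left m8,
          lintegral_add_left m6, lintegral_finsetSum _ (fun i _ => m3 i),
          lintegral_finsetSum _ (fun i _ => m5 i), lintegral_const, one_mul,
          Measure.restrict_apply_univ]
        congr 3
        exact Finset.sum_congr rfl fun i _ => lintegral_finsetSum _ (fun k _ => m4 i k)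
    _ ≤ _ := by
        refine mul_le_mul' le_rfl (add_le_add (add_le_add ?_ ?_) le_rfl)
        · calc _ ≤ ∑ i : Fin n, D * (‖v i‖ₑ * ‖u i‖ₑ) := by
                refine Finset.sum_le_sum fun i _ => ?_
                exact ((hD _ _ _ (Kf_spec hΨ (v i) (u i))).1).trans_eq (mul_assoc _ _ _)
            _ = D * ∑ i : Fin n, ‖v i‖ₑ * ‖u i‖ₑ := by rw [Finset.mul_sum]
            _ ≤ _ := by
                refine mul_le_mul' le_rfl ?_
                rw [← Finset.sum_range fun k => ‖v k‖ₑ * ‖u k‖ₑ]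
                exact hW.huv n
        · calc _ ≤ ∑ i : Fin n, ∑ k : Fin n, D ^ p * ((‖v i‖ₑ) ^ p * (‖u k‖ₑ) ^ p) := by
                refine Finset.sum_le_sum fun i _ => Finset.sum_le_sum fun k _ => ?_
                refine ((hD _ _ _ (Kf_spec hΨ (v i) (u k))).2).trans_eq ?_
                rw [ENNReal.mul_rpow_of_nonneg _ _ hp0, ENNReal.mul_rpow_of_nonneg _ _ hp0]
                ring
            _ = D ^ p * (∑ i : Fin n, ‖v i‖ₑ ^ p) * (∑ k : Fin n, ‖u k‖ₑ ^ p) := by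
                rw [mul_assoc, Finset.sum_mul_sum, Finset.mul_sum]
                refine Finset.sum_congr rfl fun i _ => ?_
                rw [Finset.mul_sum]
            _ ≤ _ := by
                refine mul_le_mul' (mul_le_mul' le_rfl ?_) ?_
                · rw [← Finset.sum_range fun k => ‖v k‖ₑ ^ p]
                  exact hW.hv n
                · rw [← Finset.sum_range fun k => ‖u k‖ₑ ^ p]
                  exact hW.hu n

theorem sel (hΨ : Cal N R Ψ) {p : ℝ} (h1 : 1 < p) (h2 : p < 2) {u : ℕ → X}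
    {v : ℕ → (X →L[ℂ] ℂ)} {S : ℝ≥0} (hW : Wt p u v S) (m : Measure ℂ) [SFinite m] (hm : LogBd m) :
    ∀ᵐ t ∂m, ∀ ρ : ℕ, ∃ B : ℝ≥0, ∃ᶠ n in atTop, Gd hΨ u v t ρ B n := by
  have h3 : ∀ r : ℕ, ∀ᵐ t ∂(m.restrict (ball (0:ℂ) (r + 1))), ∀ ρ : ℕ, ∃ B : ℝ≥0,
      ∃ᶠ n in atTop, Gd hΨ u v t ρ B n := by
    intro r
    refine ae_all_iff.2 fun ρ => ?_
    rcases Nat.eq_zero_or_pos ρ with h0 | h0
    · refine Eventually.of_forall fun t => ⟨0, Frequently.of_forall fun n => ?_⟩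
      rw [h0]
      unfold Gd
      rw [Nat.cast_zero, ball_zero, Measure.restrict_empty, lintegral_zero_measure]
      exact zero_le
    · exact sel_ball hΨ h1 h2 hW m hm (by positivity) (by exact_mod_cast h0)
  have h4 : ∀ r : ℕ, ∀ᵐ t ∂m, t ∈ ball (0:ℂ) (r + 1) → ∀ ρ : ℕ, ∃ B : ℝ≥0,
      ∃ᶠ n in atTop, Gd hΨ u v t ρ B n := fun r => (ae_restrict_iff' measurableSet_ball).1 (h3 r)
  filter_upwards [ae_all_iff.2 h4] with t ht
  obtain ⟨r, hr⟩ := exists_nat_gt ‖t‖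
  refine ht r ?_
  rw [mem_ball_zero_iff]
  linarith

end Pool.Agent.Q98.NR
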