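import Pool.Agent.Q98.NR.Ess2
import Pool.Agent.Q98.NR.Sel

/-!
# Nuclear perturbations on reflexive spaces: the theorem
-/

set_option autoImplicit false

namespace Pool.Agent.Q98.NR

open MeasureTheory Set Metric Filter Topology Matrix
open scoped ENNReal NNReal ComplexConjugate ContDiff
open Pool.Agent.Y283.NK (lm LogBd)
open Pool.Agent.Q98.RB

variable {X : Type} [NormedAddCommGroup X] [NormedSpace ℂ X]

/-! ### The weights -/

theorem summable_mono {c : ℕ → ℝ} (hc : ∀ i, 0 ≤ c i) {q q' : ℝ} (hq : 0 < q) (hqq : q ≤ q')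
    (h : Summable fun i => c i ^ q) : Summable fun i => c i ^ q' := by
  have h1 := h.tendsto_atTop_zero
  have h2 : ∀ᶠ i in atTop, c i ^ q < 1 := h1.eventually_lt_const one_pos
  have h3 : ∀ᶠ i in atTop, ‖c i ^ q'‖ ≤ c i ^ q := by
    filter_upwards [h2] with i hi
    have hci : c i ≤ 1 := by
      by_contra hcon
      push Not at hcon
      have := Real.one_le_rpow hcon.le hq.le
      linarith
    rw [Real.norm_of_nonneg (Real.rpow_nonneg (hc i) _)]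
    rcases (hc i).eq_or_lt with h0 | h0
    · rw [← h0, Real.zero_rpow hq.ne', Real.zero_rpow (by linarith)]
    · exact Real.rpow_le_rpow_of_exponent_ge h0 hci hqq
  exact Summable.of_norm_bounded_eventually_nat h h3

/-- rescaling to equal norms -/
theorem rescale (u : X) (v : X →L[ℂ] ℂ) : ∃ (u' : X) (v' : X →L[ℂ] ℂ),
    v'.smulRight u' = v.smulRight u ∧ ‖u'‖ = Real.sqrt (‖u‖ * ‖v‖) ∧
      ‖v'‖ = Real.sqrt (‖u‖ * ‖v‖) := by
  by_cases h : ‖u‖ * ‖v‖ = 0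
  · refine ⟨0, 0, ?_, ?_, ?_⟩
    · rcases mul_eq_zero.1 h with h0 | h0
      · rw [norm_eq_zero] at h0
        ext x
        simp [h0]
      · rw [norm_eq_zero] at h0
        ext x
        simp [h0]
    · rw [h, Real.sqrt_zero, norm_zero]
    · rw [h, Real.sqrt_zero, norm_zero]
  · have hu : ‖u‖ ≠ 0 := left_ne_zero_of_mul h
    have hv : ‖v‖ ≠ 0 := right_ne_zero_of_mul h
    have hu0 : 0 < ‖u‖ := lt_of_le_of_ne (norm_nonneg _) hu.symm
    have hv0 : 0 < ‖v‖ := lt_of_le_of_ne (norm_nonneg _) hv.symm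
    obtain ⟨s, hs⟩ : ∃ s : ℝ, s = Real.sqrt (‖u‖ * ‖v‖) := ⟨_, rfl⟩
    have hs0 : 0 < s := by
      rw [hs]
      positivity
    have hs2 : s * s = ‖u‖ * ‖v‖ := by
      rw [hs]
      exact Real.mul_self_sqrt (by positivity)
    have hsc : (s : ℂ) ≠ 0 := by exact_mod_cast hs0.ne'
    have huc : (‖u‖ : ℂ) ≠ 0 := by exact_mod_cast hu
    rw [← hs]
    refine ⟨((s / ‖u‖ : ℝ) : ℂ) • u, ((‖u‖ / s : ℝ) : ℂ) • v, ?_, ?_, ?_⟩
    · ext x
      simp only [ContinuousLinearMap.smulRight_apply, FunLike.coe_smul, Pi.smul_apply, smul_eq_mul]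
      rw [smul_smul]
      congr 1
      push_cast
      field_simp
    · rw [norm_smul, Complex.norm_real, Real.norm_of_nonneg (by positivity)]
      field_simp
    · rw [norm_smul, Complex.norm_real, Real.norm_of_nonneg (by positivity),
        div_mul_eq_mul_div, ← hs2]
      field_simp

theorem ofReal_sum_le {f : ℕ → ℝ} (hf : ∀ i, 0 ≤ f i) (hs : Summable f) (n : ℕ) :
    ∑ i ∈ Finset.range n, ENNReal.ofReal (f i) ≤ ENNReal.ofReal (∑' i, f i) := by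
  rw [← ENNReal.ofReal_sum_of_nonneg fun i _ => hf i]
  exact ENNReal.ofReal_le_ofReal (hs.sum_le_tsum _ fun i _ => hf i)

/-- the data of the theorem -/
theorem data [CompleteSpace X] {u : ℕ → X} {v : ℕ → (X →L[ℂ] ℂ)} {q : ℝ} (hq0 : 0 < q)
    (hq1 : q < 1) (hs : Summable fun i => (‖u i‖ * ‖v i‖) ^ q) {K : X →L[ℂ] X}
    (hK : ∀ x, HasSum (fun i => v i x • u i) (K x)) :
    ∃ (p : ℝ) (u' : ℕ → X) (v' : ℕ → (X →L[ℂ] ℂ)) (S : ℝ≥0), 1 < p ∧ p < 2 ∧ Wt p u' v' S ∧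
      Tendsto (Ks u' v') atTop (𝓝 K) := by
  choose u' v' h1 h2 h3 using fun i => rescale (u i) (v i)
  obtain ⟨q', hq'⟩ : ∃ q' : ℝ, q' = (max q (1 / 2) + 1) / 2 := ⟨_, rfl⟩
  have hm1 : max q (1 / 2) < 1 := max_lt hq1 (by norm_num)
  have hm2 : 1 / 2 ≤ max q (1 / 2) := le_max_right _ _
  have hm3 : q ≤ max q (1 / 2) := le_max_left _ _
  have hqq : q ≤ q' := by rw [hq']; linarith
  have hc : ∀ i, 0 ≤ ‖u i‖ * ‖v i‖ := fun i => by positivity
  have s1 : Summable fun i => (‖u i‖ * ‖v i‖) ^ q' := summable_mono hc hq0 hqq hs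
  have s2 : Summable fun i => ‖u i‖ * ‖v i‖ := by
    have := summable_mono hc hq0 hq1.le hs
    simpa only [Real.rpow_one] using this
  have e1 : ∀ i, Real.sqrt (‖u i‖ * ‖v i‖) ^ (2 * q') = (‖u i‖ * ‖v i‖) ^ q' := by
    intro i
    rw [Real.sqrt_eq_rpow, ← Real.rpow_mul (hc i)]
    congr 1
    ring
  have hp : (0:ℝ) ≤ 2 * q' := by rw [hq']; linarith
  obtain ⟨S₁, hS₁⟩ : ∃ S : ℝ≥0, S = Real.toNNReal (∑' i, (‖u i‖ * ‖v i‖) ^ q') := ⟨_, rfl⟩
  obtain ⟨S₂, hS₂⟩ : ∃ S : ℝ≥0, S = Real.toNNReal (∑' i, ‖u i‖ * ‖v i‖) := ⟨_, rfl⟩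
  refine ⟨2 * q', u', v', max S₁ S₂, by rw [hq']; linarith, by rw [hq']; linarith, ⟨?_, ?_, ?_⟩, ?_⟩
  · intro n
    have e : ∀ i, ‖u' i‖ₑ ^ (2 * q') = ENNReal.ofReal ((‖u i‖ * ‖v i‖) ^ q') := by
      intro i
      rw [← ofReal_norm, h2, ENNReal.ofReal_rpow_of_nonneg (Real.sqrt_nonneg _) hp, e1]
    simp only [e]
    calc _ ≤ ENNReal.ofReal (∑' i, (‖u i‖ * ‖v i‖) ^ q') :=
          ofReal_sum_le (fun i => Real.rpow_nonneg (hc i) _) s1 n
      _ = (S₁ : ℝ≥0∞) := by rw [hS₁]; rfl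
      _ ≤ _ := by exact_mod_cast le_max_left _ _
  · intro n
    have e : ∀ i, ‖v' i‖ₑ ^ (2 * q') = ENNReal.ofReal ((‖u i‖ * ‖v i‖) ^ q') := by
      intro i
      rw [← ofReal_norm, h3, ENNReal.ofReal_rpow_of_nonneg (Real.sqrt_nonneg _) hp, e1]
    simp only [e]
    calc _ ≤ ENNReal.ofReal (∑' i, (‖u i‖ * ‖v i‖) ^ q') :=
          ofReal_sum_le (fun i => Real.rpow_nonneg (hc i) _) s1 n
      _ = (S₁ : ℝ≥0∞) := by rw [hS₁]; rfl
      _ ≤ _ := by exact_mod_cast le_max_left _ _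
  · intro n
    have e : ∀ i, ‖v' i‖ₑ * ‖u' i‖ₑ = ENNReal.ofReal (‖u i‖ * ‖v i‖) := by
      intro i
      rw [← ofReal_norm, ← ofReal_norm, h2, h3, ← ENNReal.ofReal_mul (Real.sqrt_nonneg _),
        Real.mul_self_sqrt (hc i)]
    simp only [e]
    calc _ ≤ ENNReal.ofReal (∑' i, ‖u i‖ * ‖v i‖) := ofReal_sum_le hc s2 n
      _ = (S₂ : ℝ≥0∞) := by rw [hS₂]; rfl
      _ ≤ _ := by exact_mod_cast le_max_right _ _
  · have e : Ks u' v' = fun n => ∑ i ∈ Finset.range n, (v i).smulRight (u i) := by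
      funext n
      unfold Ks
      exact Finset.sum_congr rfl fun i _ => h1 i
    have hsum : Summable fun i => ((v i).smulRight (u i) : X →L[ℂ] X) := by
      refine Summable.of_norm_bounded s2 fun i => ?_
      rw [ContinuousLinearMap.norm_smulRight_apply, mul_comm]
    have hlim := hsum.hasSum.tendsto_sum_nat
    have hK' : ∑' i, ((v i).smulRight (u i) : X →L[ℂ] X) = K := by
      ext x
      have h4 := (ContinuousLinearMap.apply ℂ X x).hasSum hsum.hasSum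
      have h5 : HasSum (fun i => v i x • u i)
          ((∑' i, ((v i).smulRight (u i) : X →L[ℂ] X)) x) := h4
      exact h5.unique (hK x)
    rw [e]
    rw [hK'] at hlim
    exact hlim

/-! ### Adjoints -/

/-- the images of the vectors in the bidual space -/
noncomputable def uu (u : ℕ → X) : ℕ → (StrongDual ℂ X →L[ℂ] ℂ) := fun i =>
  NormedSpace.inclusionInDoubleDual ℂ X (u i)

theorem tr_Ks (u : ℕ → X) (v : ℕ → (X →L[ℂ] ℂ)) (n : ℕ) : tr (Ks u v n) = Ks v (uu u) n := by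
  ext w x
  rw [Ks_apply]
  show w (Ks u v n x) = _
  rw [Ks_apply, map_sum, _root_.sum_apply]
  refine Finset.sum_congr rfl fun i _ => ?_
  show w (v i x • u i) = w (u i) * v i x
  rw [map_smul, smul_eq_mul, mul_comm]

theorem Wt.dual {p : ℝ} {u : ℕ → X} {v : ℕ → (X →L[ℂ] ℂ)} {S : ℝ≥0} (h : Wt p u v S) :
    Wt (X := StrongDual ℂ X) p v (uu u) S := by
  have e : ∀ i, ‖uu u i‖ₑ = ‖u i‖ₑ := fun i =>
    (NormedSpace.inclusionInDoubleDualLi ℂ (E := X)).enorm_map (u i)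
  refine ⟨h.hv, fun n => ?_, fun n => ?_⟩
  · simp only [e]
    exact h.hu n
  · simp only [e]
    calc _ = ∑ i ∈ Finset.range n, ‖v i‖ₑ * ‖u i‖ₑ :=
          Finset.sum_congr rfl fun i _ => mul_comm _ _
      _ ≤ S := h.huv n

variable {N : X →L[ℂ] X} {R : ℝ} {Ψ : C(DD R, ℂ) →ₐ[ℂ] (X →L[ℂ] X)}

theorem tendsto_tr {u : ℕ → X} {v : ℕ → (X →L[ℂ] ℂ)} {K : X →L[ℂ] X}
    (hK : Tendsto (Ks u v) atTop (𝓝 K)) : Tendsto (Ks v (uu u)) atTop (𝓝 (tr K)) := by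
  have h1 := (tr.continuous.tendsto K).comp hK
  have e : (⇑tr ∘ Ks u v) = Ks v (uu u) := by
    funext n
    exact tr_Ks u v n
  rwa [e] at h1

theorem Ks_compact (u : ℕ → X) (v : ℕ → (X →L[ℂ] ℂ)) (n : ℕ) : IsCompactOperator (⇑(Ks u v n)) := by
  have h2 : Ks u v n ∈ (compactOperator (RingHom.id ℂ) X X : Submodule ℂ (X →L[ℂ] X)) := by
    unfold Ks
    exact Submodule.sum_mem _ fun i _ => rank_compact (u i) (v i)
  exact h2

theorem K_compact [CompleteSpace X] {u : ℕ → X} {v : ℕ → (X →L[ℂ] ℂ)} {K : X →L[ℂ] X}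
    (hK : Tendsto (Ks u v) atTop (𝓝 K)) : IsCompactOperator (⇑K) :=
  isCompactOperator_of_tendsto hK (Eventually.of_forall fun n => Ks_compact u v n)

/-- the conclusion at the good couplings -/
theorem fin [CompleteSpace X] (hX : Refl X) (hΨ : Cal N R Ψ) {p : ℝ} (h1 : 1 < p) (h2 : p < 2)
    {u : ℕ → X} {v : ℕ → (X →L[ℂ] ℂ)} {S : ℝ≥0} (hW : Wt p u v S)
    {K : X →L[ℂ] X} (hK : Tendsto (Ks u v) atTop (𝓝 K)) {t : ℂ}
    (hG : ∀ ρ : ℕ, ∃ B : ℝ≥0, ∃ᶠ n in atTop, Gd hΨ u v t ρ B n)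
    (hG' : ∀ ρ : ℕ, ∃ B : ℝ≥0, ∃ᶠ n in atTop, Gd hΨ.tr v (uu u) t ρ B n) :
    (∃ c : ℂ, N + t • K = c • 1) ∨ HasHyp (N + t • K) := by
  have htr : tr (N + t • K) = tr N + t • tr K := by rw [map_add, map_smul]
  by_cases h : ∃ a b : ℂ, a ≠ b ∧ Ess Ψ a ∧ Ess Ψ b
  · right
    obtain ⟨a, b, hab, ha, hb⟩ := h
    have hdist : 0 < ‖a - b‖ := norm_pos_iff.2 (sub_ne_zero.2 hab)
    obtain ⟨x, ⟨X1, C₁, X2⟩, X3⟩ := chains hX hΨ h1 h2 hW hK hG ha (r := ‖a - b‖ / 3)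
      (by positivity)
    obtain ⟨Y, ⟨Y1, C₂, Y2⟩, Y3⟩ := chains hX.dual hΨ.tr h1 h2 hW.dual (tendsto_tr hK) hG' hb.tr
      (r := ‖a - b‖ / 3) (by positivity)
    rw [← htr] at Y1
    exact ann (N + t • K) a b _ _ C₁ C₂ x Y (by positivity)
      (by positivity) (by linarith) X1 X2 Y1 Y2 X3 Y3
  · have h3 : ∃ a₀ : ℂ, ∀ a, a ≠ a₀ → ¬ Ess Ψ a := by
      by_cases h2 : ∃ a, Ess Ψ a
      · obtain ⟨a, ha⟩ := h2
        exact ⟨a, fun b hb hE => h ⟨a, b, hb.symm, ha, hE⟩⟩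
      · exact ⟨0, fun a _ hE => h2 ⟨a, hE⟩⟩
    obtain ⟨a, ha⟩ := h3
    have hc := compact_of_one hΨ a ha
    by_cases hsc : ∃ c : ℂ, N + t • K = c • 1
    · exact Or.inl hsc
    right
    have h1 : IsCompactOperator (⇑((N + t • K) - a • (1 : X →L[ℂ] X))) := by
      have h4 : (N + t • K) - a • (1 : X →L[ℂ] X) =
          (N - a • (1 : X →L[ℂ] X)) + t • K := by abel
      rw [h4]
      exact hc.add ((K_compact hK).smul t)
    refine hyp_shift a (Pool.Agent.W577.HI.G1.main _ _ h1 ?_)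
    rintro ⟨c, hc⟩
    apply hsc
    refine ⟨c + a, ?_⟩
    rw [add_smul, ← hc]
    abel

/-- the theorem for a calculus on a disc -/
theorem fin_ae [CompleteSpace X] (hX : Refl X) (hΨ : Cal N R Ψ) {u : ℕ → X}
    {v : ℕ → (X →L[ℂ] ℂ)} {q : ℝ} (hq0 : 0 < q) (hq1 : q < 1)
    (hs : Summable fun i => (‖u i‖ * ‖v i‖) ^ q) {K : X →L[ℂ] X}
    (hK : ∀ x, HasSum (fun i => v i x • u i) (K x)) (m : Measure ℂ) [SFinite m] (hm : LogBd m) :
    ∀ᵐ t ∂m, (∃ c : ℂ, N + t • K = c • 1) ∨ HasHyp (N + t • K) := by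
  obtain ⟨p, u', v', S, h1, h2, hW, hK'⟩ := data hq0 hq1 hs hK
  filter_upwards [sel hΨ h1 h2 hW m hm, sel hΨ.tr h1 h2 hW.dual m hm] with t h3 h4
  exact fin hX hΨ h1 h2 hW hK' h3 h4

end Pool.Agent.Q98.NR
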