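import Pool.Agent.Y891.NK.POT
import Pool.Agent.Y487.NK.SEL

/-!
# Nuclear perturbations on reflexive spaces: two estimates for analytic functions

* `submean`: the mean value inequality for `log |f|` on discs.
* `pot`: the integral of `log⁻ |D|` for a polynomial `D` with `D(0) = 1`, with respect to a measure with
  bounded logarithmic potentials, is bounded by the maximum of `log |D|` on a larger disc.
-/

set_option autoImplicit false

namespace Pool.Agent.Q98.NR

open MeasureTheory Set Metric Filter Topology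
open scoped ENNReal NNReal
open Pool.Agent.Y283.NK (lm LogBd)
open Pool.Agent.Y891.NK (lm_mul lm_prod lm_anti lm_le_of_exp measurable_lm)

/-- maximum modulus on a disc -/
theorem max_mod {g : ℂ → ℂ} (hg : Differentiable ℂ g) {ρ B : ℝ} (hρ : 0 < ρ)
    (h : ∀ t, ‖t‖ = ρ → ‖g t‖ ≤ B) {t : ℂ} (ht : ‖t‖ ≤ ρ) : ‖g t‖ ≤ B := by
  refine Complex.norm_le_of_forall_mem_frontier_norm_le (U := ball (0:ℂ) ρ) isBounded_ball
    hg.diffContOnCl ?_ ?_
  · intro z hz
    rw [frontier_ball 0 hρ.ne', mem_sphere_zero_iff_norm] at hz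
    exact h z hz
  · rw [closure_ball 0 hρ.ne', mem_closedBall_zero_iff]
    exact ht

/-- the number of the zeros in the disc of radius `2 R` -/
theorem near_card {ι : Type} (F : Finset ι) (μ : ι → ℂ) {R M : ℝ} (hR : 0 < R)
    (h : ∀ t : ℂ, ‖t‖ ≤ 4 * R → ‖∏ k ∈ F, (1 - t * μ k)‖ ≤ Real.exp M) :
    ((F.filter fun k => 1 / (2 * R) ≤ ‖μ k‖).card : ℝ) * Real.log 2 ≤ M := by
  classical
  set G := F.filter fun k => 1 / (2 * R) ≤ ‖μ k‖ with hG
  have hμ : ∀ k ∈ G, μ k ≠ 0 := by
    intro k hk h0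
    have := (Finset.mem_filter.1 hk).2
    rw [h0, norm_zero] at this
    have : 0 < 1 / (2 * R) := by positivity
    linarith
  let D : ℂ → ℂ := fun t => (∏ k ∈ F.filter fun k => ¬ (1 / (2 * R) ≤ ‖μ k‖), (1 - t * μ k)) *
    ∏ k ∈ G, μ k * (4 * R - t * star ((μ k)⁻¹) / (4 * R))
  have hD : Differentiable ℂ D := by
    refine Differentiable.mul ?_ ?_
    · exact Differentiable.fun_finsetProd fun k _ => by fun_prop
    · exact Differentiable.fun_finsetProd fun k _ => by fun_prop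
  have h4R : (0:ℝ) < 4 * R := by positivity
  have hc : (4 * (R:ℂ)) ≠ 0 := by
    have : ((4 * R : ℝ) : ℂ) ≠ 0 := by exact_mod_cast h4R.ne'
    simpa using this
  have hbd : ∀ t : ℂ, ‖t‖ = 4 * R → ‖D t‖ ≤ Real.exp M := by
    intro t ht
    refine le_trans (le_of_eq ?_) (h t ht.le)
    simp only [D]
    rw [← Finset.prod_filter_mul_prod_filter_not F (fun k => 1 / (2 * R) ≤ ‖μ k‖)
      (fun k => 1 - t * μ k), mul_comm, norm_mul, norm_mul, norm_prod, norm_prod G]
    congr 1
    refine Finset.prod_congr rfl fun k hk => ?_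
    have h0 := hμ k hk
    have e1 : t * star t = ((4 * R : ℝ) : ℂ) ^ 2 := by
      rw [RCLike.star_def, Complex.mul_conj, Complex.normSq_eq_norm_sq, ht]
      push_cast
      ring
    have e2 : 1 - t * μ k = μ k * ((μ k)⁻¹ - t) := by field_simp
    have e3 : (4 * (R:ℂ) - t * star ((μ k)⁻¹) / (4 * R)) * (4 * R) =
        t * (star t - star ((μ k)⁻¹)) := by
      rw [mul_sub t, e1, sub_mul, div_mul_cancel₀ _ hc]
      push_cast
      ring
    rw [e2, norm_mul, norm_mul]
    congr 1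
    have e4 := congrArg (fun z : ℂ => ‖z‖) e3
    simp only [norm_mul, ← star_sub, norm_star] at e4
    have e5 : ‖(4:ℂ)‖ * ‖(R:ℂ)‖ = 4 * R := by
      rw [Complex.norm_real, Real.norm_of_nonneg hR.le]
      norm_num
    rw [e5, ht, mul_comm] at e4
    have e6 := mul_left_cancel₀ h4R.ne' e4
    rw [norm_sub_rev t] at e6
    exact e6
  have h0 := max_mod hD h4R hbd (t := 0) (by rw [norm_zero]; positivity)
  have h1 : ‖D 0‖ = ∏ k ∈ G, ‖μ k‖ * (4 * R) := by
    simp only [D]
    rw [norm_mul, norm_prod, norm_prod]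
    have e1 : ∏ k ∈ F.filter fun k => ¬ (1 / (2 * R) ≤ ‖μ k‖), ‖1 - 0 * μ k‖ = 1 :=
      Finset.prod_eq_one fun k _ => by simp
    rw [e1, one_mul]
    refine Finset.prod_congr rfl fun k _ => ?_
    rw [zero_mul, zero_div, sub_zero, norm_mul, norm_mul, Complex.norm_real,
      Real.norm_of_nonneg hR.le]
    norm_num
  rw [h1] at h0
  have h2 : (2:ℝ) ^ G.card ≤ ∏ k ∈ G, ‖μ k‖ * (4 * R) := by
    rw [← Finset.prod_const]
    refine Finset.prod_le_prod (fun _ _ => by norm_num) fun k hk => ?_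
    have h3 := (Finset.mem_filter.1 hk).2
    rw [div_le_iff₀ (by positivity)] at h3
    linarith
  have h3 := Real.log_le_log (by positivity) (h2.trans h0)
  rwa [Real.log_exp, Real.log_pow] at h3

/-- the part without zeros -/
theorem far_bd {ι : Type} (F : Finset ι) (μ : ι → ℂ) {R M : ℝ} (hR : 0 < R) (hM : 0 < M)
    (h : ∀ t : ℂ, ‖t‖ ≤ 4 * R → ‖∏ k ∈ F, (1 - t * μ k)‖ ≤ Real.exp M) {t : ℂ} (ht : ‖t‖ < R) :
    lm ‖∏ k ∈ F.filter fun k => ¬ (1 / (2 * R) ≤ ‖μ k‖), (1 - t * μ k)‖ ≤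
      ENNReal.ofReal (2 * M) := by
  classical
  set G := F.filter fun k => ¬ (1 / (2 * R) ≤ ‖μ k‖) with hG
  have h4R : (0:ℝ) < 4 * R := by positivity
  have hg : Differentiable ℂ fun t : ℂ => ∏ k ∈ G, (1 - t * μ k) :=
    Differentiable.fun_finsetProd fun k _ => by fun_prop
  have hgb : ∀ t : ℂ, ‖t‖ ≤ 4 * R → ‖∏ k ∈ G, (1 - t * μ k)‖ ≤ Real.exp M := by
    intro t ht
    refine max_mod hg h4R (fun t ht => ?_) ht
    refine le_trans ?_ (h t ht.le)
    rw [← Finset.prod_filter_mul_prod_filter_not F (fun k => 1 / (2 * R) ≤ ‖μ k‖)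
      (fun k => 1 - t * μ k), norm_mul]
    refine le_mul_of_one_le_left (norm_nonneg _) ?_
    rw [norm_prod]
    calc (1:ℝ) = ∏ k ∈ F.filter fun k => 1 / (2 * R) ≤ ‖μ k‖, 1 := by rw [Finset.prod_const_one]
      _ ≤ _ := by
        refine Finset.prod_le_prod (fun _ _ => zero_le_one) fun k hk => ?_
        have h3 := (Finset.mem_filter.1 hk).2
        rw [div_le_iff₀ (by positivity)] at h3
        have h5 : ‖t * μ k‖ - ‖(1:ℂ)‖ ≤ ‖1 - t * μ k‖ := by
          rw [norm_sub_rev]
          exact norm_sub_norm_le _ _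
        rw [norm_mul, ht, norm_one] at h5
        linarith
  have hmem : ∀ k ∈ G, ∀ t ∈ ball (0:ℂ) (2 * R), 0 < (1 - t * μ k).re := by
    intro k hk t ht
    have h3 := (Finset.mem_filter.1 hk).2
    rw [not_le] at h3
    rw [mem_ball_zero_iff] at ht
    have h5 : ‖t * μ k‖ < 1 := by
      rw [norm_mul]
      calc ‖t‖ * ‖μ k‖ ≤ (2 * R) * ‖μ k‖ := mul_le_mul_of_nonneg_right ht.le (norm_nonneg _)
        _ < (2 * R) * (1 / (2 * R)) := mul_lt_mul_of_pos_left h3 (by positivity)
        _ = 1 := by field_simp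
    rw [Complex.sub_re, Complex.one_re]
    have h6 := Complex.re_le_norm (t * μ k)
    linarith
  let φ : ℂ → ℂ := fun t => ∑ k ∈ G, Complex.log (1 - t * μ k)
  have hφd : DifferentiableOn ℂ φ (ball 0 (2 * R)) := by
    refine DifferentiableOn.fun_sum fun k hk t ht => ?_
    refine DifferentiableAt.differentiableWithinAt ?_
    exact (by fun_prop : DifferentiableAt ℂ (fun t => 1 - t * μ k) t).clog
      (Or.inl (hmem k hk t ht))
  have hφe : ∀ t ∈ ball (0:ℂ) (2 * R), Complex.exp (φ t) = ∏ k ∈ G, (1 - t * μ k) := by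
    intro t ht
    simp only [φ]
    rw [Complex.exp_sum]
    refine Finset.prod_congr rfl fun k hk => Complex.exp_log ?_
    intro h0
    have := hmem k hk t ht
    rw [h0] at this
    simp at this
  have hφr : MapsTo φ (ball 0 (2 * R)) {z | z.re ≤ M} := by
    intro t ht
    have h1 := hgb t (by rw [mem_ball_zero_iff] at ht; linarith)
    rw [← hφe t ht, Complex.norm_exp] at h1
    exact Real.exp_le_exp.1 h1
  have ht2 : t ∈ ball (0:ℂ) (2 * R) := by rw [mem_ball_zero_iff]; linarith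
  have h1 := Complex.borelCaratheodory_zero hM hφd hφr (by positivity) ht2 (by simp [φ])
  have h2 : ‖φ t‖ ≤ 2 * M := by
    refine h1.trans ?_
    rw [div_le_iff₀ (by linarith)]
    nlinarith [norm_nonneg t]
  rw [← hφe t ht2, Complex.norm_exp]
  refine lm_le_of_exp (Real.exp_pos _) (by positivity) ?_
  rw [← Real.exp_neg]
  refine Real.exp_le_exp.2 ?_
  have h3 := Complex.abs_re_le_norm (φ t)
  have h4 := neg_le_abs (φ t).re
  linarith

theorem pot (m : Measure ℂ) (hm : LogBd m) {R : ℝ} (hR : 0 < R) : ∃ C : ℝ≥0, ∀ (ι : Type)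
    (F : Finset ι) (μ : ι → ℂ) (M : ℝ), 0 < M →
    (∀ t : ℂ, ‖t‖ ≤ 4 * R → ‖∏ k ∈ F, (1 - t * μ k)‖ ≤ Real.exp M) →
    ∫⁻ t in ball (0:ℂ) R, lm ‖∏ k ∈ F, (1 - t * μ k)‖ ∂m ≤ C * ENNReal.ofReal M := by
  classical
  obtain ⟨C0, hmass, hpot⟩ := hm R
  obtain ⟨P, hP⟩ : ∃ P : ℝ≥0, (P : ℝ≥0∞) = lm (1 / (2 * R)) := by
    refine ⟨(lm (1 / (2 * R))).toNNReal, ENNReal.coe_toNNReal ?_⟩
    unfold lm
    rw [if_neg (by positivity)]
    exact ENNReal.ofReal_ne_top
  -- one near factor
  have hone : ∀ μ : ℂ, 1 / (2 * R) ≤ ‖μ‖ →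
      ∫⁻ t in ball (0:ℂ) R, lm ‖1 - t * μ‖ ∂m ≤ (P * C0 + C0 : ℝ≥0) := by
    intro μ hμ
    have hμ0 : μ ≠ 0 := by
      intro h0
      rw [h0, norm_zero] at hμ
      have : 0 < 1 / (2 * R) := by positivity
      linarith
    have h1 : ∀ t : ℂ, lm ‖1 - t * μ‖ ≤ P + lm ‖t - μ⁻¹‖ := by
      intro t
      rw [hP]
      refine le_trans ?_ (lm_mul _ _)
      refine lm_anti (by positivity) ?_
      have e2 : 1 - t * μ = μ * (μ⁻¹ - t) := by field_simp
      rw [e2, norm_mul, norm_sub_rev]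
      exact mul_le_mul_of_nonneg_right hμ (norm_nonneg _)
    calc _ ≤ ∫⁻ t in ball (0:ℂ) R, ((P : ℝ≥0∞) + lm ‖t - μ⁻¹‖) ∂m := lintegral_mono fun t => h1 t
      _ = P * m (ball (0:ℂ) R) + ∫⁻ t in ball (0:ℂ) R, lm ‖t - μ⁻¹‖ ∂m := by
          rw [lintegral_add_left measurable_const, lintegral_const, Measure.restrict_apply_univ]
      _ ≤ P * C0 + C0 := by gcongr; exact hpot _
      _ = _ := by push_cast; ring
  refine ⟨(P * C0 + C0) * (1 / Real.log 2).toNNReal + 2 * C0, fun ι F μ M hM h => ?_⟩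
  set G := F.filter fun k => 1 / (2 * R) ≤ ‖μ k‖ with hG
  have h1 : ∀ t ∈ ball (0:ℂ) R, lm ‖∏ k ∈ F, (1 - t * μ k)‖ ≤
      (∑ k ∈ G, lm ‖1 - t * μ k‖) + ENNReal.ofReal (2 * M) := by
    intro t ht
    rw [mem_ball_zero_iff] at ht
    rw [← Finset.prod_filter_mul_prod_filter_not F (fun k => 1 / (2 * R) ≤ ‖μ k‖)
      (fun k => 1 - t * μ k), norm_mul]
    refine (lm_mul _ _).trans (add_le_add ?_ (far_bd F μ hR hM h ht))
    rw [norm_prod]
    exact lm_prod G fun k => ‖1 - t * μ k‖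
  have hmeas : ∀ k, Measurable fun t : ℂ => lm ‖1 - t * μ k‖ := fun k =>
    measurable_lm.comp (by fun_prop)
  calc _ ≤ ∫⁻ t in ball (0:ℂ) R, ((∑ k ∈ G, lm ‖1 - t * μ k‖) + ENNReal.ofReal (2 * M)) ∂m :=
        setLIntegral_mono' measurableSet_ball h1
    _ = (∑ k ∈ G, ∫⁻ t in ball (0:ℂ) R, lm ‖1 - t * μ k‖ ∂m) +
        ENNReal.ofReal (2 * M) * m (ball (0:ℂ) R) := by
        rw [lintegral_add_right _ measurable_const, lintegral_finsetSum _ fun k _ => hmeas k,
          lintegral_const, Measure.restrict_apply_univ]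
    _ ≤ (∑ _k ∈ G, ((P * C0 + C0 : ℝ≥0) : ℝ≥0∞)) + ENNReal.ofReal (2 * M) * C0 := by
        refine add_le_add (Finset.sum_le_sum fun k hk => hone _ (Finset.mem_filter.1 hk).2) ?_
        gcongr
    _ ≤ ((P * C0 + C0 : ℝ≥0) : ℝ≥0∞) * ENNReal.ofReal (1 / Real.log 2 * M) +
        ENNReal.ofReal (2 * M) * C0 := by
        refine add_le_add ?_ le_rfl
        rw [Finset.sum_const, nsmul_eq_mul, mul_comm]
        gcongr
        rw [← ENNReal.ofReal_natCast]
        apply ENNReal.ofReal_le_ofReal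
        have h2 := near_card F μ hR h
        have hl : 0 < Real.log 2 := Real.log_pos one_lt_two
        rw [one_div, inv_mul_eq_div, le_div_iff₀ hl]
        exact h2
    _ = _ := by
        rw [ENNReal.ofReal_mul (by positivity), ENNReal.ofReal_mul (by norm_num)]
        push_cast
        rw [ENNReal.ofReal_ofNat]
        rw [show ((1 / Real.log 2).toNNReal : ℝ≥0∞) = ENNReal.ofReal (1 / Real.log 2) from rfl]
        ring

/-- Jensen's inequality -/
theorem jensen_le {f : ℂ → ℂ} (hf : Differentiable ℂ f) (c : ℂ) {r : ℝ} (hr : 0 < r)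
    (h0 : f c ≠ 0) : Real.log ‖f c‖ ≤ Real.circleAverage (fun z => Real.log ‖f z‖) c r := by
  have ha : AnalyticOnNhd ℂ f (closedBall c |r|) := fun z _ => hf.analyticAt z
  rw [ha.circleAverage_log_norm hr.ne' h0]
  refine le_add_of_nonneg_left (finsum_nonneg fun u => ?_)
  by_cases hu : u ∈ closedBall c |r|
  · refine mul_nonneg ?_ ?_
    · exact_mod_cast MeromorphicOn.AnalyticOnNhd.divisor_nonneg ha u
    · rw [mem_closedBall, dist_eq_norm, abs_of_pos hr, norm_sub_rev] at hu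
      rcases eq_or_lt_of_le (norm_nonneg (c - u)) with h | h
      · rw [← h, inv_zero, mul_zero, Real.log_zero]
      · apply Real.log_nonneg
        rw [← div_eq_mul_inv, one_le_div h]
        exact hu
  · rw [Function.locallyFinsuppWithin.apply_eq_zero_of_notMem _ hu]
    simp

/-- mean values over discs -/
theorem submean {f : ℂ → ℂ} (hf : Differentiable ℂ f) (w : ℂ) {s A : ℝ} (hs : 0 < s) (hA0 : 0 < A)
    (G : ℂ → ℝ≥0∞) (hG : Measurable G)
    (hA : ∫⁻ z in closedBall w s, G z ≤ ENNReal.ofReal A)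
    (hb : ∀ᵐ z ∂(volume.restrict (closedBall w s)), ‖f z‖ ≤ Real.exp (G z).toReal) :
    ‖f w‖ ≤ Real.exp (A / s ^ 2) := by
  by_cases h0 : f w = 0
  · rw [h0, norm_zero]
    exact (Real.exp_pos _).le
  set B : Set ℂ := {z | ¬ ‖f z‖ ≤ Real.exp (G z).toReal} with hB
  have hBm : MeasurableSet B := by
    have : B = {z | Real.exp (G z).toReal < ‖f z‖} := by
      ext z
      simp [hB]
    rw [this]
    exact measurableSet_lt (Real.measurable_exp.comp hG.ennreal_toReal)
      hf.continuous.measurable.norm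
  have hB0 : volume.restrict (closedBall w s) B = 0 := hb
  set g : ℂ → ℝ≥0∞ := fun z => G z + B.indicator (fun _ => ⊤) z with hg
  have hgm : Measurable g := hG.add (measurable_const.indicator hBm)
  have hgi : ∫⁻ z in closedBall w s, g z ≤ ENNReal.ofReal A := by
    rw [hg, lintegral_add_left hG]
    have : ∫⁻ z in closedBall w s, B.indicator (fun _ => (⊤ : ℝ≥0∞)) z = 0 := by
      rw [lintegral_indicator hBm, setLIntegral_measure_zero _ _ hB0]
    rw [this, add_zero]
    exact hA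
  have hpol := (Pool.Agent.Y487.NK.polar g hgm w s hs).trans hgi
  obtain ⟨r, hr, hr2⟩ : ∃ r ∈ Ioc (s / 2) s, ∫⁻ θ in Ioc (0:ℝ) (2 * Real.pi), g (circleMap w r θ) ≤
      ENNReal.ofReal (6 * A / s ^ 2) := by
    by_contra hcon
    push Not at hcon
    have h1 : ENNReal.ofReal (6 * A / s ^ 2) * ENNReal.ofReal (s / 2) ≤
        ∫⁻ r in Ioc (s / 2) s, ∫⁻ θ in Ioc (0:ℝ) (2 * Real.pi), g (circleMap w r θ) := by
      have h2 : ∫⁻ _ in Ioc (s / 2) s, ENNReal.ofReal (6 * A / s ^ 2) =
          ENNReal.ofReal (6 * A / s ^ 2) * ENNReal.ofReal (s / 2) := by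
        rw [setLIntegral_const, Real.volume_Ioc]
        congr 2
        ring
      rw [← h2]
      exact setLIntegral_mono' measurableSet_Ioc fun r hr => (hcon r hr).le
    have h2 := (mul_le_mul_right h1 (ENNReal.ofReal (s / 2))).trans hpol
    rw [← ENNReal.ofReal_mul (by positivity), ← ENNReal.ofReal_mul (by positivity),
      ENNReal.ofReal_le_ofReal_iff hA0.le] at h2
    have h3 : s / 2 * (6 * A / s ^ 2 * (s / 2)) = 6 * A / 4 := by
      field_simp
      ring
    rw [h3] at h2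
    linarith
  have hr0 : 0 < r := lt_trans (by positivity) hr.1
  have hcm : Measurable fun θ : ℝ => circleMap w r θ := (continuous_circleMap w r).measurable
  have hlt : ∀ᵐ θ ∂(volume.restrict (Ioc (0:ℝ) (2 * Real.pi))), g (circleMap w r θ) < ⊤ :=
    ae_lt_top (hgm.comp hcm) (ne_top_of_le_ne_top ENNReal.ofReal_ne_top hr2)
  have hGle : ∫⁻ θ in Ioc (0:ℝ) (2 * Real.pi), G (circleMap w r θ) ≤
      ENNReal.ofReal (6 * A / s ^ 2) :=
    (lintegral_mono fun θ => le_self_add).trans hr2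
  have hGint : Integrable (fun θ : ℝ => (G (circleMap w r θ)).toReal)
      (volume.restrict (Ioc (0:ℝ) (2 * Real.pi))) :=
    integrable_toReal_of_lintegral_ne_top (hG.comp hcm).aemeasurable
      (ne_top_of_le_ne_top ENNReal.ofReal_ne_top hGle)
  have hGval : ∫ θ in Ioc (0:ℝ) (2 * Real.pi), (G (circleMap w r θ)).toReal ≤ 6 * A / s ^ 2 := by
    have hGm : Measurable fun θ : ℝ => G (circleMap w r θ) := hG.comp hcm
    rw [integral_toReal hGm.aemeasurable]
    · refine ENNReal.toReal_le_of_le_ofReal (by positivity) hGle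
    · filter_upwards [hlt] with θ hθ
      exact lt_of_le_of_lt le_self_add hθ
  have hj := jensen_le hf w hr0 h0
  have hci : CircleIntegrable (fun z => Real.log ‖f z‖) w r := by
    have ha : AnalyticOnNhd ℂ f (sphere w |r|) := fun z _ => hf.analyticAt z
    exact ha.meromorphicOn.circleIntegrable_log_norm
  have h1 : Real.circleAverage (fun z => Real.log ‖f z‖) w r ≤ A / s ^ 2 := by
    rw [Real.circleAverage, smul_eq_mul, intervalIntegral.integral_of_le (by positivity)]
    have h2 : ∫ θ in Ioc (0:ℝ) (2 * Real.pi), Real.log ‖f (circleMap w r θ)‖ ≤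
        ∫ θ in Ioc (0:ℝ) (2 * Real.pi), (G (circleMap w r θ)).toReal := by
      refine integral_mono_ae ?_ hGint ?_
      · have := hci
        rw [CircleIntegrable, intervalIntegrable_iff_integrableOn_Ioc_of_le (by positivity)] at this
        exact this
      · filter_upwards [hlt] with θ hθ
        have h3 : circleMap w r θ ∉ B := by
          intro hmem
          simp only [hg, indicator_of_mem hmem] at hθ
          simp at hθ
        simp only [hB, Set.mem_ofPred_eq, not_not] at h3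
        rcases eq_or_lt_of_le (norm_nonneg (f (circleMap w r θ))) with h | h
        · rw [← h, Real.log_zero]
          exact ENNReal.toReal_nonneg
        · rwa [Real.log_le_iff_le_exp h]
    have h4 := h2.trans hGval
    have hpi : 3 < Real.pi := Real.pi_gt_three
    have h5 : 0 < A / s ^ 2 := by positivity
    calc (2 * Real.pi)⁻¹ * ∫ θ in Ioc (0:ℝ) (2 * Real.pi), Real.log ‖f (circleMap w r θ)‖
        ≤ (2 * Real.pi)⁻¹ * (6 * A / s ^ 2) := by gcongr
      _ = (6 / (2 * Real.pi)) * (A / s ^ 2) := by ring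
      _ ≤ 1 * (A / s ^ 2) := by
          refine mul_le_mul_of_nonneg_right ?_ h5.le
          rw [div_le_one (by positivity)]
          linarith
      _ = _ := one_mul _
  rw [← Real.log_le_iff_le_exp (norm_pos_iff.2 h0)]
  exact hj.trans h1

end Pool.Agent.Q98.NR
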