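import Pool.Agent.Q98.NR.Mat
import Pool.Agent.Q98.NR.Pot
import Pool.Agent.Q98.NR.Ker
import Pool.Agent.Q98.NR.Dua

/-!
# Nuclear perturbations on reflexive spaces: the polynomials of the duality are bounded
-/

set_option autoImplicit false

namespace Pool.Agent.Q98.NR

open MeasureTheory Set Metric Filter Topology
open scoped ENNReal NNReal ComplexConjugate ContDiff
open Pool.Agent.Y283.NK (lm)
open Pool.Agent.Q98.RB

variable {X : Type} [NormedAddCommGroup X] [NormedSpace ℂ X]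
variable {N : X →L[ℂ] X} {R : ℝ} {Ψ : C(DD R, ℂ) →ₐ[ℂ] (X →L[ℂ] X)}

/-- a chosen Cauchy transform -/
noncomputable def Kf (hΨ : Cal N R Ψ) (w : X →L[ℂ] ℂ) (x : X) : ℂ → ℂ :=
  Classical.choose (exists_K hΨ w x)

theorem Kf_spec (hΨ : Cal N R Ψ) (w : X →L[ℂ] ℂ) (x : X) : IsK Ψ w x (Kf hΨ w x) :=
  Classical.choose_spec (exists_K hΨ w x)

/-- the finite sections of the perturbation -/
noncomputable def Ks (u : ℕ → X) (v : ℕ → (X →L[ℂ] ℂ)) (n : ℕ) : X →L[ℂ] X :=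
  ∑ i ∈ Finset.range n, (v i).smulRight (u i)

theorem Ks_apply (u : ℕ → X) (v : ℕ → (X →L[ℂ] ℂ)) (n : ℕ) (x : X) :
    Ks u v n x = ∑ i ∈ Finset.range n, v i x • u i := by
  unfold Ks
  rw [sum_apply]
  rfl

/-- the polynomial `∑ (z - a)^k Y k` at `z` -/
noncomputable def hp (Y : ℕ → StrongDual ℂ X) (a : ℂ) (m : ℕ) (x : X) (z : ℂ) : ℂ :=
  ∑ k ∈ Finset.range (m + 1), (z - a) ^ k * Y k x

theorem hp_diff (Y : ℕ → StrongDual ℂ X) (a : ℂ) (m : ℕ) (x : X) :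
    Differentiable ℂ (hp Y a m x) := by
  unfold hp
  fun_prop

/-- the right side -/
noncomputable def bb (hΨ : Cal N R Ψ) (a : ℂ) (y : StrongDual ℂ X) (E : ℕ → StrongDual ℂ X)
    (m : ℕ) (x : X) (z : ℂ) : ℂ :=
  Kf hΨ y x z + ∑ k ∈ Finset.range (m + 1), (z - a) ^ k * Kf hΨ (E k) x z

theorem comp_T (N : X →L[ℂ] X) (u : ℕ → X) (v : ℕ → (X →L[ℂ] ℂ)) (t : ℂ) (n : ℕ)
    (w : StrongDual ℂ X) :
    w.comp (N + t • Ks u v n) = w.comp N + ∑ i ∈ Finset.range n, (t * w (u i)) • v i := by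
  ext x
  simp only [ContinuousLinearMap.comp_apply, add_apply, FunLike.coe_smul, Pi.smul_apply, map_add,
    map_smul, Ks_apply, map_sum, smul_eq_mul, sum_apply, Finset.mul_sum]
  congr 1
  refine Finset.sum_congr rfl fun i _ => ?_
  ring

/-- the equation for the polynomials -/
theorem key (hΨ : Cal N R Ψ) (u : ℕ → X) (v : ℕ → (X →L[ℂ] ℂ)) (t a : ℂ) (n : ℕ)
    (y : StrongDual ℂ X) (Y : ℕ → StrongDual ℂ X) (m : ℕ) (hY : ∀ k, m ≤ k → Y k = 0) (x : X) :
    ∀ᵐ z, hp Y a m x z = bb hΨ a y (res (N + t • Ks u v n) a y Y) m x z +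
      t * ∑ i ∈ Finset.range n, hp Y a m (u i) z * Kf hΨ (v i) x z := by
  set E := res (N + t • Ks u v n) a y Y with hE
  -- the transforms of `w ∘ T`
  have hw : ∀ k, IsK Ψ ((Y k).comp (N + t • Ks u v n)) x (fun z =>
      (z * Kf hΨ (Y k) x z - Y k x) + ∑ i ∈ Finset.range n, (t * Y k (u i)) * Kf hΨ (v i) x z) := by
    intro k
    rw [comp_T]
    exact ((Kf_spec hΨ (Y k) x).shift hΨ).add
      (IsK.sum _ fun i _ => (Kf_spec hΨ (v i) x).smul (t * Y k (u i)))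
  have hw2 : ∀ k, IsK Ψ (a • Y k - (Y k).comp (N + t • Ks u v n)) x (fun z =>
      a * Kf hΨ (Y k) x z + (-1) * ((z * Kf hΨ (Y k) x z - Y k x) +
        ∑ i ∈ Finset.range n, (t * Y k (u i)) * Kf hΨ (v i) x z)) := by
    intro k
    have h3 := ((Kf_spec hΨ (Y k) x).smul a).add ((hw k).smul (-1))
    have e : a • Y k - (Y k).comp (N + t • Ks u v n) =
        a • Y k + (-1 : ℂ) • (Y k).comp (N + t • Ks u v n) := by
      ext x'
      simp only [sub_apply, add_apply, FunLike.coe_smul, Pi.smul_apply, smul_eq_mul]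
      ring
    rw [e]
    exact h3
  have h0 : Kf hΨ (E 0) x =ᵐ[volume] fun z => (a * Kf hΨ (Y 0) x z +
      (-1) * ((z * Kf hΨ (Y 0) x z - Y 0 x) +
        ∑ i ∈ Finset.range n, (t * Y 0 (u i)) * Kf hΨ (v i) x z)) + (-1) * Kf hΨ y x z := by
    refine (Kf_spec hΨ (E 0) x).unique ?_
    have h3 := (hw2 0).add ((Kf_spec hΨ y x).smul (-1))
    have e : E 0 = (a • Y 0 - (Y 0).comp (N + t • Ks u v n)) + (-1 : ℂ) • y := by
      rw [hE]
      ext x'
      simp only [res, sub_apply, add_apply, FunLike.coe_smul, Pi.smul_apply, smul_eq_mul]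
      ring
    rw [e]
    exact h3
  have h1 : ∀ k, Kf hΨ (E (k + 1)) x =ᵐ[volume] fun z => Kf hΨ (Y k) x z +
      (a * Kf hΨ (Y (k + 1)) x z + (-1) * ((z * Kf hΨ (Y (k + 1)) x z - Y (k + 1) x) +
        ∑ i ∈ Finset.range n, (t * Y (k + 1) (u i)) * Kf hΨ (v i) x z)) := fun k =>
    (Kf_spec hΨ (E (k + 1)) x).unique ((Kf_spec hΨ (Y k) x).add (hw2 (k + 1)))
  have hm : Kf hΨ (Y m) x =ᵐ[volume] fun _ => 0 := by
    rw [hY m le_rfl]
    exact (Kf_spec hΨ 0 x).unique (IsK.zero x)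
  filter_upwards [h0, ae_all_iff.2 h1, hm] with z e0 e1 em
  have hsum : ∑ k ∈ Finset.range (m + 1), (z - a) ^ k * Kf hΨ (E k) x z =
      hp Y a m x z - Kf hΨ y x z -
        t * ∑ i ∈ Finset.range n, hp Y a m (u i) z * Kf hΨ (v i) x z := by
    have e2 : t * ∑ i ∈ Finset.range n, hp Y a m (u i) z * Kf hΨ (v i) x z =
        ∑ k ∈ Finset.range (m + 1), (z - a) ^ k *
          ∑ i ∈ Finset.range n, (t * Y k (u i)) * Kf hΨ (v i) x z := by
      simp only [hp, Finset.sum_mul, Finset.mul_sum]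
      rw [Finset.sum_comm]
      refine Finset.sum_congr rfl fun k _ => Finset.sum_congr rfl fun i _ => ?_
      ring
    rw [e2]
    unfold hp
    rw [Finset.sum_range_succ' (fun k => (z - a) ^ k * Kf hΨ (E k) x z),
      Finset.sum_range_succ' (fun k => (z - a) ^ k * Y k x),
      Finset.sum_range_succ' (fun k => (z - a) ^ k *
          ∑ i ∈ Finset.range n, (t * Y k (u i)) * Kf hΨ (v i) x z)]
    have e3 : ∑ k ∈ Finset.range m, (z - a) ^ (k + 1) * Kf hΨ (E (k + 1)) x z =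
        (∑ k ∈ Finset.range m, (z - a) ^ (k + 1) * Y (k + 1) x) -
        (∑ k ∈ Finset.range m, (z - a) ^ (k + 1) *
          ∑ i ∈ Finset.range n, (t * Y (k + 1) (u i)) * Kf hΨ (v i) x z) +
        ∑ k ∈ Finset.range m, ((z - a) ^ (k + 1) * Kf hΨ (Y k) x z -
          (z - a) ^ (k + 2) * Kf hΨ (Y (k + 1)) x z) := by
      rw [← Finset.sum_sub_distrib, ← Finset.sum_add_distrib]
      refine Finset.sum_congr rfl fun k _ => ?_
      rw [e1 k]
      ring
    have e4 : ∑ k ∈ Finset.range m, ((z - a) ^ (k + 1) * Kf hΨ (Y k) x z -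
          (z - a) ^ (k + 2) * Kf hΨ (Y (k + 1)) x z) = (z - a) * Kf hΨ (Y 0) x z := by
      rw [Finset.sum_range_sub' (fun k => (z - a) ^ (k + 1) * Kf hΨ (Y k) x z), em]
      ring
    rw [e3, e4, e0]
    ring
  unfold bb
  rw [hsum]
  ring

end Pool.Agent.Q98.NR
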