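import Pool.Agent.Y657.ND.Rdet

/-!
# Nuclear perturbations on reflexive spaces: determinants

Hadamard's inequality gives bounds for `det (1 - A)` and for the solutions of `ℓ (1 - A) = b` by
`exp (∑ |A i i| + ∑ |A i k| ^ p)`, `1 ≤ p ≤ 2`, uniformly in the size of the matrix.
-/

set_option autoImplicit false

namespace Pool.Agent.Q98.NR

open Matrix Finset

theorem hadamard {ι : Type} [Fintype ι] [DecidableEq ι] (W : Matrix ι ι ℂ) :
    ‖W.det‖ ^ 2 ≤ ∏ i, ∑ j, ‖W i j‖ ^ 2 := by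
  classical
  let e := Fintype.equivFin ι
  have h := Pool.Agent.Y657.ND.hadamard (W.submatrix e.symm e.symm)
  rw [det_submatrix_equiv_self] at h
  refine h.trans (le_of_eq ?_)
  rw [← Equiv.prod_comp e.symm (fun i => ∑ j, ‖W i j‖ ^ 2)]
  refine Finset.prod_congr rfl fun i _ => ?_
  rw [← Equiv.sum_comp e.symm (fun j => ‖W (e.symm i) j‖ ^ 2)]
  rfl

theorem one_add_sq_le {x p : ℝ} (hx : 0 ≤ x) (h1 : 1 ≤ p) (h2 : p ≤ 2) :
    1 + x ^ 2 ≤ Real.exp (2 * x ^ p) := by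
  rcases le_or_gt x 1 with h | h
  · have h3 : x ^ 2 ≤ x ^ p := by
      rw [← Real.rpow_two]
      exact Real.rpow_le_rpow_of_exponent_ge' hx h (by linarith) h2
    have h4 := Real.add_one_le_exp (2 * x ^ p)
    have h5 : 0 ≤ x ^ p := Real.rpow_nonneg hx p
    linarith
  · have h3 : x ≤ x ^ p := by
      conv_lhs => rw [← Real.rpow_one x]
      exact Real.rpow_le_rpow_of_exponent_le h.le h1
    calc 1 + x ^ 2 ≤ (1 + x) ^ 2 := by nlinarith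
      _ ≤ (Real.exp x) ^ 2 := by
          have := Real.add_one_le_exp x
          exact pow_le_pow_left₀ (by linarith) (by linarith) 2
      _ = Real.exp (2 * x) := by rw [← Real.exp_nat_mul]; norm_num
      _ ≤ _ := Real.exp_le_exp.2 (by linarith)

theorem one_add_sum_le {κ : Type} (s : Finset κ) (x : κ → ℝ) (p : ℝ) (hx : ∀ k, 0 ≤ x k)
    (h1 : 1 ≤ p) (h2 : p ≤ 2) :
    1 + ∑ k ∈ s, x k ^ 2 ≤ Real.exp (2 * ∑ k ∈ s, x k ^ p) := by
  classical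
  induction s using Finset.induction_on with
  | empty => simp
  | insert a s ha ih =>
    rw [Finset.sum_insert ha, Finset.sum_insert ha, mul_add, Real.exp_add]
    have h3 := one_add_sq_le (hx a) h1 h2
    have h4 : 0 ≤ ∑ k ∈ s, x k ^ 2 := Finset.sum_nonneg fun k _ => by positivity
    calc 1 + (x a ^ 2 + ∑ k ∈ s, x k ^ 2) ≤ (1 + x a ^ 2) * (1 + ∑ k ∈ s, x k ^ 2) := by
          nlinarith [sq_nonneg (x a)]
      _ ≤ _ := mul_le_mul h3 ih (by positivity) (Real.exp_pos _).le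

theorem row_bd {n : ℕ} (A : Matrix (Fin n) (Fin n) ℂ) (p : ℝ) (h1 : 1 ≤ p) (h2 : p ≤ 2)
    (i : Fin n) (d : ℝ) (hd : 0 ≤ d) :
    (∑ k, ‖((1 : Matrix (Fin n) (Fin n) ℂ) - A) i k‖ ^ 2) + d ≤
      Real.exp (2 * ‖A i i‖ + 2 * ∑ k, ‖A i k‖ ^ p + d) := by
  have h3 : ∑ k, ‖((1 : Matrix (Fin n) (Fin n) ℂ) - A) i k‖ ^ 2 ≤
      (1 + ‖A i i‖) ^ 2 + ∑ k, ‖A i k‖ ^ 2 := by
    rw [← Finset.add_sum_erase _ _ (mem_univ i)]
    refine add_le_add ?_ ?_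
    · rw [Matrix.sub_apply, Matrix.one_apply_eq]
      have : ‖1 - A i i‖ ≤ 1 + ‖A i i‖ := (norm_sub_le _ _).trans (by rw [norm_one])
      exact pow_le_pow_left₀ (norm_nonneg _) this 2
    · calc _ = ∑ k ∈ univ.erase i, ‖A i k‖ ^ 2 := by
            refine Finset.sum_congr rfl fun k hk => ?_
            rw [Matrix.sub_apply, Matrix.one_apply_ne (Finset.ne_of_mem_erase hk).symm, zero_sub,
              norm_neg]
        _ ≤ _ := Finset.sum_le_sum_of_subset_of_nonneg (erase_subset _ _)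
            fun k _ _ => by positivity
  have hs : 0 ≤ ∑ k, ‖A i k‖ ^ 2 := Finset.sum_nonneg fun k _ => by positivity
  have hu : 1 ≤ (1 + ‖A i i‖) ^ 2 := by nlinarith [norm_nonneg (A i i)]
  have h4 := one_add_sum_le univ (fun k => ‖A i k‖) p (fun k => norm_nonneg _) h1 h2
  have h5 : (1 + ‖A i i‖) ^ 2 ≤ Real.exp (2 * ‖A i i‖) := by
    have e : Real.exp (2 * ‖A i i‖) = (Real.exp ‖A i i‖) ^ 2 := by
      rw [← Real.exp_nat_mul]; norm_num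
    rw [e]
    have := Real.add_one_le_exp ‖A i i‖
    exact pow_le_pow_left₀ (by positivity) (by linarith) 2
  have h6 : 1 + d ≤ Real.exp d := by linarith [Real.add_one_le_exp d]
  rw [Real.exp_add, Real.exp_add]
  calc _ ≤ (1 + ‖A i i‖) ^ 2 + ∑ k, ‖A i k‖ ^ 2 + d := by linarith
    _ ≤ (1 + ‖A i i‖) ^ 2 * (1 + ∑ k, ‖A i k‖ ^ 2) * (1 + d) := by
        have h7 : 1 * ((∑ k, ‖A i k‖ ^ 2) + d + (∑ k, ‖A i k‖ ^ 2) * d) ≤
            (1 + ‖A i i‖) ^ 2 * ((∑ k, ‖A i k‖ ^ 2) + d + (∑ k, ‖A i k‖ ^ 2) * d) :=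
          mul_le_mul_of_nonneg_right hu (by positivity)
        have h8 : 0 ≤ (∑ k, ‖A i k‖ ^ 2) * d := by positivity
        linarith [h7, h8]
    _ ≤ _ := by gcongr

/-- the bound for the determinant -/
theorem det_bd {n : ℕ} (A : Matrix (Fin n) (Fin n) ℂ) (p : ℝ) (h1 : 1 ≤ p) (h2 : p ≤ 2) :
    ‖((1 : Matrix (Fin n) (Fin n) ℂ) - A).det‖ ≤
      Real.exp ((∑ i, ‖A i i‖) + ∑ i, ∑ k, ‖A i k‖ ^ p) := by
  have h3 := hadamard ((1 : Matrix (Fin n) (Fin n) ℂ) - A)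
  have h4 : ∏ i, ∑ j, ‖((1 : Matrix (Fin n) (Fin n) ℂ) - A) i j‖ ^ 2 ≤
      ∏ i, Real.exp (2 * ‖A i i‖ + 2 * ∑ k, ‖A i k‖ ^ p) := by
    refine Finset.prod_le_prod (fun i _ => Finset.sum_nonneg fun j _ => by positivity)
      fun i _ => ?_
    have := row_bd A p h1 h2 i 0 le_rfl
    simpa using this
  rw [← Real.exp_sum] at h4
  have h5 : ∑ i, (2 * ‖A i i‖ + 2 * ∑ k, ‖A i k‖ ^ p) =
      2 * ((∑ i, ‖A i i‖) + ∑ i, ∑ k, ‖A i k‖ ^ p) := by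
    rw [Finset.sum_add_distrib, ← Finset.mul_sum, ← Finset.mul_sum]
    ring
  rw [h5] at h4
  have h6 : Real.exp (2 * ((∑ i, ‖A i i‖) + ∑ i, ∑ k, ‖A i k‖ ^ p)) =
      (Real.exp ((∑ i, ‖A i i‖) + ∑ i, ∑ k, ‖A i k‖ ^ p)) ^ 2 := by
    rw [← Real.exp_nat_mul]; norm_num
  rw [h6] at h4
  exact (pow_le_pow_iff_left₀ (norm_nonneg _) (Real.exp_pos _).le two_ne_zero).1 (h3.trans h4)

/-- the bound for the solutions of `ℓ (1 - A) = b` -/
theorem solve_bd {n : ℕ} (A : Matrix (Fin n) (Fin n) ℂ) (p : ℝ) (h1 : 1 ≤ p) (h2 : p ≤ 2)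
    (l b : Fin n → ℂ) (h : l ᵥ* (1 - A) = b) :
    Real.sqrt (∑ i, ‖l i‖ ^ 2) * ‖((1 : Matrix (Fin n) (Fin n) ℂ) - A).det‖ ≤
      Real.sqrt (∑ i, ‖b i‖ ^ 2) *
        Real.exp (1 / 2 + (∑ i, ‖A i i‖) + ∑ i, ∑ k, ‖A i k‖ ^ p) := by
  set L : ℝ := Real.sqrt (∑ i, ‖l i‖ ^ 2) with hL
  have hSl : 0 ≤ ∑ i, ‖l i‖ ^ 2 := Finset.sum_nonneg fun i _ => by positivity
  have hSb : 0 ≤ ∑ i, ‖b i‖ ^ 2 := Finset.sum_nonneg fun i _ => by positivity
  rcases eq_or_lt_of_le (Real.sqrt_nonneg (∑ i, ‖l i‖ ^ 2)) with h0 | h0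
  · rw [← hL] at h0
    rw [← h0, zero_mul]
    positivity
  rw [← hL] at h0
  have hL2 : L ^ 2 = ∑ i, ‖l i‖ ^ 2 := Real.sq_sqrt hSl
  have hLc : (L : ℂ) ≠ 0 := by exact_mod_cast h0.ne'
  let c : Fin n → ℂ := fun i => star (l i) / L
  have hlc : l ⬝ᵥ c = L := by
    simp only [dotProduct, c]
    have e1 : ∀ i, l i * (star (l i) / L) = ((‖l i‖ ^ 2 : ℝ) : ℂ) / L := by
      intro i
      rw [mul_div_assoc']
      congr 1
      rw [RCLike.star_def, Complex.mul_conj, Complex.normSq_eq_norm_sq]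
    rw [Finset.sum_congr rfl fun i _ => e1 i, ← Finset.sum_div, ← Complex.ofReal_sum, ← hL2]
    push_cast
    field_simp
  have hcs : ∑ i, ‖c i‖ ^ 2 = 1 := by
    have e1 : ∀ i, ‖c i‖ ^ 2 = ‖l i‖ ^ 2 / L ^ 2 := by
      intro i
      simp only [c]
      rw [norm_div, norm_star, div_pow, Complex.norm_real, Real.norm_of_nonneg h0.le]
    rw [Finset.sum_congr rfl fun i _ => e1 i, ← Finset.sum_div, ← hL2]
    field_simp
  -- the bordered matrix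
  let B : Matrix (Fin n ⊕ Unit) (Fin n ⊕ Unit) ℂ :=
    fromBlocks (1 - A) (replicateCol Unit c) (replicateRow Unit b) 0
  have hB : B = fromBlocks 1 0 (replicateRow Unit l) 1 *
      fromBlocks (1 - A) (replicateCol Unit c) 0 (-(Matrix.of fun _ _ => (L : ℂ))) := by
    rw [fromBlocks_multiply]
    simp only [B]
    congr 1
    · simp
    · simp
    · rw [Matrix.mul_zero, add_zero, ← h]
      ext i j
      simp [replicateRow_apply, Matrix.mul_apply, vecMul, dotProduct]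
    · ext i j
      rw [Matrix.one_mul, Matrix.zero_apply, Matrix.add_apply, Matrix.mul_apply, Matrix.neg_apply,
        Matrix.of_apply]
      have : ∑ x, replicateRow Unit l i x * replicateCol Unit c x j = L := by
        rw [← hlc]
        rfl
      rw [this]
      ring
  have hdet : B.det = ((1 : Matrix (Fin n) (Fin n) ℂ) - A).det * (-(L:ℂ)) := by
    rw [hB, det_mul, det_fromBlocks_zero₁₂, det_fromBlocks_zero₂₁]
    simp
  have h3 := hadamard B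
  rw [hdet, norm_mul, norm_neg, Complex.norm_real, Real.norm_of_nonneg h0.le] at h3
  have h4 : ∏ i, ∑ j, ‖B i j‖ ^ 2 = (∏ i, ((∑ k, ‖((1 : Matrix (Fin n) (Fin n) ℂ) - A) i k‖ ^ 2) +
      ‖c i‖ ^ 2)) * ∑ i, ‖b i‖ ^ 2 := by
    rw [Fintype.prod_sum_type]
    congr 1
    · refine Finset.prod_congr rfl fun i _ => ?_
      rw [Fintype.sum_sum_type]
      simp [B]
    · rw [Finset.univ_unique, Finset.prod_singleton, Fintype.sum_sum_type]
      simp [B]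
  have h5 : ∏ i, ((∑ k, ‖((1 : Matrix (Fin n) (Fin n) ℂ) - A) i k‖ ^ 2) + ‖c i‖ ^ 2) ≤
      ∏ i, Real.exp (2 * ‖A i i‖ + 2 * ∑ k, ‖A i k‖ ^ p + ‖c i‖ ^ 2) :=
    Finset.prod_le_prod (fun i _ => add_nonneg (Finset.sum_nonneg fun j _ => by positivity)
      (by positivity)) fun i _ => row_bd A p h1 h2 i _ (by positivity)
  rw [← Real.exp_sum] at h5
  have h6 : ∑ i, (2 * ‖A i i‖ + 2 * ∑ k, ‖A i k‖ ^ p + ‖c i‖ ^ 2) =
      2 * (1 / 2 + (∑ i, ‖A i i‖) + ∑ i, ∑ k, ‖A i k‖ ^ p) := by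
    rw [Finset.sum_add_distrib, Finset.sum_add_distrib, ← Finset.mul_sum, ← Finset.mul_sum, hcs]
    ring
  rw [h6] at h5
  have h7 : Real.exp (2 * (1 / 2 + (∑ i, ‖A i i‖) + ∑ i, ∑ k, ‖A i k‖ ^ p)) =
      (Real.exp (1 / 2 + (∑ i, ‖A i i‖) + ∑ i, ∑ k, ‖A i k‖ ^ p)) ^ 2 := by
    rw [← Real.exp_nat_mul]; norm_num
  rw [h7] at h5
  have h8 : (L * ‖((1 : Matrix (Fin n) (Fin n) ℂ) - A).det‖) ^ 2 ≤ (Real.sqrt (∑ i, ‖b i‖ ^ 2) *
      Real.exp (1 / 2 + (∑ i, ‖A i i‖) + ∑ i, ∑ k, ‖A i k‖ ^ p)) ^ 2 := by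
    rw [mul_pow (Real.sqrt (∑ i, ‖b i‖ ^ 2)), Real.sq_sqrt hSb]
    calc _ = (‖((1 : Matrix (Fin n) (Fin n) ℂ) - A).det‖ * L) ^ 2 := by ring
      _ ≤ _ := h3
      _ = _ := h4
      _ ≤ _ := mul_le_mul_of_nonneg_right h5 hSb
      _ = _ := by ring
  exact (pow_le_pow_iff_left₀ (by positivity) (by positivity) two_ne_zero).1 h8

end Pool.Agent.Q98.NR
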