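import Pool.Agent.Q98.NR.Fin

/-!
# Nuclear perturbations on reflexive spaces: small local spectra
-/

set_option autoImplicit false

namespace Pool.Agent.Q98.NR

open MeasureTheory Set Metric Filter Topology
open scoped ENNReal NNReal ComplexConjugate ContDiff
open Pool.Agent.Y283.NK (lm LogBd)
open Pool.Agent.Q98.RB

variable {X : Type} [NormedAddCommGroup X] [NormedSpace ℂ X]
variable {N : X →L[ℂ] X} {R : ℝ} {Ψ : C(DD R, ℂ) →ₐ[ℂ] (X →L[ℂ] X)}

/-- an operator which is invertible modulo a finite dimensional invariant space is invertible up to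
a compact operator -/
theorem unit_of (M F S : X →L[ℂ] X) [CompleteSpace X] (hF : FR F) (hMF : M * F = F * M)
    (hSF : S * F = F * S) (h1 : M * S = 1 - F) (h2 : S * M = 1 - F) :
    ∃ G : X →L[ℂ] X, IsCompactOperator (⇑G) ∧ IsUnit (M + G) := by
  have hfin : FiniteDimensional ℂ (LinearMap.range (F : X →ₗ[ℂ] X)) := hF
  obtain ⟨π, hπ⟩ := Submodule.ClosedComplemented.of_finiteDimensional
    (LinearMap.range (F : X →ₗ[ℂ] X))
  obtain ⟨P, hP⟩ : ∃ P : X →L[ℂ] X, P = (LinearMap.range (F : X →ₗ[ℂ] X)).subtypeL.comp π :=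
    ⟨_, rfl⟩
  have hPmem : ∀ x, ∃ g, P x = F g := by
    intro x
    obtain ⟨g, hg⟩ := (π x).2
    refine ⟨g, ?_⟩
    rw [hP]
    exact hg.symm
  have hPF : ∀ g, P (F g) = F g := by
    intro g
    have h3 := hπ ⟨F g, LinearMap.mem_range_self _ g⟩
    have h4 := congrArg Subtype.val h3
    rw [hP]
    exact h4
  have hPc : IsCompactOperator (⇑P) := by
    have h5 : FR P := by
      unfold FR
      refine Submodule.finiteDimensional_of_le
        (S₂ := LinearMap.range (F : X →ₗ[ℂ] X)) ?_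
      rintro _ ⟨x, rfl⟩
      obtain ⟨g, hg⟩ := hPmem x
      exact ⟨g, hg.symm⟩
    exact h5.compact
  have eMF : ∀ x, M (F x) = F (M x) := fun x => congrArg (fun A : X →L[ℂ] X => A x) hMF
  have eSF : ∀ x, S (F x) = F (S x) := fun x => congrArg (fun A : X →L[ℂ] X => A x) hSF
  have e1 : ∀ x, M (S x) = x - F x := fun x => congrArg (fun A : X →L[ℂ] X => A x) h1
  have e2 : ∀ x, S (M x) = x - F x := fun x => congrArg (fun A : X →L[ℂ] X => A x) h2
  refine ⟨P - M * P, hPc.sub (hPc.clm_comp M), ?_⟩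
  have eA : ∀ x, (M + (P - M * P)) x = M (x - P x) + P x := by
    intro x
    show M x + (P x - M (P x)) = _
    rw [map_sub]
    abel
  rw [ContinuousLinearMap.isUnit_iff_bijective]
  constructor
  · rw [injective_iff_map_eq_zero]
    intro x hx
    rw [eA] at hx
    obtain ⟨g, hg⟩ := hPmem x
    obtain ⟨w, hw⟩ : ∃ w, w = x - P x := ⟨_, rfl⟩
    rw [← hw] at hx
    have h3 : S (M w) = - S (P x) := by
      rw [eq_neg_of_add_eq_zero_left hx, map_neg]
    rw [e2, hg, eSF] at h3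
    have h4 : w = F (w - S g) := by
      rw [map_sub]
      rw [sub_eq_iff_eq_add] at h3
      rw [sub_eq_neg_add]
      exact h3
    have h5 : P w = w := by
      rw [h4]
      exact hPF _
    have h6 : P w = 0 := by
      rw [hw, map_sub]
      obtain ⟨g', hg'⟩ := hPmem x
      rw [hg', hPF, sub_self]
    have h7 : w = 0 := by rw [← h5, h6]
    rw [h7, map_zero, zero_add] at hx
    rw [h7, hx, sub_zero] at hw
    exact hw.symm
  · intro y
    obtain ⟨x₁, hx₁⟩ : ∃ x₁, x₁ = S y := ⟨_, rfl⟩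
    obtain ⟨g, hg⟩ := hPmem x₁
    obtain ⟨w, hw⟩ : ∃ w, w = x₁ - P x₁ := ⟨_, rfl⟩
    have hPw : P w = 0 := by
      rw [hw, map_sub, hg, hPF, sub_self]
    obtain ⟨r, hr⟩ : ∃ r, r = F (y + M g) := ⟨_, rfl⟩
    have hPr : P r = r := by
      rw [hr]
      exact hPF _
    refine ⟨w + r, ?_⟩
    have e3 : (M + (P - M * P)) (w + r) = M w + r := by
      rw [eA, map_add P, hPw, zero_add, hPr, add_sub_cancel_right]
    rw [e3, hw, map_sub, hx₁, e1, ← hx₁, hg, eMF, hr, map_add]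
    abel

/-- the Fredholm alternative -/
theorem eig_of (M G L : X →L[ℂ] X) [CompleteSpace X] (hG : IsCompactOperator (⇑G))
    (hL : IsCompactOperator (⇑L)) (hU : IsUnit (M + G)) (hn : ¬ IsUnit (M + L)) :
    ∃ x, x ≠ 0 ∧ (M + L) x = 0 := by
  obtain ⟨A, hA⟩ := hU
  obtain ⟨C, hC⟩ : ∃ C : X →L[ℂ] X, C = (↑A⁻¹ : X →L[ℂ] X) * (G - L) := ⟨_, rfl⟩
  have hCc : IsCompactOperator (⇑C) := by
    rw [hC]
    exact (hG.sub hL).clm_comp (↑A⁻¹ : X →L[ℂ] X)
  have hfac : M + L = (A : X →L[ℂ] X) * (1 - C) := by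
    rw [hC, mul_sub, ← mul_assoc, Units.mul_inv, one_mul, mul_one, hA]
    abel
  rcases hCc.hasEigenvalue_or_mem_resolventSet (one_ne_zero (α := ℂ)) with h | h
  · obtain ⟨x, hx⟩ := h.exists_hasEigenvector
    refine ⟨x, hx.2, ?_⟩
    have h3 : C x = x := by
      have := hx.apply_eq_smul
      rw [one_smul] at this
      exact this
    rw [hfac]
    show (A : X →L[ℂ] X) (x - C x) = 0
    rw [h3, sub_self, map_zero]
  · exfalso
    apply hn
    rw [spectrum.mem_resolventSet_iff, map_one] at h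
    rw [hfac]
    exact A.isUnit.mul h

/-- at the other points of the spectrum there are eigenvectors -/
theorem noness [CompleteSpace X] (hΨ : Cal N R Ψ) {c : ℂ} (hE : ¬ Ess Ψ c) {L : X →L[ℂ] X}
    (hL : IsCompactOperator (⇑L)) (hc : c ∈ spectrum ℂ (N + L)) :
    ∃ x, x ≠ 0 ∧ (N + L) x = c • x := by
  unfold Ess at hE
  push Not at hE
  obtain ⟨s, hs, hF⟩ := hE
  have hη := cf_cont c s
  set k : ℂ → ℂ := fun z => Hm c s z * (1 - cf c s z) with hk
  have hkc : Continuous k := (Hm_cont c hs).mul (continuous_const.sub hη)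
  have hkz : ∀ z, (z - c) * k z = 1 - cf c s z := by
    intro z
    rcases le_or_gt s ‖z - c‖ with h | h
    · have hne : z - c ≠ 0 := by
        intro h0
        rw [h0, norm_zero] at h
        linarith
      simp only [hk]
      rw [Hm_far hs h]
      field_simp
    · simp only [hk]
      rw [cf_one hs h.le]
      simp
  have hM : op Ψ (fun z : ℂ => z - c) = N - c • (1 : X →L[ℂ] X) := by
    rw [op_sub continuous_id' continuous_const, op_id hΨ, op_const]
  have hMc : Continuous fun z : ℂ => z - c := by fun_prop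
  obtain ⟨G, hG, hU⟩ := unit_of (N - c • (1 : X →L[ℂ] X)) (op Ψ (cf c s)) (op Ψ k) hF
    (by
      rw [← hM, ← op_mul hMc hη, ← op_mul hη hMc]
      congr 1
      funext z
      ring)
    (by
      rw [← op_mul hkc hη, ← op_mul hη hkc]
      congr 1
      funext z
      ring)
    (by
      rw [← hM, ← op_mul hMc hkc]
      have e : (fun z => (z - c) * k z) = fun z => 1 - cf c s z := by
        funext z
        exact hkz z
      rw [e, op_sub continuous_const hη, op_const, one_smul])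
    (by
      rw [← hM, ← op_mul hkc hMc]
      have e : (fun z => k z * (z - c)) = fun z => 1 - cf c s z := by
        funext z
        rw [mul_comm]
        exact hkz z
      rw [e, op_sub continuous_const hη, op_const, one_smul])
  have hn : ¬ IsUnit ((N - c • (1 : X →L[ℂ] X)) + L) := by
    intro h
    rw [spectrum.mem_iff] at hc
    apply hc
    have e : algebraMap ℂ (X →L[ℂ] X) c - (N + L) = -((N - c • (1 : X →L[ℂ] X)) + L) := by
      rw [Algebra.algebraMap_eq_smul_one]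
      abel
    rw [e]
    exact h.neg
  obtain ⟨x, hx, h⟩ := eig_of _ G L hG hL hU hn
  refine ⟨x, hx, ?_⟩
  have e : ((N - c • (1 : X →L[ℂ] X)) + L) x = (N + L) x - c • x := by
    show N x - c • x + L x = N x + L x - c • x
    abel
  rw [e, sub_eq_zero] at h
  exact h

/-- small local spectra -/
def SLS (T : X →L[ℂ] X) : Prop :=
  ∀ c ∈ spectrum ℂ T, ∀ ε : ℝ, 0 < ε → ∃ (x : X) (C : ℝ), x ≠ 0 ∧
    ∀ n : ℕ, ‖((T - c • (1 : X →L[ℂ] X)) ^ n) x‖ ≤ C * ε ^ n

theorem sls_chain {T : X →L[ℂ] X} {c : ℂ} {r : ℝ} (h : HasCh T c r) :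
    ∃ (x : X) (C : ℝ), x ≠ 0 ∧ ∀ n : ℕ, ‖((T - c • (1 : X →L[ℂ] X)) ^ n) x‖ ≤ C * r ^ n := by
  obtain ⟨Y, ⟨h1, C, h2⟩, h3⟩ := h
  refine ⟨Y 0, C, h3, fun n => ?_⟩
  have e : ∀ n, ((T - c • (1 : X →L[ℂ] X)) ^ n) (Y 0) = Y n := by
    intro n
    induction n with
    | zero => rfl
    | succ n ih =>
      rw [pow_succ']
      show (T - c • (1 : X →L[ℂ] X)) (((T - c • (1 : X →L[ℂ] X)) ^ n) (Y 0)) = _
      rw [ih]
      exact h1 n
  rw [e]
  exact h2 n

theorem sls_eig {T : X →L[ℂ] X} {c : ℂ} {x : X} (hx : x ≠ 0) (h : T x = c • x) {r : ℝ}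
    (hr : 0 < r) :
    ∃ (x : X) (C : ℝ), x ≠ 0 ∧ ∀ n : ℕ, ‖((T - c • (1 : X →L[ℂ] X)) ^ n) x‖ ≤ C * r ^ n := by
  refine ⟨x, ‖x‖, hx, fun n => ?_⟩
  cases n with
  | zero => simp
  | succ n =>
    rw [pow_succ]
    have e : (T - c • (1 : X →L[ℂ] X)) x = 0 := by
      show T x - c • x = 0
      rw [h, sub_self]
    have e2 : ((T - c • (1 : X →L[ℂ] X)) ^ n * (T - c • (1 : X →L[ℂ] X))) x = 0 := by
      show ((T - c • (1 : X →L[ℂ] X)) ^ n) ((T - c • (1 : X →L[ℂ] X)) x) = 0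
      rw [e, map_zero]
    rw [e2, norm_zero]
    positivity

theorem sls [CompleteSpace X] (hX : Refl X) (hΨ : Cal N R Ψ) {p : ℝ} (h1 : 1 < p) (h2 : p < 2)
    {u : ℕ → X} {v : ℕ → (X →L[ℂ] ℂ)} {S : ℝ≥0} (hW : Wt p u v S)
    {K : X →L[ℂ] X} (hK : Tendsto (Ks u v) atTop (𝓝 K)) {t : ℂ}
    (hG : ∀ ρ : ℕ, ∃ B : ℝ≥0, ∃ᶠ n in atTop, Gd hΨ u v t ρ B n) : SLS (N + t • K) := by
  intro c hc ε hε
  by_cases hE : Ess Ψ c
  · exact sls_chain (chains hX hΨ h1 h2 hW hK hG hE hε)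
  · obtain ⟨x, hx, h⟩ := noness hΨ hE ((K_compact hK).smul t) hc
    exact sls_eig hx h hε

/-- the theorem for a calculus on a disc -/
theorem all_ae [CompleteSpace X] (hX : Refl X) (hΨ : Cal N R Ψ) {u : ℕ → X}
    {v : ℕ → (X →L[ℂ] ℂ)} {q : ℝ} (hq0 : 0 < q) (hq1 : q < 1)
    (hs : Summable fun i => (‖u i‖ * ‖v i‖) ^ q) {K : X →L[ℂ] X}
    (hK : ∀ x, HasSum (fun i => v i x • u i) (K x)) (m : Measure ℂ) [SFinite m] (hm : LogBd m) :
    ∀ᵐ t ∂m, ((∃ c : ℂ, N + t • K = c • 1) ∨ HasHyp (N + t • K)) ∧ SLS (N + t • K) ∧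
      SLS (tr (N + t • K)) := by
  obtain ⟨p, u', v', S, h1, h2, hW, hK'⟩ := data hq0 hq1 hs hK
  filter_upwards [sel hΨ h1 h2 hW m hm, sel hΨ.tr h1 h2 hW.dual m hm] with t h3 h4
  refine ⟨fin hX hΨ h1 h2 hW hK' h3 h4, sls hX hΨ h1 h2 hW hK' h3, ?_⟩
  have htr : tr (N + t • K) = tr N + t • tr K := by rw [map_add, map_smul]
  rw [htr]
  exact sls hX.dual hΨ.tr h1 h2 hW.dual (tendsto_tr hK') h4

/-- the theorem for a calculus on a compact set -/
theorem all_main [CompleteSpace X] (hX : Refl X) (N : X →L[ℂ] X) (Z : Set ℂ) (hZ : IsCompact Z)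
    (Ψ : C(Z, ℂ) →ₐ[ℂ] (X →L[ℂ] X)) (hc : Continuous Ψ)
    (hid : Ψ ⟨Subtype.val, continuous_subtype_val⟩ = N) {u : ℕ → X}
    {v : ℕ → (X →L[ℂ] ℂ)} {q : ℝ} (hq0 : 0 < q) (hq1 : q < 1)
    (hs : Summable fun i => (‖u i‖ * ‖v i‖) ^ q) {K : X →L[ℂ] X}
    (hK : ∀ x, HasSum (fun i => v i x • u i) (K x)) (m : Measure ℂ) [SFinite m] (hm : LogBd m) :
    ∀ᵐ t ∂m, ((∃ c : ℂ, N + t • K = c • 1) ∨ HasHyp (N + t • K)) ∧ SLS (N + t • K) ∧
      SLS (tr (N + t • K)) := by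
  obtain ⟨R, hR⟩ := hZ.isBounded.subset_closedBall (0:ℂ)
  have hR' : Z ⊆ closedBall (0:ℂ) (|R| + 1) :=
    hR.trans (closedBall_subset_closedBall (by have := le_abs_self R; linarith))
  let f : C(Z, DD (|R| + 1)) := ⟨fun z => ⟨z, hR' z.2⟩, by fun_prop⟩
  have hcal : Cal N (|R| + 1) (Ψ.comp (ContinuousMap.compRightAlgHom ℂ ℂ f)) := by
    refine ⟨by positivity, ?_, ?_⟩
    · exact hc.comp (ContinuousMap.compRightAlgHom_continuous ℂ ℂ f)
    · rw [← hid]
      rfl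
  exact all_ae hX hcal hq0 hq1 hs hK m hm

end Pool.Agent.Q98.NR
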