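import Pool.Agent.Q98.NR.Ell

/-!
# Nuclear perturbations on reflexive spaces: the operator is bounded below if there are no chains
-/

set_option autoImplicit false

namespace Pool.Agent.Q98.NR

open MeasureTheory Set Metric Filter Topology Matrix
open scoped ENNReal NNReal ComplexConjugate ContDiff
open Pool.Agent.Y283.NK (lm)
open Pool.Agent.Q98.RB

variable {X : Type} [NormedAddCommGroup X] [NormedSpace ℂ X]
variable {N : X →L[ℂ] X} {R : ℝ} {Ψ : C(DD R, ℂ) →ₐ[ℂ] (X →L[ℂ] X)}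

theorem hp_self (Y : ℕ → StrongDual ℂ X) (a : ℂ) (m : ℕ) (x : X) : hp Y a m x a = Y 0 x := by
  unfold hp
  rw [Finset.sum_range_succ']
  simp

/-- Cauchy-Schwarz with one more term -/
theorem cs_opt {n : ℕ} (p : ℝ) (h1 : 1 ≤ p) (h2 : p ≤ 2) (b t : ℂ) (l K : Fin n → ℂ) {Λ : ℝ}
    (hl : Real.sqrt (∑ i, ‖l i‖ ^ 2) ≤ Λ) :
    ‖b + t * ∑ i, l i * K i‖ ≤
      Real.exp (‖t‖ * Λ + ‖b‖ ^ p + ∑ i, ‖K i‖ ^ p) := by
  have hΛ : 0 ≤ Λ := (Real.sqrt_nonneg _).trans hl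
  have e : b + t * ∑ i, l i * K i = ∑ o : Option (Fin n),
      (o.elim 1 fun i => t * l i) * (o.elim b fun i => K i) := by
    rw [Fintype.sum_option]
    simp only [Option.elim, one_mul]
    rw [Finset.mul_sum]
    congr 1
    exact Finset.sum_congr rfl fun i _ => by ring
  rw [e]
  refine (cs Finset.univ _ _).trans ?_
  have h3 := sqrt_le_exp (Finset.univ : Finset (Option (Fin n)))
    (fun o => ‖(o.elim b fun i => K i : ℂ)‖) p (fun _ => norm_nonneg _) h1 h2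
  rw [Fintype.sum_option (fun o : Option (Fin n) => ‖(o.elim b fun i => K i : ℂ)‖ ^ p)] at h3
  simp only [Option.elim] at h3
  have h4 : Real.sqrt (∑ o : Option (Fin n), ‖(o.elim 1 fun i => t * l i : ℂ)‖ ^ 2) ≤
      Real.exp (‖t‖ * Λ) := by
    rw [Real.sqrt_le_left (Real.exp_pos _).le, ← Real.exp_nat_mul, Fintype.sum_option]
    simp only [Option.elim, norm_one, norm_mul, mul_pow]
    rw [← Finset.mul_sum]
    have h5 : ∑ i, ‖l i‖ ^ 2 ≤ Λ ^ 2 := by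
      rw [Real.sqrt_le_left hΛ] at hl
      exact hl
    have h6 : ‖t‖ ^ 2 * ∑ i, ‖l i‖ ^ 2 ≤ ‖t‖ ^ 2 * Λ ^ 2 :=
      mul_le_mul_of_nonneg_left h5 (by positivity)
    have h7 := Real.quadratic_le_exp_of_nonneg (x := ((2:ℕ):ℝ) * (‖t‖ * Λ)) (by positivity)
    push_cast at h7 ⊢
    have h8 : 0 ≤ ‖t‖ * Λ := by positivity
    nlinarith
  calc _ ≤ Real.exp (‖t‖ * Λ) * Real.exp (‖b‖ ^ p + ∑ i, ‖K i‖ ^ p) :=
        mul_le_mul h4 h3 (Real.sqrt_nonneg _) (Real.exp_pos _).le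
    _ = _ := by
        rw [← Real.exp_add]
        congr 1
        ring

theorem y0 (hΨ : Cal N R Ψ) {p : ℝ} (h1 : 1 < p) (h2 : p < 2) {ρ : ℝ} {C : ℝ≥0}
    (hC : CB Ψ p ρ C) {u : ℕ → X} {v : ℕ → (X →L[ℂ] ℂ)} {S : ℝ≥0} (hW : Wt p u v S) (t : ℂ)
    (B : ℝ≥0) {a : ℂ} {r : ℝ} (hr : 0 < r) (hD : closedBall a r ⊆ ball 0 ρ)
    (y : StrongDual ℂ X) :
    ∃ Λ : ℝ, 0 < Λ ∧ ∀ n, Gd hΨ u v t ρ B n → ∀ (m : ℕ) (Y : ℕ → StrongDual ℂ X),
      (∀ k, m ≤ k → Y k = 0) →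
      ∑ k ∈ Finset.range (m + 1), r ^ k * ‖res (N + t • Ks u v n) a y Y k‖ ≤ 1 →
      ∀ x, ‖Y 0 x‖ ≤ Λ * ‖x‖ := by
  have hp0 : (0:ℝ) ≤ p := by linarith
  obtain ⟨Λ, hΛ, hell⟩ := ell hΨ h1 h2 hC hW t B hr hD y
  obtain ⟨A₀, hA₀⟩ : ∃ A₀ : ℝ≥0∞, A₀ = ENNReal.ofReal (‖t‖ * Λ) * volume (ball (0:ℂ) ρ) +
    (C * (‖y‖ₑ + 1)) ^ p + C ^ p * S := ⟨_, rfl⟩
  have hCp : (C : ℝ≥0∞) ^ p ≠ ⊤ := ENNReal.rpow_ne_top_of_nonneg hp0 ENNReal.coe_ne_top
  have hA₀t : A₀ ≠ ⊤ := by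
    have hV : volume (ball (0:ℂ) ρ) ≠ ⊤ := measure_ball_lt_top.ne
    have hy : ‖y‖ₑ ≠ ⊤ := enorm_ne_top
    have g1 : (C * (‖y‖ₑ + 1) : ℝ≥0∞) ^ p ≠ ⊤ := ENNReal.rpow_ne_top_of_nonneg hp0
      (ENNReal.mul_ne_top ENNReal.coe_ne_top (ENNReal.add_ne_top.2 ⟨hy, ENNReal.one_ne_top⟩))
    rw [hA₀]
    exact ENNReal.add_ne_top.2 ⟨ENNReal.add_ne_top.2 ⟨ENNReal.mul_ne_top ENNReal.ofReal_ne_top hV,
      g1⟩, ENNReal.mul_ne_top hCp ENNReal.coe_ne_top⟩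
  have hA : A₀ ≤ ENNReal.ofReal (A₀.toReal + 1) := by
    calc A₀ = ENNReal.ofReal A₀.toReal := (ENNReal.ofReal_toReal hA₀t).symm
      _ ≤ _ := ENNReal.ofReal_le_ofReal (by linarith)
  have hA0 : 0 < A₀.toReal + 1 := by positivity
  refine ⟨Real.exp ((A₀.toReal + 1) / (r / 2) ^ 2), Real.exp_pos _, ?_⟩
  intro n hG m Y hY hE
  -- for unit vectors
  have hunit : ∀ x : X, ‖x‖ ≤ 1 → ‖Y 0 x‖ ≤ Real.exp ((A₀.toReal + 1) / (r / 2) ^ 2) := by
    intro x hx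
    have hxe : ‖x‖ₑ ≤ 1 := by
      rw [← ofReal_norm, ← ENNReal.ofReal_one]
      exact ENNReal.ofReal_le_ofReal hx
    set E := res (N + t • Ks u v n) a y Y with hEdef
    have hsub : closedBall a (r / 2) ⊆ closedBall a r :=
      closedBall_subset_closedBall (by linarith)
    have hb1 : ∀ᵐ z ∂(volume.restrict (closedBall a (r / 2))), ‖hp Y a m x z‖ ≤
        Real.exp (ENNReal.ofReal (‖t‖ * Λ) + ‖bb hΨ a y E m x z‖ₑ ^ p +
          ∑ i : Fin n, ‖Kf hΨ (v i) x z‖ₑ ^ p).toReal := by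
      filter_upwards [ae_restrict_of_ae (key hΨ u v t a n y Y m hY x),
        ae_restrict_mem measurableSet_closedBall] with z hk hz
      rw [hk, Finset.sum_range fun i => hp Y a m (u i) z * Kf hΨ (v i) x z]
      have h3 := cs_opt p h1.le h2.le (bb hΨ a y E m x z) t (fun i : Fin n => hp Y a m (u i) z)
        (fun i : Fin n => Kf hΨ (v i) x z) (hell n hG m Y hY hE z hz)
      rw [ENNReal.toReal_add (ENNReal.add_ne_top.2 ⟨ENNReal.ofReal_ne_top, rpow_top hp0 _⟩)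
        (ENNReal.sum_ne_top.2 fun i _ => rpow_top hp0 _),
        ENNReal.toReal_add ENNReal.ofReal_ne_top (rpow_top hp0 _),
        ENNReal.toReal_ofReal (by positivity), rpow_toReal,
        ENNReal.toReal_sum fun i _ => rpow_top hp0 _]
      simp only [rpow_toReal]
      exact h3
    have m1 : Measurable fun z => ‖bb hΨ a y E m x z‖ₑ ^ p :=
      (bb_meas hΨ a y E m x).enorm.pow_const p
    have m2 : ∀ i : Fin n, Measurable fun z => ‖Kf hΨ (v i) x z‖ₑ ^ p := fun i =>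
      (Kf_spec hΨ (v i) x).meas.enorm.pow_const p
    have m3 : Measurable fun z => ENNReal.ofReal (‖t‖ * Λ) + ‖bb hΨ a y E m x z‖ₑ ^ p :=
      measurable_const.add m1
    have hint : ∫⁻ z in closedBall a (r / 2), (ENNReal.ofReal (‖t‖ * Λ) +
        ‖bb hΨ a y E m x z‖ₑ ^ p + ∑ i : Fin n, ‖Kf hΨ (v i) x z‖ₑ ^ p) ≤ A₀ := by
      rw [lintegral_add_left m3, lintegral_add_left measurable_const, lintegral_const,
        lintegral_finsetSum _ (fun i _ => m2 i), Measure.restrict_apply_univ, hA₀]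
      refine add_le_add (add_le_add ?_ ?_) ?_
      · exact mul_le_mul' le_rfl (measure_mono (hsub.trans hD))
      · calc _ ≤ ∫⁻ z in closedBall a r, ‖bb hΨ a y E m x z‖ₑ ^ p := lintegral_mono_set hsub
          _ ≤ (C * (‖y‖ₑ + 1) * ‖x‖ₑ) ^ p := bb_lp hΨ h1 hC hr.le hD y E m hE x
          _ ≤ _ := by
              refine ENNReal.rpow_le_rpow ?_ hp0
              calc _ ≤ C * (‖y‖ₑ + 1) * 1 := mul_le_mul' le_rfl hxe
                _ = _ := mul_one _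
      · calc _ ≤ ∑ i : Fin n, C ^ p * ‖v i‖ₑ ^ p := by
              refine Finset.sum_le_sum fun i _ => ?_
              calc _ ≤ ∫⁻ z in ball (0:ℂ) ρ, ‖Kf hΨ (v i) x z‖ₑ ^ p :=
                    lintegral_mono_set (hsub.trans hD)
                _ ≤ (C * ‖v i‖ₑ * ‖x‖ₑ) ^ p := (hC _ _ _ (Kf_spec hΨ (v i) x)).2
                _ ≤ (C * ‖v i‖ₑ) ^ p := by
                    refine ENNReal.rpow_le_rpow ?_ hp0
                    calc _ ≤ C * ‖v i‖ₑ * 1 := mul_le_mul' le_rfl hxe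
                      _ = _ := mul_one _
                _ = _ := ENNReal.mul_rpow_of_nonneg _ _ hp0
          _ = C ^ p * ∑ i : Fin n, ‖v i‖ₑ ^ p := by rw [Finset.mul_sum]
          _ ≤ _ := by
              refine mul_le_mul' le_rfl ?_
              rw [← Finset.sum_range fun k => ‖v k‖ₑ ^ p]
              exact hW.hv n
    have h3 := submean (hp_diff Y a m x) a (s := r / 2) (by positivity) hA0 _
      (m3.add (Finset.measurable_sum _ fun i _ => m2 i)) (hint.trans hA) hb1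
    rwa [hp_self] at h3
  intro x
  by_cases hx : x = 0
  · rw [hx, map_zero, norm_zero, norm_zero, mul_zero]
  have hx0 : 0 < ‖x‖ := norm_pos_iff.2 hx
  have h3 := hunit ((‖x‖⁻¹ : ℂ) • x) (by
    rw [norm_smul, norm_inv, Complex.norm_real, norm_norm, inv_mul_cancel₀ hx0.ne'])
  rw [map_smul, norm_smul, norm_inv, Complex.norm_real, norm_norm] at h3
  rwa [inv_mul_le_iff₀ hx0, mul_comm] at h3

end Pool.Agent.Q98.NR
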